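import Mathlib
import Pool.Agent.LGO.Defs

/-!
# LGO/PW: counting isogenous triples (note 3012 on MP_d83ecd_ag), definitions

`z : Fin 3 → ℂ → ℂ` are three holomorphic functions with values in the upper half plane; the curve is
locally parametrised by `s ↦ (j (z 0 s), j (z 1 s), j (z 2 s))`.
-/

namespace Pool.Agent.LGO.PW

open UpperHalfPlane MvPolynomial Metric

/-- the `ℓ¹` norm of the coefficients -/
noncomputable def nrm {m : ℕ} (G : MvPolynomial (Fin m) ℂ) : ℝ := ∑ k ∈ G.support, ‖G.coeff k‖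

/-- the point `x` is the point of the chart `z` with parameter `s` -/
def Lift (z : Fin 3 → ℂ → ℂ) (s : ℂ) (x : Fin 3 → ℂ) : Prop :=
  ∀ a, ∃ τ : ℍ, (τ : ℂ) = z a s ∧ x a = Pool.Agent.Hhelper14.ZP.jInv τ

/-- the three points `z a s` are pairwise related by integral matrices of non zero determinant with
entries bounded by `H` -/
def Pt (H : ℝ) (z : Fin 3 → ℂ → ℂ) (s : ℂ) : Prop :=
  ∀ a b, ∃ g : Matrix (Fin 2) (Fin 2) ℤ, g.det ≠ 0 ∧ (∀ i j, |(g i j : ℝ)| ≤ H) ∧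
    Maps g (z b s) (z a s)

/-- algebraic independence of the three functions over `ℂ`, on the set `Ω` -/
def Ind (Ω : Set ℂ) (z : Fin 3 → ℂ → ℂ) : Prop :=
  ∀ G : MvPolynomial (Fin 3) ℂ, G ≠ 0 → ∃ s ∈ Ω, eval (fun a => z a s) G ≠ 0

/-- a compact chart: holomorphic on the disc of radius `4`, used in the closed disc of radius `1` -/
structure Comp (z : Fin 3 → ℂ → ℂ) : Prop where
  an : ∀ a, DifferentiableOn ℂ (z a) (ball 0 4)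
  im : ∃ c : ℝ, 0 < c ∧ ∀ a, ∀ s ∈ ball (0 : ℂ) 4, c ≤ (z a s).im
  bd : ∃ C : ℝ, ∀ a, ∀ s ∈ ball (0 : ℂ) 4, ‖z a s‖ ≤ C
  ind : Ind (ball 0 4) z

/-- the functions of a cusp chart: `z a w = e a w / (2 π i) + ψ a (exp w)` -/
noncomputable def cz (e : Fin 3 → ℕ) (ψ : Fin 3 → ℂ → ℂ) (a : Fin 3) (w : ℂ) : ℂ :=
  (e a : ℂ) * w / (2 * Real.pi * Complex.I) + ψ a (Complex.exp w)

/-- the left half plane -/
def LH : Set ℂ := {w : ℂ | w.re < 0}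

/-- a cusp chart, used for `Re w ≤ -4`, `|Im w| ≤ π`; one coordinate is infinite, one is finite -/
structure Cusp (e : Fin 3 → ℕ) (ψ : Fin 3 → ℂ → ℂ) : Prop where
  inf : ∃ a, 0 < e a
  fin : ∃ a, e a = 0
  an : ∀ a, DifferentiableOn ℂ (ψ a) (ball 0 1)
  bd : ∃ C : ℝ, ∀ a, ∀ q ∈ ball (0 : ℂ) 1, ‖ψ a q‖ ≤ C
  im : ∃ c : ℝ, 0 < c ∧ ∀ a, ∀ w ∈ LH, c ≤ (cz e ψ a w).im
  ind : Ind LH (cz e ψ)

/-- the part of a cusp chart which is used -/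
def CD : Set ℂ := {w : ℂ | w.re ≤ -4 ∧ |w.im| ≤ Real.pi}

/-- the set `W` of triples is covered by finitely many charts, up to finitely many points -/
def HasAtlas (W : Set (Fin 3 → ℂ)) : Prop :=
  ∃ (F : Set (Fin 3 → ℂ)) (n m : ℕ) (z : Fin n → Fin 3 → ℂ → ℂ) (e : Fin m → Fin 3 → ℕ)
    (ψ : Fin m → Fin 3 → ℂ → ℂ), F.Finite ∧ (∀ k, Comp (z k)) ∧ (∀ k, Cusp (e k) (ψ k)) ∧
    ∀ x ∈ W, x ∈ F ∨ (∃ k, ∃ s ∈ closedBall (0 : ℂ) 1, Lift (z k) s x) ∨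
      ∃ k, ∃ w ∈ CD, Lift (cz (e k) (ψ k)) w x

/-- a family of discs of radius `3` on which the polynomials in the three functions satisfy a doubling
inequality; `ρ w` is the absolute value of the parameter `q` at the centre `w` of the disc
(`1` in a compact chart) -/
structure Fam (Ω Cn : Set ℂ) (z : Fin 3 → ℂ → ℂ) (ρ : ℂ → ℝ) : Prop where
  isOpen : IsOpen Ω
  ball : ∀ w ∈ Cn, ball w 3 ⊆ Ω
  an : ∀ a, DifferentiableOn ℂ (z a) Ω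
  im : ∃ c : ℝ, 0 < c ∧ ∀ a, ∀ s ∈ Ω, c ≤ (z a s).im
  size : ∃ C : ℝ, ∀ a, ∀ s ∈ Ω, ‖z a s‖ ≤ C * (1 + ‖s‖)
  rho : ∀ w ∈ Cn, 0 < ρ w ∧ ρ w ≤ 1
  dbl : ∀ d : ℕ, ∃ C : ℕ, 0 < C ∧ ∀ w ∈ Cn, ∀ G : MvPolynomial (Fin 3) ℂ, G ≠ 0 →
    G.totalDegree ≤ d → ∃ c : ℝ, 0 < c ∧ nrm G * ρ w ^ C ≤ C * (1 + ‖w‖) ^ C * c ∧
      (∀ s ∈ Metric.ball w 3, ‖eval (fun a => z a s) G‖ ≤ C * c) ∧
      ∃ s ∈ closedBall w 1, c ≤ C * ‖eval (fun a => z a s) G‖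

end Pool.Agent.LGO.PW
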