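import Mathlib

/-!
# LGO/PW: linear algebra with integral vectors

* `det_low`: a determinant of size `N` of a matrix `P * R + E`, where the inner dimension is `Q ≤ N`.
  Multilinearity in the columns: `det (P R + E)` is the sum over the subsets `T` of the columns of the
  determinants with the columns in `T` from `P R` and the others from `E`; the term vanishes if
  `|T| > Q`, because the columns of `P R` lie in a space of dimension `≤ Q`; a term with `|T| ≤ Q` is at
  most `N! B ^ |T| δ ^ (N - |T|) ≤ N! B ^ N δ ^ (N - Q)` because `δ ≤ 1 ≤ B`.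
* `exact_rel`: integral vectors which satisfy approximately ONE normalised relation satisfy an exact
  non trivial relation.  If the vectors `v j` span `ℚ ^ κ`, take `card κ` of them with determinant `≠ 0`,
  so `≥ 1`; replace the column `k₀` by the combination `∑ g k v j k`: the determinant is at most
  `(card κ)! B ^ (card κ) δ`.  Otherwise they do not span, and there is an exact relation (`Submodule`
  duality, or `Matrix` rank; rational coefficients).
* `exact_two`: vectors in `ℤ ^ 4` (matrices) which approximately map `τ` to `w`, where `τ`, `w` have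
  imaginary parts `≥ c`: they span a space of dimension `≤ 2`.  From
  `g₀₀ τ + g₀₁ = w (g₁₀ τ + g₁₁) + O(δ)`, taking imaginary and real parts, `(g₀₀, g₀₁)` is the value at
  `(g₁₀, g₁₁)` of a fixed real linear map up to `O(δ)` (constants depending on `c, B`).  If the dimension
  is `≥ 3`, three of the vectors and a vector of the standard basis have a determinant `≠ 0`, which is small
  by `det_low` with `Q = 3`.
-/

namespace Pool.Agent.LGO.PW

/-- the determinant is at most `n!` times the product of the bounds of the rows -/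
theorem Lin_det_le {n : Type*} [Fintype n] [DecidableEq n] (M : Matrix n n ℂ) (c : n → ℝ)
    (h : ∀ i j, ‖M i j‖ ≤ c i) : ‖M.det‖ ≤ ((Fintype.card n).factorial : ℝ) * ∏ i, c i := by
  rw [Matrix.det_apply]
  refine (norm_sum_le _ _).trans ?_
  have hb : ∀ σ ∈ (Finset.univ : Finset (Equiv.Perm n)),
      ‖Equiv.Perm.sign σ • ∏ i, M (σ i) i‖ ≤ ∏ i, c i := by
    intro σ _
    have h1 : ‖Equiv.Perm.sign σ • ∏ i, M (σ i) i‖ = ‖∏ i, M (σ i) i‖ := by
      rcases Int.units_eq_one_or (Equiv.Perm.sign σ) with h | h <;> simp [h]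
    rw [h1, norm_prod, ← Equiv.prod_comp σ c]
    exact Finset.prod_le_prod (fun i _ => norm_nonneg _) (fun i _ => h _ _)
  refine (Finset.sum_le_card_nsmul _ _ _ hb).trans ?_
  rw [nsmul_eq_mul, Finset.card_univ, Fintype.card_perm]

/-- determinants of matrices close to matrices of low rank -/
theorem det_low {N Q : ℕ} (hQ : Q ≤ N) (P : Matrix (Fin N) (Fin Q) ℂ) (R : Matrix (Fin Q) (Fin N) ℂ)
    (E : Matrix (Fin N) (Fin N) ℂ) {B δ : ℝ} (hB : 1 ≤ B) (hδ0 : 0 ≤ δ) (hδ : δ ≤ 1)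
    (h1 : ∀ i j, ‖(P * R) i j‖ ≤ B) (h2 : ∀ i j, ‖E i j‖ ≤ δ) :
    ‖(P * R + E).det‖ ≤ 2 ^ N * (N.factorial : ℝ) * B ^ N * δ ^ (N - Q) := by
  have hB0 : 0 ≤ B := zero_le_one.trans hB
  have hexp : (P * R + E).det = ∑ s : Finset (Fin N),
      (Matrix.detRowAlternating : (Fin N → ℂ) [⋀^Fin N]→ₗ[ℂ] ℂ) (s.piecewise (P * R) E) :=
    (Matrix.detRowAlternating : (Fin N → ℂ) [⋀^Fin N]→ₗ[ℂ] ℂ).toMultilinearMap.map_add_univ
      (P * R) E
  rw [hexp]
  refine (norm_sum_le _ _).trans ?_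
  have hterm : ∀ s ∈ (Finset.univ : Finset (Finset (Fin N))),
      ‖(Matrix.detRowAlternating : (Fin N → ℂ) [⋀^Fin N]→ₗ[ℂ] ℂ) (s.piecewise (P * R) E)‖ ≤
        (N.factorial : ℝ) * (B ^ N * δ ^ (N - Q)) := by
    intro s _
    rcases lt_or_ge Q s.card with hs | hs
    · have hz : (Matrix.detRowAlternating : (Fin N → ℂ) [⋀^Fin N]→ₗ[ℂ] ℂ)
          (s.piecewise (P * R) E) = 0 := by
        apply AlternatingMap.map_linearDependent
        intro hli
        have h3 : LinearIndependent ℂ (fun i : s => (s.piecewise (P * R) E : Fin N → Fin N → ℂ) i) :=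
          hli.comp (fun i : s => (i : Fin N)) Subtype.val_injective
        have h4 : (fun i : s => (s.piecewise (P * R) E : Fin N → Fin N → ℂ) i) =
            (Matrix.vecMulLinear R) ∘ (fun i : s => P i) := by
          funext i
          rw [Finset.piecewise_eq_of_mem _ _ _ i.2]
          funext j
          rfl
        rw [h4] at h3
        have h5 : LinearIndependent ℂ (fun i : s => P i) := LinearIndependent.of_comp _ h3
        have h6 := h5.fintype_card_le_finrank
        rw [Module.finrank_fin_fun, Fintype.card_coe] at h6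
        omega
      rw [hz, norm_zero]
      positivity
    · have hle := Lin_det_le (s.piecewise (P * R) E) (fun i => if i ∈ s then B else δ) (by
        intro i j
        by_cases hi : i ∈ s
        · rw [Finset.piecewise_eq_of_mem _ _ _ hi, if_pos hi]; exact h1 i j
        · rw [Finset.piecewise_eq_of_notMem _ _ _ hi, if_neg hi]; exact h2 i j)
      refine hle.trans ?_
      rw [Fintype.card_fin]
      apply mul_le_mul_of_nonneg_left _ (Nat.cast_nonneg _)
      have hprod : ∏ i : Fin N, (if i ∈ s then B else δ) = B ^ s.card * δ ^ (N - s.card) := by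
        rw [Finset.prod_ite, Finset.prod_const, Finset.prod_const]
        congr 2
        · congr 1; ext i; simp
        · have : Finset.univ.filter (fun i : Fin N => i ∉ s) = sᶜ := by ext i; simp
          rw [this, Finset.card_compl, Fintype.card_fin]
      rw [hprod]
      have hsN : s.card ≤ N := hs.trans hQ
      exact mul_le_mul (pow_le_pow_right₀ hB hsN)
        (pow_le_pow_of_le_one hδ0 hδ (by omega)) (pow_nonneg hδ0 _) (pow_nonneg hB0 _)
  refine (Finset.sum_le_card_nsmul _ _ _ hterm).trans ?_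
  rw [nsmul_eq_mul, Finset.card_univ, Fintype.card_finset, Fintype.card_fin]
  apply le_of_eq
  push_cast
  ring

/-- an approximate relation between integral vectors gives an exact one -/
theorem exact_rel {ι κ : Type*} [Fintype κ] [DecidableEq κ] (S : Set ι) (v : ι → κ → ℤ) {B δ : ℝ}
    (hB : 1 ≤ B) (hv : ∀ j ∈ S, ∀ k, |(v j k : ℝ)| ≤ B) (g : κ → ℂ) (hg : ∀ k, ‖g k‖ ≤ 1)
    (hg1 : ∃ k, ‖g k‖ = 1) (hδ : ∀ j ∈ S, ‖∑ k, g k * (v j k : ℂ)‖ ≤ δ)
    (h : (Fintype.card κ).factorial * B ^ Fintype.card κ * δ < 1) :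
    ∃ g' : κ → ℚ, g' ≠ 0 ∧ ∀ j ∈ S, ∑ k, g' k * (v j k : ℚ) = 0 := by
  obtain ⟨k₀, hk₀⟩ := hg1
  have hB0 : 0 ≤ B := zero_le_one.trans hB
  set q : ι → κ → ℚ := fun j k => (v j k : ℚ) with hq
  set V : Submodule ℚ (κ → ℚ) := Submodule.span ℚ (q '' S) with hV
  rcases lt_or_eq_of_le (le_top : V ≤ ⊤) with hlt | htop
  · obtain ⟨f, hf0, hf⟩ := Submodule.exists_le_ker_of_lt_top V hlt
    refine ⟨fun k => f (Pi.single k 1), ?_, ?_⟩
    · intro h0
      apply hf0
      apply LinearMap.pi_ext'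
      intro k
      apply LinearMap.ext_ring
      simpa using congrFun h0 k
    · intro j hj
      have h1 : q j ∈ V := Submodule.subset_span ⟨j, hj, rfl⟩
      have h2 : f (q j) = 0 := hf h1
      have h3 : q j = ∑ k, (v j k : ℚ) • (Pi.single k 1 : κ → ℚ) := by
        funext l
        simp [hq, Finset.sum_apply, Pi.single_apply]
      rw [h3, map_sum] at h2
      rw [← h2]
      refine Finset.sum_congr rfl fun k _ => ?_
      rw [map_smul, smul_eq_mul, mul_comm]
  · exfalso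
    obtain ⟨b, hbS, hbspan, hbli⟩ := exists_linearIndependent ℚ (q '' S)
    have hbtop : (⊤ : Submodule ℚ (κ → ℚ)) ≤ Submodule.span ℚ (Set.range ((↑) : b → κ → ℚ)) := by
      rw [Subtype.range_coe, hbspan, ← hV, htop]
    let bas : Module.Basis b ℚ (κ → ℚ) := Module.Basis.mk hbli hbtop
    let e : κ ≃ b := (Pi.basisFun ℚ κ).indexEquiv bas
    have hj : ∀ k : κ, ∃ j ∈ S, q j = (e k : κ → ℚ) := fun k => hbS (e k).2
    choose j hjS hjq using hj
    have hδ0 : 0 ≤ δ := (norm_nonneg _).trans (hδ _ (hjS k₀))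
    let A : Matrix κ κ ℤ := fun k l => v (j k) l
    have hli : LinearIndependent ℚ (A.map (Int.cast : ℤ → ℚ)).row := by
      have h1 : (A.map (Int.cast : ℤ → ℚ)).row = (fun x : b => (x : κ → ℚ)) ∘ e := by
        funext k
        exact hjq k
      rw [h1]
      exact hbli.comp _ e.injective
    have hdet : A.det ≠ 0 := by
      intro h0
      have h1 := Matrix.linearIndependent_rows_iff_isUnit.1 hli
      rw [Matrix.isUnit_iff_isUnit_det] at h1
      apply h1.ne_zero
      have h2 := (Int.castRingHom ℚ).map_det A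
      rw [h0, map_zero] at h2
      exact h2.symm
    have hdet1 : (1 : ℝ) ≤ ‖((A.det : ℤ) : ℂ)‖ := by
      rw [Complex.norm_intCast]
      exact_mod_cast Int.one_le_abs hdet
    let A' : Matrix κ κ ℂ := A.map (Int.cast : ℤ → ℂ)
    have hA' : A'.det = ((A.det : ℤ) : ℂ) := ((Int.castRingHom ℂ).map_det A).symm
    have hupd := Matrix.det_updateCol_sum A' k₀ g
    have hbound : ‖(A'.updateCol k₀ (fun k => ∑ i, g i • A' k i)).det‖ ≤
        (Fintype.card κ).factorial * B ^ Fintype.card κ * δ := by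
      rw [← Matrix.det_transpose]
      refine (Lin_det_le _ (fun i => if i = k₀ then δ else B) ?_).trans ?_
      · intro i l
        rw [Matrix.transpose_apply]
        by_cases hi : i = k₀
        · subst hi
          rw [Matrix.updateCol_self, if_pos rfl]
          exact hδ _ (hjS l)
        · rw [Matrix.updateCol_ne hi, if_neg hi]
          have := hv _ (hjS l) i
          change ‖((v (j l) i : ℤ) : ℂ)‖ ≤ B
          rw [Complex.norm_intCast]
          exact this
      · rw [mul_assoc]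
        apply mul_le_mul_of_nonneg_left _ (Nat.cast_nonneg _)
        have hprod : ∏ i : κ, (if i = k₀ then δ else B) = δ * B ^ (Fintype.card κ - 1) := by
          rw [← Finset.mul_prod_erase Finset.univ _ (Finset.mem_univ k₀), if_pos rfl]
          congr 1
          rw [Finset.prod_congr rfl (g := fun _ => B)
            (fun i hi => if_neg (Finset.ne_of_mem_erase hi)), Finset.prod_const,
            Finset.card_erase_of_mem (Finset.mem_univ _), Finset.card_univ]
        rw [hprod, mul_comm]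
        exact mul_le_mul_of_nonneg_right (pow_le_pow_right₀ hB (Nat.sub_le _ _)) hδ0
    rw [hupd, norm_smul, hk₀, one_mul, hA'] at hbound
    linarith

/-- integral matrices approximately mapping `τ` to `w` span a space of dimension at most `2` -/
theorem exact_two {c : ℝ} (hc : 0 < c) : ∃ C : ℕ, 0 < C ∧ ∀ (ι : Type) (S : Set ι)
    (g : ι → Matrix (Fin 2) (Fin 2) ℤ) (τ w : ℂ) (H δ : ℝ), 1 ≤ H → c ≤ τ.im → c ≤ w.im →
    ‖τ‖ ≤ H → ‖w‖ ≤ H → 0 ≤ δ → (∀ i ∈ S, ∀ a b, |(g i a b : ℝ)| ≤ H) →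
    (∀ i ∈ S, ‖w * ((g i 1 0 : ℂ) * τ + (g i 1 1 : ℂ)) - ((g i 0 0 : ℂ) * τ + (g i 0 1 : ℂ))‖ ≤ δ) →
    C * H ^ C * δ < 1 →
    Module.finrank ℚ (Submodule.span ℚ ((fun i => (g i).map (Int.cast : ℤ → ℚ)) '' S)) ≤ 2 := by
  refine ⟨⌈6144 * (1 + 1 / c)⌉₊ + 5, by omega, ?_⟩
  intro ι S g τ w H δ hH hτ hw hτH hwH hδ0 hgH hgδ hsmall
  by_contra hcon
  push Not at hcon
  set K : ℝ := 1 + 1 / c with hK
  have hc1 : 0 < 1 / c := by positivity
  have hK1 : 1 ≤ K := by linarith
  have hH0 : 0 ≤ H := by linarith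
  -- the smallness of `δ`
  have hsm : 6144 * K * H ^ 5 * δ < 1 := by
    refine lt_of_le_of_lt ?_ hsmall
    apply mul_le_mul_of_nonneg_right _ hδ0
    have h1 : 6144 * K ≤ ((⌈6144 * K⌉₊ + 5 : ℕ) : ℝ) := by
      push_cast
      have := Nat.le_ceil (6144 * K)
      linarith
    have h2 : H ^ 5 ≤ H ^ (⌈6144 * K⌉₊ + 5) := pow_le_pow_right₀ hH (by omega)
    exact mul_le_mul h1 h2 (by positivity) (by positivity)
  set ε : ℝ := K * H * δ with hε
  have hε0 : 0 ≤ ε := by positivity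
  have hH5 : H ≤ H ^ 5 := by
    calc H = H ^ 1 := (pow_one H).symm
      _ ≤ H ^ 5 := pow_le_pow_right₀ hH (by norm_num)
  have hε1 : ε ≤ 1 := by
    have : K * H * δ ≤ 6144 * K * H ^ 5 * δ := by
      apply mul_le_mul_of_nonneg_right _ hδ0
      have h1 : K * H ≤ K * H ^ 5 := mul_le_mul_of_nonneg_left hH5 (by linarith)
      have h2 : 0 ≤ K * H ^ 5 := by positivity
      linarith
    linarith
  -- three independent vectors
  obtain ⟨b, hbS, hbspan, hbli⟩ := exists_linearIndependent ℚ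
    ((fun i => (g i).map (Int.cast : ℤ → ℚ)) '' S)
  have hbfin : Finite b := hbli.finite
  have : Fintype b := Fintype.ofFinite b
  have hcard : 3 ≤ Fintype.card b := by
    have h1 : Module.finrank ℚ (Submodule.span ℚ (Set.range ((↑) : b → Matrix (Fin 2) (Fin 2) ℚ))) =
        Fintype.card b := finrank_span_eq_card hbli
    rw [Subtype.range_coe, hbspan] at h1
    rw [← h1]
    exact hcon
  obtain ⟨f⟩ : Nonempty (Fin 3 ↪ b) := by
    apply Function.Embedding.nonempty_of_card_le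
    rw [Fintype.card_fin]
    exact hcard
  have hi : ∀ a : Fin 3, ∃ i ∈ S, (g i).map (Int.cast : ℤ → ℚ) = (f a : Matrix (Fin 2) (Fin 2) ℚ) :=
    fun a => hbS (f a).2
  choose i hiS hif using hi
  let φ : Matrix (Fin 2) (Fin 2) ℚ →ₗ[ℚ] (Fin 4 → ℚ) :=
    { toFun := fun M => ![M 0 0, M 0 1, M 1 0, M 1 1]
      map_add' := by
        intro M M'
        funext k
        fin_cases k <;> rfl
      map_smul' := by
        intro r M
        funext k
        fin_cases k <;> rfl }
  have hφ : Function.Injective φ := by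
    intro M M' h
    ext a b
    have h0 : M 0 0 = M' 0 0 := congrFun h 0
    have h1 : M 0 1 = M' 0 1 := congrFun h 1
    have h2 : M 1 0 = M' 1 0 := congrFun h 2
    have h3 : M 1 1 = M' 1 1 := congrFun h 3
    fin_cases a <;> fin_cases b <;> assumption
  let x : Fin 3 → Fin 4 → ℤ := fun a => ![g (i a) 0 0, g (i a) 0 1, g (i a) 1 0, g (i a) 1 1]
  have hx : (fun a => φ (f a)) = fun a k => (x a k : ℚ) := by
    funext a k
    rw [← hif a]
    fin_cases k <;> rfl
  have hli3 : LinearIndependent ℚ (fun a k => (x a k : ℚ) : Fin 3 → Fin 4 → ℚ) := by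
    rw [← hx]
    exact (hbli.comp f f.injective).map' φ (LinearMap.ker_eq_bot.2 hφ)
  -- a vector of the standard basis outside of their span
  obtain ⟨k, hk⟩ : ∃ k : Fin 4, (Pi.single k 1 : Fin 4 → ℚ) ∉
      Submodule.span ℚ (Set.range (fun a k => (x a k : ℚ) : Fin 3 → Fin 4 → ℚ)) := by
    by_contra hno
    push Not at hno
    have h1 : Submodule.span ℚ (Set.range (fun a k => (x a k : ℚ) : Fin 3 → Fin 4 → ℚ)) = ⊤ := by
      rw [eq_top_iff, ← (Pi.basisFun ℚ (Fin 4)).span_eq, Submodule.span_le]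
      rintro _ ⟨k, rfl⟩
      rw [Pi.basisFun_apply]
      exact hno k
    have h2 := finrank_span_eq_card hli3
    rw [h1, finrank_top, Module.finrank_fin_fun, Fintype.card_fin] at h2
    omega
  let A : Matrix (Fin 4) (Fin 4) ℤ := Matrix.of (Fin.cons (Pi.single k 1) x)
  have hliA : LinearIndependent ℚ (A.map (Int.cast : ℤ → ℚ)).row := by
    have h1 : (A.map (Int.cast : ℤ → ℚ)).row =
        (Fin.cons (Pi.single k 1 : Fin 4 → ℚ) (fun a k => (x a k : ℚ)) : Fin 4 → Fin 4 → ℚ) := by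
      funext a l
      refine Fin.cases ?_ (fun a => ?_) a
      · change (((Pi.single k 1 : Fin 4 → ℤ) l : ℤ) : ℚ) = (Pi.single k 1 : Fin 4 → ℚ) l
        rw [Pi.single_apply, Pi.single_apply]
        split_ifs <;> simp
      · rfl
    rw [h1, linearIndependent_finCons]
    exact ⟨hli3, hk⟩
  have hdet : A.det ≠ 0 := by
    intro h0
    have h1 := Matrix.linearIndependent_rows_iff_isUnit.1 hliA
    rw [Matrix.isUnit_iff_isUnit_det] at h1
    apply h1.ne_zero
    have h2 := (Int.castRingHom ℚ).map_det A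
    rw [h0, map_zero] at h2
    exact h2.symm
  have hdet1 : (1 : ℝ) ≤ ‖((A.det : ℤ) : ℂ)‖ := by
    rw [Complex.norm_intCast]
    exact_mod_cast Int.one_le_abs hdet
  -- the real linear map
  set t1 : ℝ := τ.re with ht1
  set t2 : ℝ := τ.im with ht2
  set w1 : ℝ := w.re with hw1
  set w2 : ℝ := w.im with hw2
  have ht2pos : 0 < t2 := hc.trans_le hτ
  set α₁ : ℝ := (w1 * t2 + w2 * t1) / t2 with hα₁
  set α₂ : ℝ := w2 / t2 with hα₂
  set β₁ : ℝ := (w1 * t1 - w2 * t2) - t1 * α₁ with hβ₁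
  set β₂ : ℝ := w1 - t1 * α₂ with hβ₂
  let P : Matrix (Fin 4) (Fin 3) ℂ :=
    Matrix.of (Fin.cons ![0, 0, 1] (fun a => ![(x a 2 : ℂ), (x a 3 : ℂ), 0]))
  let R : Matrix (Fin 3) (Fin 4) ℂ :=
    Matrix.of ![![(α₁ : ℂ), (β₁ : ℂ), 1, 0], ![(α₂ : ℂ), (β₂ : ℂ), 0, 1], Pi.single k 1]
  let E : Matrix (Fin 4) (Fin 4) ℂ := A.map (Int.cast : ℤ → ℂ) - P * R
  have hPRE : P * R + E = A.map (Int.cast : ℤ → ℂ) := by
    change P * R + (A.map (Int.cast : ℤ → ℂ) - P * R) = _
    abel
  have hA' : (P * R + E).det = ((A.det : ℤ) : ℂ) := by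
    rw [hPRE]
    exact ((Int.castRingHom ℂ).map_det A).symm
  -- the entries of `E`
  have hE0 : ∀ l, E 0 l = 0 := by
    intro l
    change (((Pi.single k 1 : Fin 4 → ℤ) l : ℤ) : ℂ) - (P * R) 0 l = 0
    rw [Matrix.mul_apply, Fin.sum_univ_three]
    change (((Pi.single k 1 : Fin 4 → ℤ) l : ℤ) : ℂ) -
      (0 * R 0 l + 0 * R 1 l + 1 * (Pi.single k 1 : Fin 4 → ℂ) l) = 0
    rw [Pi.single_apply, Pi.single_apply]
    split_ifs <;> simp
  have hEs : ∀ (a : Fin 3) (l : Fin 4), ‖E a.succ l‖ ≤ ε := by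
    intro a l
    set D : ℂ := w * ((g (i a) 1 0 : ℂ) * τ + (g (i a) 1 1 : ℂ)) -
      ((g (i a) 0 0 : ℂ) * τ + (g (i a) 0 1 : ℂ)) with hD
    have hDδ : ‖D‖ ≤ δ := hgδ _ (hiS a)
    have hDim : D.im = w1 * ((g (i a) 1 0 : ℝ) * t2) + w2 * ((g (i a) 1 0 : ℝ) * t1 + (g (i a) 1 1 : ℝ))
        - (g (i a) 0 0 : ℝ) * t2 := by
      simp [hD, Complex.mul_im, Complex.mul_re, ht1, ht2, hw1, hw2]
    have hDre : D.re = w1 * ((g (i a) 1 0 : ℝ) * t1 + (g (i a) 1 1 : ℝ)) - w2 * ((g (i a) 1 0 : ℝ) * t2)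
        - ((g (i a) 0 0 : ℝ) * t1 + (g (i a) 0 1 : ℝ)) := by
      simp [hD, Complex.mul_im, Complex.mul_re, ht1, ht2, hw1, hw2]
    have hDim1 : |D.im| ≤ δ := (Complex.abs_im_le_norm D).trans hDδ
    have hDre1 : |D.re| ≤ δ := (Complex.abs_re_le_norm D).trans hDδ
    have ht1H : |t1| ≤ H := (Complex.abs_re_le_norm τ).trans hτH
    have hdiv : |D.im / t2| ≤ δ * (1 / c) := by
      rw [abs_div, abs_of_pos ht2pos, div_eq_mul_one_div]
      apply mul_le_mul hDim1 _ (by positivity) hδ0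
      exact one_div_le_one_div_of_le hc hτ
    have hPR : ∀ l, (P * R) a.succ l = (x a 2 : ℂ) * R 0 l + (x a 3 : ℂ) * R 1 l + 0 * R 2 l := by
      intro l
      rw [Matrix.mul_apply, Fin.sum_univ_three]
      rfl
    have hEl : E a.succ l = (x a l : ℂ) -
        ((x a 2 : ℂ) * R 0 l + (x a 3 : ℂ) * R 1 l + 0 * R 2 l) := by
      change (x a l : ℂ) - (P * R) a.succ l = _
      rw [hPR l]
    have hKε : δ * (1 / c) ≤ ε := by
      rw [hε, hK]
      have h1 : 0 ≤ δ * (1 / c) := by positivity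
      nlinarith [mul_nonneg h1 (sub_nonneg.2 hH), mul_nonneg hH0 hδ0]
    rw [hEl]
    fin_cases l
    · -- the coordinate `g₀₀`
      have h1 : ((x a 0 : ℂ) - ((x a 2 : ℂ) * R 0 0 + (x a 3 : ℂ) * R 1 0 + 0 * R 2 0)) =
          ((-(D.im / t2) : ℝ) : ℂ) := by
        change ((g (i a) 0 0 : ℂ) - ((g (i a) 1 0 : ℂ) * (α₁ : ℂ) + (g (i a) 1 1 : ℂ) * (α₂ : ℂ)
          + 0 * R 2 0)) = _
        rw [zero_mul, add_zero]
        have h2 : ((g (i a) 0 0 : ℝ) - ((g (i a) 1 0 : ℝ) * α₁ + (g (i a) 1 1 : ℝ) * α₂)) =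
            -(D.im / t2) := by
          rw [hDim, hα₁, hα₂]
          field_simp
          ring
        rw [← h2]
        push_cast
        rfl
      change ‖((x a 0 : ℂ) - ((x a 2 : ℂ) * R 0 0 + (x a 3 : ℂ) * R 1 0 + 0 * R 2 0))‖ ≤ ε
      rw [h1, Complex.norm_real, Real.norm_eq_abs, abs_neg]
      exact hdiv.trans hKε
    · have h1 : ((x a 1 : ℂ) - ((x a 2 : ℂ) * R 0 1 + (x a 3 : ℂ) * R 1 1 + 0 * R 2 1)) =
          ((t1 * (D.im / t2) - D.re : ℝ) : ℂ) := by
        change ((g (i a) 0 1 : ℂ) - ((g (i a) 1 0 : ℂ) * (β₁ : ℂ) + (g (i a) 1 1 : ℂ) * (β₂ : ℂ)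
          + 0 * R 2 1)) = _
        rw [zero_mul, add_zero]
        have h2 : ((g (i a) 0 1 : ℝ) - ((g (i a) 1 0 : ℝ) * β₁ + (g (i a) 1 1 : ℝ) * β₂)) =
            t1 * (D.im / t2) - D.re := by
          rw [hDim, hDre, hβ₁, hβ₂, hα₁, hα₂]
          field_simp
          ring
        rw [← h2]
        push_cast
        rfl
      change ‖((x a 1 : ℂ) - ((x a 2 : ℂ) * R 0 1 + (x a 3 : ℂ) * R 1 1 + 0 * R 2 1))‖ ≤ ε
      rw [h1, Complex.norm_real, Real.norm_eq_abs]
      calc |t1 * (D.im / t2) - D.re| ≤ |t1 * (D.im / t2)| + |D.re| := abs_sub _ _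
        _ ≤ H * (δ * (1 / c)) + δ := by
            rw [abs_mul]
            exact add_le_add (mul_le_mul ht1H hdiv (abs_nonneg _) hH0) hDre1
        _ ≤ ε := by
            rw [hε, hK]
            nlinarith [mul_nonneg (sub_nonneg.2 hH) hδ0]
    · have h1 : ((x a 2 : ℂ) - ((x a 2 : ℂ) * R 0 2 + (x a 3 : ℂ) * R 1 2 + 0 * R 2 2)) = 0 := by
        change ((x a 2 : ℂ) - ((x a 2 : ℂ) * 1 + (x a 3 : ℂ) * 0 + 0 * R 2 2)) = 0
        ring
      change ‖((x a 2 : ℂ) - ((x a 2 : ℂ) * R 0 2 + (x a 3 : ℂ) * R 1 2 + 0 * R 2 2))‖ ≤ ε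
      rw [h1, norm_zero]
      exact hε0
    · have h1 : ((x a 3 : ℂ) - ((x a 2 : ℂ) * R 0 3 + (x a 3 : ℂ) * R 1 3 + 0 * R 2 3)) = 0 := by
        change ((x a 3 : ℂ) - ((x a 2 : ℂ) * 0 + (x a 3 : ℂ) * 1 + 0 * R 2 3)) = 0
        ring
      change ‖((x a 3 : ℂ) - ((x a 2 : ℂ) * R 0 3 + (x a 3 : ℂ) * R 1 3 + 0 * R 2 3))‖ ≤ ε
      rw [h1, norm_zero]
      exact hε0
  have hE : ∀ a l, ‖E a l‖ ≤ ε := by
    intro a l
    refine Fin.cases ?_ (fun a => hEs a l) a
    rw [hE0 l, norm_zero]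
    exact hε0
  have hA : ∀ a l, ‖(A.map (Int.cast : ℤ → ℂ)) a l‖ ≤ H := by
    intro a l
    change ‖((A a l : ℤ) : ℂ)‖ ≤ H
    rw [Complex.norm_intCast]
    revert l
    refine Fin.cases (fun l => ?_) (fun a l => ?_) a
    · change |(((Pi.single k 1 : Fin 4 → ℤ) l : ℤ) : ℝ)| ≤ H
      rw [Pi.single_apply]
      split_ifs
      · simpa using hH
      · simpa using hH0
    · change |((x a l : ℤ) : ℝ)| ≤ H
      fin_cases l
      · exact hgH _ (hiS a) 0 0
      · exact hgH _ (hiS a) 0 1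
      · exact hgH _ (hiS a) 1 0
      · exact hgH _ (hiS a) 1 1
  have hPR : ∀ a l, ‖(P * R) a l‖ ≤ 2 * H := by
    intro a l
    have h1 : (P * R) a l = (A.map (Int.cast : ℤ → ℂ)) a l - E a l := by
      rw [← hPRE, Matrix.add_apply]
      ring
    rw [h1]
    calc ‖(A.map (Int.cast : ℤ → ℂ)) a l - E a l‖ ≤
        ‖(A.map (Int.cast : ℤ → ℂ)) a l‖ + ‖E a l‖ := norm_sub_le _ _
      _ ≤ H + 1 := add_le_add (hA a l) ((hE a l).trans hε1)
      _ ≤ 2 * H := by linarith
  have hfin := det_low (by norm_num : 3 ≤ 4) P R E (by linarith : (1 : ℝ) ≤ 2 * H) hε0 hε1 hPR hE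
  rw [hA'] at hfin
  have hfac : ((4 : ℕ).factorial : ℝ) = 24 := by norm_num [Nat.factorial]
  rw [hfac] at hfin
  have hlast : (2 : ℝ) ^ 4 * 24 * (2 * H) ^ 4 * ε ^ (4 - 3) = 6144 * K * H ^ 5 * δ := by
    rw [hε]
    norm_num
    ring
  rw [hlast] at hfin
  linarith

end Pool.Agent.LGO.PW
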