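import Mathlib

/-!
# LGO/PW: zeros of functions with a doubling inequality

`f` is holomorphic on the disc of radius `3` about `w`, `|f| ≤ C c` there, and `|f| ≥ c / C` at some
point `s₀` of the closed disc of radius `1`.

* `zeros`: `f = c U ∏ (s - ζ)` on the disc of radius `2`, with at most `p = p(C)` factors, and
  `1 / C' ≤ |U|` on the closed disc of radius `1`, `|U| ≤ C'` on the disc of radius `2`.
  Proof (`w = 0`).  The zeros in the closed disc of radius `2` are finitely many, with multiplicity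
  `N` in total, and `f = g ∏ (s - ζ)` with `g` holomorphic on the disc of radius `3` and without zeros
  in the closed disc of radius `2` (divide out the zeros one after the other; `N` is bounded by the
  following estimate, which is valid for every finite set of zeros divided out).
  On `|s| = r`, `r < 3` close to `3` (`r = 5 / 2` is enough): `∏ |s - ζ| ≥ ...`; use
  `F(s) = f(s) ∏ (r² - \bar ζ s) / (r (s - ζ))`, `|F| = |f| ≤ C c` on `|s| = r`, so `|F(s₀)| ≤ C c` and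
  `|(r² - \bar ζ s₀) / (r (s₀ - ζ))| ≥ (r² + 2) / (3 r) = 1.1` for `|ζ| ≤ 2`, `|s₀| ≤ 1`, `r = 5/2`:
  `(1.1) ^ N ≤ C²`.  So `U = g / c` satisfies `|U| ≤ C 2 ^ N` on `|s| ≤ 5 / 2` by the maximum principle
  (`|s - ζ| ≥ 1 / 2` on `|s| = 5/2`) and `|U(s₀)| ≥ C⁻¹ 3 ^ (-N)`.  `U` has no zero on the disc of radius
  `2` (closed), so `U = exp h` there, `Re h ≤ A`, `Re h(s₀) ≥ -A`, and Borel-Caratheodory or Harnack
  (`Complex.borelCaratheodory`..., or the Schwarz lemma for `(A + 1 - h)`) gives `Re h ≥ -A'` on `|s| ≤ 1`.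
* `zeros_card`: at most `p` zeros in the closed disc of radius `1`.
* `zeros_lip`: the unit `U` is Lipschitz (Cauchy estimate).
* `zeros_near`: `|f(s)|` small implies that `s` is close to one of the `p` points.
-/

namespace Pool.Agent.LGO.PW

open Metric

/-- factorisation: `c U ∏ (s - ζ)` -/
structure Fac (C' : ℝ) (p : ℕ) (w : ℂ) (f : ℂ → ℂ) (c : ℝ) (U : ℂ → ℂ) (Z : List ℂ) : Prop where
  len : Z.length ≤ p
  an : DifferentiableOn ℂ U (ball w 2)
  eq : ∀ s ∈ ball w 2, f s = c * U s * (Z.map (fun ζ => s - ζ)).prod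
  upper : ∀ s ∈ ball w 2, ‖U s‖ ≤ C'
  lower : ∀ s ∈ closedBall w 1, 1 ≤ C' * ‖U s‖
  lip : ∀ s ∈ closedBall w 1, ∀ t ∈ closedBall w 1, ‖U s / U t - 1‖ ≤ C' * ‖s - t‖
  mem : ∀ ζ ∈ Z, ‖ζ - w‖ ≤ 2

private theorem Zeros_harnack {H : ℂ → ℂ} (hd : DifferentiableOn ℂ H (ball 0 2))
    (hp : ∀ s ∈ ball (0 : ℂ) 2, 0 < (H s).re) {s : ℂ} (hs : ‖s‖ ≤ 1) :
    (H s).re ≤ 3 * (H 0).re ∧ (H 0).re ≤ 3 * (H s).re := by
  have h0 : (0 : ℂ) ∈ ball (0 : ℂ) 2 := by simp
  have hs2 : s ∈ ball (0 : ℂ) 2 := by rw [mem_ball_zero_iff]; linarith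
  have hden : ∀ z ∈ ball (0 : ℂ) 2, H z + (starRingEnd ℂ) (H 0) ≠ 0 := by
    intro z hz h
    have h1 := congrArg Complex.re h
    simp at h1
    have h2 := hp z hz
    have h3 := hp 0 h0
    linarith
  set φ : ℂ → ℂ := fun z => (H z - H 0) / (H z + (starRingEnd ℂ) (H 0)) with hφ
  have hφd : DifferentiableOn ℂ φ (ball 0 2) :=
    DifferentiableOn.div (hd.sub_const _) (hd.add_const _) hden
  have hφ0 : φ 0 = 0 := by simp [hφ]
  have hle : ∀ z ∈ ball (0 : ℂ) 2, ‖φ z‖ ≤ 1 := by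
    intro z hz
    rw [hφ]
    simp only
    rw [norm_div, div_le_one (norm_pos_iff.2 (hden z hz)),
      ← sq_le_sq₀ (norm_nonneg _) (norm_nonneg _), ← Complex.normSq_eq_norm_sq,
      ← Complex.normSq_eq_norm_sq, Complex.normSq_apply, Complex.normSq_apply]
    simp only [Complex.sub_re, Complex.sub_im, Complex.add_re, Complex.add_im, Complex.conj_re,
      Complex.conj_im]
    nlinarith [mul_pos (hp z hz) (hp 0 h0)]
  have hmaps : Set.MapsTo φ (ball 0 2) (closedBall (φ 0) 1) := by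
    intro z hz
    rw [hφ0, mem_closedBall_zero_iff]
    exact hle z hz
  have key := Complex.dist_le_div_mul_dist_of_mapsTo_ball hφd hmaps hs2
  rw [hφ0, dist_zero_right, dist_zero_right] at key
  have h2 : ‖φ s‖ ≤ 1 / 2 := by linarith
  rw [hφ] at h2
  simp only at h2
  rw [norm_div, div_le_iff₀ (norm_pos_iff.2 (hden s hs2))] at h2
  have h3 : ‖H s - H 0‖ ^ 2 ≤ (1 / 2 * ‖H s + (starRingEnd ℂ) (H 0)‖) ^ 2 :=
    pow_le_pow_left₀ (norm_nonneg _) h2 2
  rw [mul_pow, ← Complex.normSq_eq_norm_sq, ← Complex.normSq_eq_norm_sq, Complex.normSq_apply,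
    Complex.normSq_apply] at h3
  simp only [Complex.sub_re, Complex.sub_im, Complex.add_re, Complex.add_im, Complex.conj_re,
    Complex.conj_im] at h3
  have hx := hp s hs2
  have hx0 := hp 0 h0
  have h4 : ((H s).re - (H 0).re) ^ 2 ≤ (((H s).re + (H 0).re) / 2) ^ 2 := by
    nlinarith [sq_nonneg ((H s).im - (H 0).im)]
  have h5 := abs_le_of_sq_le_sq h4 (by linarith)
  rw [abs_le] at h5
  constructor <;> linarith [h5.1, h5.2]

private theorem Zeros_lower {U : ℂ → ℂ} {M m : ℝ} (hM : 0 < M)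
    (hd : DifferentiableOn ℂ U (ball 0 2)) (hne : ∀ s ∈ ball (0 : ℂ) 2, U s ≠ 0)
    (hle : ∀ s ∈ ball (0 : ℂ) 2, ‖U s‖ ≤ M) {s₀ : ℂ} (hs₀ : ‖s₀‖ ≤ 1) (hm : 0 < m)
    (hl : m ≤ ‖U s₀‖) {s : ℂ} (hs : ‖s‖ ≤ 1) :
    M * Real.exp (-(9 * (Real.log (M / m) + 1))) ≤ ‖U s‖ := by
  have h0 : (0 : ℂ) ∈ ball (0 : ℂ) 2 := by simp
  have hs2 : s ∈ ball (0 : ℂ) 2 := by rw [mem_ball_zero_iff]; linarith
  have hs02 : s₀ ∈ ball (0 : ℂ) 2 := by rw [mem_ball_zero_iff]; linarith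
  have hq : DifferentiableOn ℂ (fun z => deriv U z / U z) (ball 0 2) :=
    (hd.deriv isOpen_ball).div hd hne
  obtain ⟨L, hL0, hL⟩ := hq.isExactOn_ball.with_val_at 0 (Complex.log (U 0))
  have hconst : ∀ z ∈ ball (0 : ℂ) 2, U z = Complex.exp (L z) := by
    have hW : ∀ z ∈ ball (0 : ℂ) 2, HasDerivAt (fun z => U z * Complex.exp (-L z)) 0 z := by
      intro z hz
      have h1 : HasDerivAt U (deriv U z) z :=
        (hd.differentiableAt (isOpen_ball.mem_nhds hz)).hasDerivAt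
      have h2 := (hL z hz).neg.cexp
      have h3 := h1.mul h2
      refine h3.congr_deriv ?_
      have := hne z hz
      field_simp
      ring
    intro z hz
    have h1 := (convex_ball (0 : ℂ) 2).norm_image_sub_le_of_norm_hasDerivWithin_le
      (f := fun z => U z * Complex.exp (-L z)) (f' := fun _ => 0) (C := 0)
      (fun x hx => (hW x hx).hasDerivWithinAt) (fun x _ => by simp) h0 hz
    simp only [zero_mul] at h1
    have h2 := sub_eq_zero.1 (norm_le_zero_iff.1 h1)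
    have h3 : U 0 * Complex.exp (-L 0) = 1 := by
      rw [hL0, Complex.exp_neg, Complex.exp_log (hne 0 h0), mul_inv_cancel₀ (hne 0 h0)]
    rw [h3, Complex.exp_neg] at h2
    have h4 : Complex.exp (L z) ≠ 0 := Complex.exp_ne_zero _
    field_simp at h2
    exact h2
  have hnorm : ∀ z ∈ ball (0 : ℂ) 2, Real.log ‖U z‖ = (L z).re := by
    intro z hz
    rw [hconst z hz, Complex.norm_exp, Real.log_exp]
  set H : ℂ → ℂ := fun z => ((Real.log M + 1 : ℝ) : ℂ) - L z with hH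
  have hHre : ∀ z, (H z).re = Real.log M + 1 - (L z).re := by
    intro z
    simp [hH]
  have hHd : DifferentiableOn ℂ H (ball 0 2) := by
    apply DifferentiableOn.const_sub
    intro z hz
    exact (hL z hz).differentiableAt.differentiableWithinAt
  have hpos : ∀ z ∈ ball (0 : ℂ) 2, 0 < (H z).re := by
    intro z hz
    rw [hHre, ← hnorm z hz]
    have := Real.log_le_log (norm_pos_iff.2 (hne z hz)) (hle z hz)
    linarith
  have k1 := (Zeros_harnack hHd hpos hs).1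
  have k2 := (Zeros_harnack hHd hpos hs₀).2
  rw [hHre] at k1
  rw [hHre s₀, ← hnorm s₀ hs02] at k2
  have k3 : Real.log m ≤ Real.log ‖U s₀‖ := Real.log_le_log hm hl
  rw [Real.log_div hM.ne' hm.ne']
  have k4 : Real.log M - 9 * (Real.log M - Real.log m + 1) ≤ (L s).re := by
    have k5 : (H 0).re ≤ 3 * (Real.log M + 1 - Real.log m) := by linarith
    linarith
  calc M * Real.exp (-(9 * (Real.log M - Real.log m + 1)))
      = Real.exp (Real.log M - 9 * (Real.log M - Real.log m + 1)) := by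
        have e : Real.log M - 9 * (Real.log M - Real.log m + 1) =
            Real.log M + -(9 * (Real.log M - Real.log m + 1)) := by ring
        rw [e, Real.exp_add, Real.exp_log hM]
    _ ≤ Real.exp (L s).re := Real.exp_le_exp.2 k4
    _ = ‖U s‖ := by rw [hconst s hs2, Complex.norm_exp]

private theorem Zeros_prod_eq (Z : List ℂ) (a b : ℂ → ℂ) (h : ∀ ζ ∈ Z, ‖a ζ‖ = ‖b ζ‖) :
    ‖(Z.map a).prod‖ = ‖(Z.map b).prod‖ := by
  induction Z with
  | nil => simp
  | cons x Z ih =>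
    simp only [List.map_cons, List.prod_cons, norm_mul]
    rw [h x (by simp), ih (fun ζ hζ => h ζ (by simp [hζ]))]

private theorem Zeros_prod_le (Z : List ℂ) (a : ℂ → ℂ) (K : ℝ) (hK : 0 ≤ K)
    (h : ∀ ζ ∈ Z, ‖a ζ‖ ≤ K) : ‖(Z.map a).prod‖ ≤ K ^ Z.length := by
  induction Z with
  | nil => simp
  | cons x Z ih =>
    simp only [List.map_cons, List.prod_cons, norm_mul, List.length_cons]
    rw [pow_succ, mul_comm (K ^ Z.length)]
    exact mul_le_mul (h x (by simp)) (ih (fun ζ hζ => h ζ (by simp [hζ]))) (norm_nonneg _) hK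

private theorem Zeros_prod_ratio (Z : List ℂ) (a b : ℂ → ℂ) (K : ℝ) (hK : 0 ≤ K)
    (h : ∀ ζ ∈ Z, K * ‖a ζ‖ ≤ ‖b ζ‖) : K ^ Z.length * ‖(Z.map a).prod‖ ≤ ‖(Z.map b).prod‖ := by
  induction Z with
  | nil => simp
  | cons x Z ih =>
    simp only [List.map_cons, List.prod_cons, norm_mul, List.length_cons]
    have h1 := h x (by simp)
    have h2 := ih (fun ζ hζ => h ζ (by simp [hζ]))
    calc K ^ (Z.length + 1) * (‖a x‖ * ‖(Z.map a).prod‖)
        = (K * ‖a x‖) * (K ^ Z.length * ‖(Z.map a).prod‖) := by ring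
      _ ≤ ‖b x‖ * ‖(Z.map b).prod‖ := mul_le_mul h1 h2 (by positivity) (norm_nonneg _)

private theorem Zeros_max {F : ℂ → ℂ} (hd : DifferentiableOn ℂ F (ball 0 3)) {B : ℝ}
    (h : ∀ s : ℂ, ‖s‖ = 5 / 2 → ‖F s‖ ≤ B) {s : ℂ} (hs : ‖s‖ ≤ 5 / 2) : ‖F s‖ ≤ B := by
  have h1 : closedBall (0 : ℂ) (5 / 2) ⊆ ball 0 3 := closedBall_subset_ball (by norm_num)
  apply Complex.norm_le_of_forall_mem_frontier_norm_le (U := ball (0 : ℂ) (5 / 2))
    isBounded_ball (hd.diffContOnCl_ball h1)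
  · intro z hz
    rw [frontier_ball _ (by norm_num), mem_sphere_zero_iff_norm] at hz
    exact h z hz
  · rw [closure_ball _ (by norm_num), mem_closedBall_zero_iff]
    exact hs

/-- `f = g ∏ (s - ζ)` with `n` factors. -/
private def Zeros_Dv (f : ℂ → ℂ) (n : ℕ) : Prop :=
  ∃ (Z : List ℂ) (g : ℂ → ℂ), Z.length = n ∧ (∀ ζ ∈ Z, ‖ζ‖ ≤ 2) ∧
    DifferentiableOn ℂ g (ball 0 3) ∧
    ∀ s ∈ ball (0 : ℂ) 3, f s = g s * (Z.map (fun ζ => s - ζ)).prod

private theorem Zeros_bl_eq {s ζ : ℂ} (hs : ‖s‖ = 5 / 2) :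
    ‖(25 / 4 - (starRingEnd ℂ) ζ * s) / (5 / 2)‖ = ‖s - ζ‖ := by
  have h1 : (25 / 4 : ℂ) = s * (starRingEnd ℂ) s := by
    rw [Complex.mul_conj, Complex.normSq_eq_norm_sq, hs]
    norm_num
  have h2 : (25 / 4 - (starRingEnd ℂ) ζ * s) = s * (starRingEnd ℂ) (s - ζ) := by
    rw [h1, map_sub]; ring
  rw [h2, norm_div, norm_mul, Complex.norm_conj, hs]
  norm_num

private theorem Zeros_bl_ge {s ζ : ℂ} (hs : ‖s‖ ≤ 1) (hζ : ‖ζ‖ ≤ 2) :
    26 / 25 * ‖s - ζ‖ ≤ ‖(25 / 4 - (starRingEnd ℂ) ζ * s) / (5 / 2)‖ := by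
  rw [norm_div]
  have e : ‖(5 / 2 : ℂ)‖ = 5 / 2 := by norm_num
  rw [e, le_div_iff₀ (by norm_num)]
  apply le_of_sq_le_sq _ (norm_nonneg _)
  have h1 : ‖s‖ ^ 2 ≤ 1 := by nlinarith [norm_nonneg s]
  have h2 : ‖ζ‖ ^ 2 ≤ 4 := by nlinarith [norm_nonneg ζ]
  rw [mul_pow, mul_pow]
  rw [← Complex.normSq_eq_norm_sq] at h1 h2 ⊢
  rw [← Complex.normSq_eq_norm_sq]
  rw [Complex.normSq_apply] at h1 h2 ⊢
  rw [Complex.normSq_apply]
  simp only [Complex.sub_re, Complex.sub_im, Complex.mul_re, Complex.mul_im, Complex.conj_re,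
    Complex.conj_im]
  have e1 : ((25 / 4 : ℂ)).re = 25 / 4 := by norm_num
  have e2 : ((25 / 4 : ℂ)).im = 0 := by norm_num
  rw [e1, e2]
  set x := s.re
  set y := s.im
  set a := ζ.re
  set b := ζ.im
  have h3 : -2 ≤ a * x + b * y := by nlinarith [sq_nonneg (2 * x + a), sq_nonneg (2 * y + b)]
  have h4 : 0 ≤ (4 - (a * a + b * b)) * (1 - (x * x + y * y)) :=
    mul_nonneg (by linarith) (by linarith)
  nlinarith [h3, h4, h1, h2]

private theorem Zeros_bound {f : ℂ → ℂ} {C c : ℝ} (hc : 0 < c) (hC : 0 < C)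
    (hf : ∀ s ∈ ball (0 : ℂ) 3, ‖f s‖ ≤ C * c) {s₀ : ℂ} (hs₀ : ‖s₀‖ ≤ 1)
    (h0 : c ≤ C * ‖f s₀‖) {n : ℕ} (h : Zeros_Dv f n) : (26 / 25 : ℝ) ^ n ≤ C ^ 2 := by
  obtain ⟨Z, g, hn, hZ, hg, heq⟩ := h
  set F : ℂ → ℂ := fun s => g s * (Z.map (fun ζ => (25 / 4 - (starRingEnd ℂ) ζ * s) / (5 / 2))).prod
    with hF
  have hprod : DifferentiableOn ℂ
      (fun s => (Z.map (fun ζ => (25 / 4 - (starRingEnd ℂ) ζ * s) / (5 / 2))).prod)
      (ball 0 3) := by
    clear hn hZ heq hF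
    induction Z with
    | nil => simp
    | cons x Z ih =>
      simp only [List.map_cons, List.prod_cons]
      exact DifferentiableOn.mul (by fun_prop) ih
  have hFd : DifferentiableOn ℂ F (ball 0 3) := hg.mul hprod
  have hs3 : s₀ ∈ ball (0 : ℂ) 3 := by rw [mem_ball_zero_iff]; linarith
  have h1 : ‖F s₀‖ ≤ C * c := by
    apply Zeros_max hFd _ (by linarith)
    intro s hs
    have hs3' : s ∈ ball (0 : ℂ) 3 := by rw [mem_ball_zero_iff, hs]; norm_num
    have e : ‖F s‖ = ‖f s‖ := by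
      rw [heq s hs3', hF]
      simp only
      rw [norm_mul, norm_mul, Zeros_prod_eq Z _ (fun ζ => s - ζ) (fun ζ _ => Zeros_bl_eq hs)]
    rw [e]
    exact hf s hs3'
  have h2 : (26 / 25 : ℝ) ^ n * ‖f s₀‖ ≤ ‖F s₀‖ := by
    rw [heq s₀ hs3, hF]
    simp only
    rw [norm_mul, norm_mul]
    have h3 := Zeros_prod_ratio Z (fun ζ => s₀ - ζ)
      (fun ζ => (25 / 4 - (starRingEnd ℂ) ζ * s₀) / (5 / 2)) (26 / 25) (by norm_num)
      (fun ζ hζ => Zeros_bl_ge hs₀ (hZ ζ hζ))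
    rw [hn] at h3
    calc (26 / 25 : ℝ) ^ n * (‖g s₀‖ * ‖(Z.map (fun ζ => s₀ - ζ)).prod‖)
        = ‖g s₀‖ * ((26 / 25 : ℝ) ^ n * ‖(Z.map (fun ζ => s₀ - ζ)).prod‖) := by ring
      _ ≤ _ := mul_le_mul_of_nonneg_left h3 (norm_nonneg _)
  have h4 : (26 / 25 : ℝ) ^ n * c ≤ C ^ 2 * c := by
    calc (26 / 25 : ℝ) ^ n * c ≤ (26 / 25 : ℝ) ^ n * (C * ‖f s₀‖) :=
          mul_le_mul_of_nonneg_left h0 (by positivity)
      _ = C * ((26 / 25 : ℝ) ^ n * ‖f s₀‖) := by ring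
      _ ≤ C * (C * c) := mul_le_mul_of_nonneg_left (le_trans h2 h1) hC.le
      _ = C ^ 2 * c := by ring
  exact le_of_mul_le_mul_right h4 hc

private theorem Zeros_div {f : ℂ → ℂ} {n : ℕ} {Z : List ℂ} {g : ℂ → ℂ} (hn : Z.length = n)
    (hZ : ∀ ζ ∈ Z, ‖ζ‖ ≤ 2) (hg : DifferentiableOn ℂ g (ball 0 3))
    (heq : ∀ s ∈ ball (0 : ℂ) 3, f s = g s * (Z.map (fun ζ => s - ζ)).prod)
    (hmax : ¬ Zeros_Dv f (n + 1)) : ∀ s : ℂ, ‖s‖ ≤ 2 → g s ≠ 0 := by
  intro ζ hζ h
  apply hmax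
  refine ⟨ζ :: Z, dslope g ζ, by simp [hn], ?_, ?_, ?_⟩
  · intro z hz
    rcases List.mem_cons.1 hz with rfl | hz
    · exact hζ
    · exact hZ z hz
  · have : ball (0 : ℂ) 3 ∈ nhds ζ := isOpen_ball.mem_nhds (by rw [mem_ball_zero_iff]; linarith)
    exact (Complex.differentiableOn_dslope this).2 hg
  · intro s hs
    have h1 := sub_smul_dslope g ζ s
    rw [h, sub_zero, smul_eq_mul] at h1
    rw [heq s hs, ← h1, List.map_cons, List.prod_cons]
    ring

private theorem Zeros_zero (C : ℝ) (hC : 1 ≤ C) : ∃ (p : ℕ) (C' : ℝ), 1 ≤ C' ∧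
    ∀ (f : ℂ → ℂ) (c : ℝ), 0 < c →
    DifferentiableOn ℂ f (ball 0 3) → (∀ s ∈ ball (0 : ℂ) 3, ‖f s‖ ≤ C * c) →
    (∃ s ∈ closedBall (0 : ℂ) 1, c ≤ C * ‖f s‖) → ∃ U Z, Fac C' p 0 f c U Z := by
  obtain ⟨p, hp⟩ := pow_unbounded_of_one_lt (C ^ 2) (by norm_num : (1 : ℝ) < 26 / 25)
  have hCpos : 0 < C := by linarith
  set M : ℝ := C * 2 ^ p with hM
  set m : ℝ := 1 / (C * 3 ^ p) with hm
  have hMpos : 0 < M := by positivity
  have hmpos : 0 < m := by positivity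
  set lam : ℝ := M * Real.exp (-(9 * (Real.log (M / m) + 1))) with hlam
  have hlampos : 0 < lam := by positivity
  refine ⟨p, 1 + M + 1 / lam + 2 * M / lam, ?_, ?_⟩
  · have : 0 ≤ M + 1 / lam + 2 * M / lam := by positivity
    linarith
  intro f c hc hf hfle hs
  obtain ⟨s₀, hs₀, hs₀c⟩ := hs
  rw [mem_closedBall_zero_iff] at hs₀
  have hs3 : s₀ ∈ ball (0 : ℂ) 3 := by rw [mem_ball_zero_iff]; linarith
  have hlt : ∀ n, Zeros_Dv f n → n < p := by
    intro n hn
    have h1 := Zeros_bound hc hCpos hfle hs₀ hs₀c hn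
    by_contra hcon
    push Not at hcon
    have h2 : (26 / 25 : ℝ) ^ p ≤ (26 / 25 : ℝ) ^ n := pow_le_pow_right₀ (by norm_num) hcon
    linarith
  have h0 : Zeros_Dv f 0 := ⟨[], f, rfl, by simp, hf, by simp⟩
  obtain ⟨n, hn, hmax⟩ : ∃ n, Zeros_Dv f n ∧ ¬ Zeros_Dv f (n + 1) := by
    by_contra hcon
    push Not at hcon
    have hall : ∀ n, Zeros_Dv f n := fun n => by
      induction n with
      | zero => exact h0
      | succ n ih => exact hcon n ih
    exact absurd (hlt p (hall p)) (lt_irrefl p)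
  have hnp := hlt n hn
  obtain ⟨Z, g, hZn, hZ, hg, heq⟩ := hn
  have hgne := Zeros_div hZn hZ hg heq hmax
  have hgup : ∀ s : ℂ, ‖s‖ ≤ 5 / 2 → ‖g s‖ ≤ M * c := by
    intro s hs
    refine Zeros_max hg ?_ hs
    intro z hz
    have hz3 : z ∈ ball (0 : ℂ) 3 := by rw [mem_ball_zero_iff, hz]; norm_num
    have h1 := hfle z hz3
    rw [heq z hz3, norm_mul] at h1
    have h2 := Zeros_prod_ratio Z (fun _ => 1) (fun ζ => z - ζ) (1 / 2) (by norm_num) (by
      intro ζ hζ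
      have h3 := hZ ζ hζ
      have h4 : ‖z‖ - ‖ζ‖ ≤ ‖z - ζ‖ := norm_sub_norm_le z ζ
      rw [norm_one]
      linarith)
    have h5 : (Z.map (fun _ => (1 : ℂ))).prod = 1 := by simp
    rw [h5, norm_one, mul_one] at h2
    have h6 : (1 / 2 : ℝ) ^ p ≤ (1 / 2 : ℝ) ^ Z.length := by
      rw [hZn]
      exact pow_le_pow_of_le_one (by norm_num) (by norm_num) hnp.le
    have h7 : ‖g z‖ * (1 / 2 : ℝ) ^ p ≤ C * c :=
      le_trans (mul_le_mul_of_nonneg_left (le_trans h6 h2) (norm_nonneg _)) h1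
    have h8 : ‖g z‖ = (‖g z‖ * (1 / 2 : ℝ) ^ p) * 2 ^ p := by
      rw [mul_assoc, ← mul_pow]
      norm_num
    rw [h8, hM]
    calc _ ≤ (C * c) * 2 ^ p := mul_le_mul_of_nonneg_right h7 (by positivity)
      _ = C * 2 ^ p * c := by ring
  have hcC : (c : ℂ) ≠ 0 := by exact_mod_cast hc.ne'
  set U : ℂ → ℂ := fun s => g s / c with hU
  have hUn : ∀ s, ‖U s‖ = ‖g s‖ / c := by
    intro s
    rw [hU]
    simp only
    rw [norm_div, Complex.norm_real, Real.norm_of_nonneg hc.le]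
  have hUd : DifferentiableOn ℂ U (ball 0 3) := hg.div_const _
  have hUd2 : DifferentiableOn ℂ U (ball 0 2) := hUd.mono (ball_subset_ball (by norm_num))
  have hUup : ∀ s : ℂ, ‖s‖ ≤ 5 / 2 → ‖U s‖ ≤ M := by
    intro s hs
    rw [hUn, div_le_iff₀ hc]
    exact hgup s hs
  have hUlow0 : m ≤ ‖U s₀‖ := by
    have h1 := Zeros_prod_le Z (fun ζ => s₀ - ζ) 3 (by norm_num) (by
      intro ζ hζ
      have h3 := hZ ζ hζ
      have h4 := norm_sub_le s₀ ζ
      linarith)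
    have h2 : ‖f s₀‖ ≤ ‖g s₀‖ * 3 ^ p := by
      rw [heq s₀ hs3, norm_mul]
      apply mul_le_mul_of_nonneg_left _ (norm_nonneg _)
      refine le_trans h1 ?_
      rw [hZn]
      exact pow_le_pow_right₀ (by norm_num) hnp.le
    rw [hUn, hm, div_le_div_iff₀ (by positivity) hc]
    calc 1 * c ≤ C * ‖f s₀‖ := by rw [one_mul]; exact hs₀c
      _ ≤ C * (‖g s₀‖ * 3 ^ p) := mul_le_mul_of_nonneg_left h2 hCpos.le
      _ = ‖g s₀‖ * (C * 3 ^ p) := by ring
  have hUne : ∀ s ∈ ball (0 : ℂ) 2, U s ≠ 0 := by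
    intro s hs
    rw [mem_ball_zero_iff] at hs
    exact div_ne_zero (hgne s hs.le) hcC
  have hUlow : ∀ s : ℂ, ‖s‖ ≤ 1 → lam ≤ ‖U s‖ := by
    intro s hs
    exact Zeros_lower hMpos hUd2 hUne (fun z hz => hUup z (by
      rw [mem_ball_zero_iff] at hz; linarith)) hs₀ hmpos hUlow0 hs
  refine ⟨U, Z, ⟨by omega, hUd2, ?_, ?_, ?_, ?_, ?_⟩⟩
  · intro s hs
    have hs3' : s ∈ ball (0 : ℂ) 3 := ball_subset_ball (by norm_num) hs
    rw [heq s hs3', hU]
    simp only
    rw [mul_div_cancel₀ _ hcC]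
  · intro s hs
    rw [mem_ball_zero_iff] at hs
    have h1 := hUup s (by linarith)
    have h2 : 0 ≤ 1 / lam + 2 * M / lam := by positivity
    linarith
  · intro s hs
    rw [mem_closedBall_zero_iff] at hs
    have h1 := hUlow s hs
    have h2 : 1 / lam ≤ 1 + M + 1 / lam + 2 * M / lam := by
      have : 0 ≤ 1 + M + 2 * M / lam := by positivity
      linarith
    calc (1 : ℝ) = 1 / lam * lam := by field_simp
      _ ≤ 1 / lam * ‖U s‖ := mul_le_mul_of_nonneg_left h1 (by positivity)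
      _ ≤ _ := mul_le_mul_of_nonneg_right h2 (norm_nonneg _)
  · intro s hs t ht
    have hder : ∀ z ∈ closedBall (0 : ℂ) 1, ‖deriv U z‖ ≤ 2 * M := by
      intro z hz
      rw [mem_closedBall_zero_iff] at hz
      have hsub : closedBall z (1 / 2) ⊆ ball (0 : ℂ) 2 := by
        intro x hx
        rw [mem_ball_zero_iff]
        rw [mem_closedBall, dist_eq_norm] at hx
        have := norm_sub_norm_le x z
        linarith
      have h1 := Complex.norm_deriv_le_of_forall_mem_sphere_norm_le (c := z) (R := 1 / 2) (C := M)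
        (f := U) (by norm_num) (hUd2.diffContOnCl_ball hsub) (by
          intro x hx
          have hx2 := hsub (sphere_subset_closedBall hx)
          rw [mem_ball_zero_iff] at hx2
          exact hUup x (by linarith))
      linarith
    have hdiff : ‖U s - U t‖ ≤ 2 * M * ‖s - t‖ := by
      refine (convex_closedBall (0 : ℂ) 1).norm_image_sub_le_of_norm_deriv_le ?_ hder ht hs
      intro x hx
      exact hUd2.differentiableAt (isOpen_ball.mem_nhds
        (closedBall_subset_ball (by norm_num) hx))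
    have ht' := ht
    rw [mem_closedBall_zero_iff] at ht'
    have hlt' := hUlow t ht'
    have htne : U t ≠ 0 := hUne t (closedBall_subset_ball (by norm_num) ht)
    have e : U s / U t - 1 = (U s - U t) / U t := by field_simp
    rw [e, norm_div, div_le_iff₀ (norm_pos_iff.2 htne)]
    calc ‖U s - U t‖ ≤ 2 * M * ‖s - t‖ := hdiff
      _ = (2 * M / lam * ‖s - t‖) * lam := by field_simp
      _ ≤ (2 * M / lam * ‖s - t‖) * ‖U t‖ := mul_le_mul_of_nonneg_left hlt' (by positivity)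
      _ ≤ ((1 + M + 1 / lam + 2 * M / lam) * ‖s - t‖) * ‖U t‖ := by
        apply mul_le_mul_of_nonneg_right _ (norm_nonneg _)
        apply mul_le_mul_of_nonneg_right _ (norm_nonneg _)
        have : 0 ≤ 1 + M + 1 / lam := by positivity
        linarith
  · intro ζ hζ
    rw [sub_zero]
    exact hZ ζ hζ

theorem zeros (C : ℝ) : ∃ (p : ℕ) (C' : ℝ), 1 ≤ C' ∧ ∀ (w : ℂ) (f : ℂ → ℂ) (c : ℝ), 0 < c →
    DifferentiableOn ℂ f (ball w 3) → (∀ s ∈ ball w 3, ‖f s‖ ≤ C * c) →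
    (∃ s ∈ closedBall w 1, c ≤ C * ‖f s‖) → ∃ U Z, Fac C' p w f c U Z := by
  by_cases hC : 1 ≤ C
  · obtain ⟨p, C', hC', hmain⟩ := Zeros_zero C hC
    refine ⟨p, C', hC', ?_⟩
    intro w f c hc hf hle hs
    have hmem : ∀ (r : ℝ) (s : ℂ), s ∈ ball (0 : ℂ) r → s + w ∈ ball w r := by
      intro r s hs
      rw [mem_ball_zero_iff] at hs
      rw [mem_ball, dist_eq_norm]
      simpa using hs
    have hmem' : ∀ (r : ℝ) (s : ℂ), s ∈ ball w r → s - w ∈ ball (0 : ℂ) r := by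
      intro r s hs
      rw [mem_ball, dist_eq_norm] at hs
      rw [mem_ball_zero_iff]
      exact hs
    have hmemc' : ∀ (r : ℝ) (s : ℂ), s ∈ closedBall w r → s - w ∈ closedBall (0 : ℂ) r := by
      intro r s hs
      rw [mem_closedBall, dist_eq_norm] at hs
      rw [mem_closedBall_zero_iff]
      exact hs
    obtain ⟨U, Z, h⟩ := hmain (fun s => f (s + w)) c hc (by
      apply hf.comp (by fun_prop)
      intro s hs
      exact hmem 3 s hs) (fun s hs => hle _ (hmem 3 s hs)) (by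
      obtain ⟨s, hs1, hs2⟩ := hs
      refine ⟨s - w, hmemc' 1 s hs1, ?_⟩
      simpa using hs2)
    refine ⟨fun s => U (s - w), Z.map (fun ζ => ζ + w), ⟨?_, ?_, ?_, ?_, ?_, ?_, ?_⟩⟩
    · rw [List.length_map]; exact h.len
    · apply h.an.comp (by fun_prop)
      intro s hs
      exact hmem' 2 s hs
    · intro s hs
      have h1 := h.eq (s - w) (hmem' 2 s hs)
      simp only [sub_add_cancel] at h1
      rw [h1, List.map_map]
      congr 2
      apply List.map_congr_left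
      intro ζ _
      simp only [Function.comp]
      ring
    · intro s hs
      exact h.upper _ (hmem' 2 s hs)
    · intro s hs
      exact h.lower _ (hmemc' 1 s hs)
    · intro s hs t ht
      have h1 := h.lip _ (hmemc' 1 s hs) _ (hmemc' 1 t ht)
      have e : s - w - (t - w) = s - t := by ring
      rw [e] at h1
      exact h1
    · intro ζ hζ
      obtain ⟨z, hz, rfl⟩ := List.mem_map.1 hζ
      have := h.mem z hz
      simpa using this
  · push Not at hC
    refine ⟨0, 1, le_rfl, ?_⟩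
    intro w f c hc hf hle hs
    exfalso
    obtain ⟨s, hs1, hs2⟩ := hs
    have h1 := hle s (closedBall_subset_ball (by norm_num) hs1)
    have h2 := norm_nonneg (f s)
    rcases le_or_gt C 0 with h3 | h3
    · nlinarith [mul_nonpos_of_nonpos_of_nonneg h3 h2]
    · have h4 : C * ‖f s‖ ≤ C * (C * c) := mul_le_mul_of_nonneg_left h1 h3.le
      have h5 : C * C * c < 1 * c := by
        apply mul_lt_mul_of_pos_right _ hc
        nlinarith
      nlinarith

/-- the number of zeros -/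
theorem Fac.card {C' : ℝ} {p : ℕ} {w : ℂ} {f : ℂ → ℂ} {c : ℝ} {U : ℂ → ℂ} {Z : List ℂ}
    (h : Fac C' p w f c U Z) (hc : 0 < c) (S : Finset ℂ)
    (hS : ∀ s ∈ S, s ∈ closedBall w 1 ∧ f s = 0) : S.card ≤ p := by
  have hsub : S ⊆ Z.toFinset := by
    intro s hs
    obtain ⟨h1, h2⟩ := hS s hs
    have h3 := h.eq s (closedBall_subset_ball (by norm_num) h1)
    rw [h2] at h3
    have h4 := h.lower s h1
    have hU : U s ≠ 0 := by
      intro h5
      rw [h5, norm_zero, mul_zero] at h4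
      linarith
    have hcC : (c : ℂ) ≠ 0 := by exact_mod_cast hc.ne'
    have h6 : (Z.map (fun ζ => s - ζ)).prod = 0 := by
      rcases mul_eq_zero.1 h3.symm with h7 | h7
      · exact absurd h7 (mul_ne_zero hcC hU)
      · exact h7
    have h8 := List.prod_eq_zero_iff.1 h6
    obtain ⟨ζ, hζ, h9⟩ := List.mem_map.1 h8
    have : s = ζ := sub_eq_zero.1 h9
    rw [this, List.mem_toFinset]
    exact hζ
  calc S.card ≤ Z.toFinset.card := Finset.card_le_card hsub
    _ ≤ Z.length := List.toFinset_card_le Z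
    _ ≤ p := h.len

/-- small values are taken near the zeros only -/
theorem Fac.near {C' : ℝ} {p : ℕ} {w : ℂ} {f : ℂ → ℂ} {c : ℝ} {U : ℂ → ℂ} {Z : List ℂ}
    (h : Fac C' p w f c U Z) (hC' : 1 ≤ C') (hc : 0 < c) {s : ℂ} (hs : s ∈ closedBall w 1) {δ : ℝ} (hδ : 0 < δ)
    (hf : C' * ‖f s‖ < c * δ ^ p) (hδ1 : δ ≤ 1) : ∃ ζ ∈ Z, ‖s - ζ‖ < δ := by
  by_contra hcon
  push Not at hcon
  have h1 := Zeros_prod_ratio Z (fun _ => 1) (fun ζ => s - ζ) δ hδ.le (by
    intro ζ hζ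
    rw [norm_one, mul_one]
    exact hcon ζ hζ)
  have h5 : (Z.map (fun _ => (1 : ℂ))).prod = 1 := by simp
  rw [h5, norm_one, mul_one] at h1
  have h2 : δ ^ p ≤ δ ^ Z.length := pow_le_pow_of_le_one hδ.le hδ1 h.len
  have h3 := h.eq s (closedBall_subset_ball (by norm_num) hs)
  have h4 := h.lower s hs
  have h6 : ‖f s‖ = c * ‖U s‖ * ‖(Z.map (fun ζ => s - ζ)).prod‖ := by
    rw [h3, norm_mul, norm_mul, Complex.norm_real, Real.norm_of_nonneg hc.le]
  rw [h6] at hf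
  have h7 : c * δ ^ p ≤ C' * (c * ‖U s‖ * ‖(Z.map (fun ζ => s - ζ)).prod‖) := by
    calc c * δ ^ p = c * 1 * δ ^ p := by ring
      _ ≤ c * (C' * ‖U s‖) * δ ^ p := by
        apply mul_le_mul_of_nonneg_right _ (by positivity)
        exact mul_le_mul_of_nonneg_left h4 hc.le
      _ ≤ c * (C' * ‖U s‖) * ‖(Z.map (fun ζ => s - ζ)).prod‖ := by
        apply mul_le_mul_of_nonneg_left (le_trans h2 h1)
        have : 0 ≤ C' := by linarith
        positivity
      _ = _ := by ring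
  linarith

end Pool.Agent.LGO.PW
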