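import Mathlib
import Pool.Agent.LGO.PW.Defs

/-!
# LGO/PW: norms of polynomials

* `nrm_ub`: `|G(x)| ≤ ‖G‖ B ^ d` if `|x a| ≤ B`, `B ≥ 1`, `deg G ≤ d`.
* `lb`: if the continuous functions `f a` on the compact set `K` satisfy no algebraic relation, then
  `‖G‖ ≤ C max_K |G(f)|` for all `G` of degree `≤ d`.  The space `MvPolynomial.restrictTotalDegree`
  is finite dimensional; `G ↦ G(f)` is an injective linear map to `C(K, ℂ)`, so it is bounded below
  (`LinearMap.exists_antilipschitzWith` or compactness of the unit sphere for the norm `nrm`); the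
  maximum over the compact set is attained.
* `exps`: `1, s, e ^ s` satisfy no algebraic relation on the disc of radius `1`; this is `lb` for them.
-/

namespace Pool.Agent.LGO.PW

open MvPolynomial Metric

theorem nrm_nonneg {m : ℕ} (G : MvPolynomial (Fin m) ℂ) : 0 ≤ nrm G :=
  Finset.sum_nonneg fun _ _ => norm_nonneg _

theorem nrm_pos {m : ℕ} {G : MvPolynomial (Fin m) ℂ} (h : G ≠ 0) : 0 < nrm G := by
  obtain ⟨k, hk⟩ := MvPolynomial.support_nonempty.mpr h
  exact Finset.sum_pos' (fun _ _ => norm_nonneg _)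
    ⟨k, hk, norm_pos_iff.mpr (MvPolynomial.mem_support_iff.mp hk)⟩

theorem coeff_le_nrm {m : ℕ} (G : MvPolynomial (Fin m) ℂ) (k : Fin m →₀ ℕ) : ‖G.coeff k‖ ≤ nrm G := by
  by_cases hk : k ∈ G.support
  · exact Finset.single_le_sum (f := fun k => ‖G.coeff k‖) (fun _ _ => norm_nonneg _) hk
  · rw [MvPolynomial.notMem_support_iff.mp hk, norm_zero]
    exact nrm_nonneg G

private theorem deg_le {m : ℕ} {G : MvPolynomial (Fin m) ℂ} {k : Fin m →₀ ℕ} (hk : k ∈ G.support) :
    ∑ i, k i ≤ G.totalDegree := by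
  have h := MvPolynomial.le_totalDegree hk
  rwa [Finsupp.sum_fintype _ _ (fun _ => rfl)] at h

theorem nrm_ub {m d : ℕ} {G : MvPolynomial (Fin m) ℂ} (hd : G.totalDegree ≤ d) {x : Fin m → ℂ} {B : ℝ}
    (hB : 1 ≤ B) (hx : ∀ a, ‖x a‖ ≤ B) : ‖eval x G‖ ≤ nrm G * B ^ d := by
  rw [MvPolynomial.eval_eq', nrm, Finset.sum_mul]
  refine (norm_sum_le _ _).trans (Finset.sum_le_sum fun k hk => ?_)
  rw [norm_mul, norm_prod]
  refine mul_le_mul_of_nonneg_left ?_ (norm_nonneg _)
  have h1 : ∏ i, ‖x i ^ k i‖ ≤ ∏ i, B ^ k i := by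
    refine Finset.prod_le_prod (fun _ _ => norm_nonneg _) fun i _ => ?_
    rw [norm_pow]
    exact pow_le_pow_left₀ (norm_nonneg _) (hx i) _
  refine h1.trans ?_
  rw [Finset.prod_pow_eq_pow_sum]
  exact pow_le_pow_right₀ hB ((deg_le hk).trans hd)

/-- the exponent with values `g` -/
private noncomputable def ex {m d : ℕ} (g : Fin m → Fin (d + 1)) : Fin m →₀ ℕ :=
  Finsupp.equivFunOnFinite.symm fun i => (g i : ℕ)

private theorem ex_apply {m d : ℕ} (g : Fin m → Fin (d + 1)) (i : Fin m) : ex g i = (g i : ℕ) := rfl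

private theorem ex_inj {m d : ℕ} : Function.Injective (ex : (Fin m → Fin (d + 1)) → Fin m →₀ ℕ) := by
  intro g h hgh
  funext i
  apply Fin.ext
  rw [← ex_apply, ← ex_apply, hgh]

private theorem mem_ex {m d : ℕ} {G : MvPolynomial (Fin m) ℂ} (hd : G.totalDegree ≤ d)
    {k : Fin m →₀ ℕ} (hk : k ∈ G.support) : ∃ g : Fin m → Fin (d + 1), ex g = k := by
  have h1 : ∀ i, k i ≤ d := fun i =>
    (Finset.single_le_sum (f := fun i => k i) (fun _ _ => Nat.zero_le _)
      (Finset.mem_univ i)).trans ((deg_le hk).trans hd)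
  refine ⟨fun i => ⟨k i, Nat.lt_succ_of_le (h1 i)⟩, ?_⟩
  ext i
  rfl

private theorem sum_ex {m d : ℕ} {G : MvPolynomial (Fin m) ℂ} (hd : G.totalDegree ≤ d)
    {M : Type} [AddCommMonoid M] (F : (Fin m →₀ ℕ) → M) (hF : ∀ k, k ∉ G.support → F k = 0) :
    ∑ k ∈ G.support, F k = ∑ g : Fin m → Fin (d + 1), F (ex g) := by
  classical
  rw [← Finset.sum_image (s := Finset.univ) (g := ex) (f := F) (fun a _ b _ h => ex_inj h)]
  refine Finset.sum_subset (fun k hk => ?_) fun k _ hk => hF k hk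
  obtain ⟨g, hg⟩ := mem_ex hd hk
  exact Finset.mem_image.mpr ⟨g, Finset.mem_univ _, hg⟩

private theorem nrm_eq {m d : ℕ} {G : MvPolynomial (Fin m) ℂ} (hd : G.totalDegree ≤ d) :
    nrm G = ∑ g : Fin m → Fin (d + 1), ‖G.coeff (ex g)‖ :=
  sum_ex hd (fun k => ‖G.coeff k‖) fun k hk => by
    rw [MvPolynomial.notMem_support_iff.mp hk, norm_zero]

private theorem eval_ex {m d : ℕ} {G : MvPolynomial (Fin m) ℂ} (hd : G.totalDegree ≤ d)
    (x : Fin m → ℂ) :
    eval x G = ∑ g : Fin m → Fin (d + 1), G.coeff (ex g) * ∏ i, x i ^ (g i : ℕ) := by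
  rw [MvPolynomial.eval_eq']
  refine (sum_ex hd (fun k => G.coeff k * ∏ i, x i ^ k i) fun k hk => ?_).trans ?_
  · simp only [MvPolynomial.notMem_support_iff.mp hk, zero_mul]
  · rfl

theorem lb {m : ℕ} {f : Fin m → ℂ → ℂ} {K : Set ℂ} (hK : IsCompact K) (hf : ∀ a, ContinuousOn (f a) K)
    (hind : ∀ G : MvPolynomial (Fin m) ℂ, G ≠ 0 → ∃ s ∈ K, eval (fun a => f a s) G ≠ 0) (d : ℕ) :
    ∃ C : ℕ, 0 < C ∧ ∀ G : MvPolynomial (Fin m) ℂ, G.totalDegree ≤ d →
      ∃ s ∈ K, nrm G ≤ C * ‖eval (fun a => f a s) G‖ := by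
  classical
  by_contra hcon
  push Not at hcon
  obtain ⟨s0, hs0, -⟩ := hind 1 one_ne_zero
  choose P hPd hP using fun n : ℕ => hcon (n + 1) (Nat.succ_pos n)
  have hpos : ∀ n, 0 < nrm (P n) := fun n =>
    lt_of_le_of_lt (mul_nonneg (Nat.cast_nonneg _) (norm_nonneg _)) (hP n s0 hs0)
  let v : ℕ → (Fin m → Fin (d + 1)) → ℂ := fun n g => (P n).coeff (ex g) / (nrm (P n) : ℂ)
  have hvn : ∀ n g, ‖v n g‖ = ‖(P n).coeff (ex g)‖ / nrm (P n) := fun n g => by
    simp only [v, norm_div, Complex.norm_real, Real.norm_eq_abs, abs_of_pos (hpos n)]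
  have hv1 : ∀ n, ∑ g, ‖v n g‖ = 1 := fun n => by
    simp only [hvn]
    rw [← Finset.sum_div, ← nrm_eq (hPd n), div_self (hpos n).ne']
  have hvb : ∀ n, v n ∈ closedBall (0 : (Fin m → Fin (d + 1)) → ℂ) 1 := fun n => by
    rw [mem_closedBall_zero_iff, pi_norm_le_iff_of_nonneg zero_le_one]
    intro g
    rw [← hv1 n]
    exact Finset.single_le_sum (f := fun g => ‖v n g‖) (fun _ _ => norm_nonneg _) (Finset.mem_univ g)
  obtain ⟨u, -, φ, hφ, hlim⟩ := (isCompact_closedBall (0 : (Fin m → Fin (d + 1)) → ℂ) 1).tendsto_subseq hvb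
  have hlimg : ∀ g, Filter.Tendsto (fun n => v (φ n) g) Filter.atTop (nhds (u g)) := fun g =>
    (tendsto_pi_nhds.mp hlim) g
  have hu1 : ∑ g, ‖u g‖ = 1 := by
    have h1 : Filter.Tendsto (fun n => ∑ g, ‖v (φ n) g‖) Filter.atTop (nhds (∑ g, ‖u g‖)) :=
      tendsto_finsetSum _ fun g _ => (hlimg g).norm
    have h2 : (fun n => ∑ g, ‖v (φ n) g‖) = fun _ => (1 : ℝ) := funext fun n => hv1 _
    rw [h2] at h1
    exact tendsto_nhds_unique h1 tendsto_const_nhds
  have hval : ∀ s ∈ K, ∑ g, u g * ∏ i, f i s ^ (g i : ℕ) = 0 := by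
    intro s hs
    have h1 : Filter.Tendsto (fun n => ∑ g, v (φ n) g * ∏ i, f i s ^ (g i : ℕ)) Filter.atTop
        (nhds (∑ g, u g * ∏ i, f i s ^ (g i : ℕ))) :=
      tendsto_finsetSum _ fun g _ => (hlimg g).mul_const _
    have h2 : ∀ n, ‖∑ g, v (φ n) g * ∏ i, f i s ^ (g i : ℕ)‖ ≤ 1 / ((φ n : ℝ) + 1) := by
      intro n
      have h3 : ∑ g, v (φ n) g * ∏ i, f i s ^ (g i : ℕ) =
          eval (fun a => f a s) (P (φ n)) / (nrm (P (φ n)) : ℂ) := by
        rw [eval_ex (hPd (φ n)), Finset.sum_div]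
        refine Finset.sum_congr rfl fun g _ => ?_
        simp only [v]
        ring
      rw [h3, norm_div, Complex.norm_real, Real.norm_eq_abs, abs_of_pos (hpos _),
        div_le_div_iff₀ (hpos _) (by positivity), one_mul, mul_comm]
      have h4 := (hP (φ n) s hs).le
      push_cast at h4
      exact h4
    have h5 : Filter.Tendsto (fun n => 1 / ((φ n : ℝ) + 1)) Filter.atTop (nhds 0) :=
      tendsto_one_div_add_atTop_nhds_zero_nat.comp hφ.tendsto_atTop
    have h6 : Filter.Tendsto (fun n => ∑ g, v (φ n) g * ∏ i, f i s ^ (g i : ℕ)) Filter.atTop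
        (nhds 0) := squeeze_zero_norm h2 h5
    exact tendsto_nhds_unique h1 h6
  let Q : MvPolynomial (Fin m) ℂ := ∑ g, monomial (ex g) (u g)
  have hQc : ∀ g, Q.coeff (ex g) = u g := fun g => by
    simp only [Q, coeff_sum, coeff_monomial]
    rw [Finset.sum_eq_single g]
    · simp
    · intro b _ hb
      rw [if_neg fun h => hb (ex_inj h)]
    · intro h
      exact absurd (Finset.mem_univ g) h
  have hQ0 : Q ≠ 0 := by
    intro h
    have h1 : ∀ g, u g = 0 := fun g => by rw [← hQc g, h, coeff_zero]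
    simp only [h1, norm_zero, Finset.sum_const_zero] at hu1
    exact zero_ne_one hu1
  obtain ⟨s, hs, hne⟩ := hind Q hQ0
  apply hne
  rw [← hval s hs]
  simp only [Q, map_sum, eval_monomial]
  refine Finset.sum_congr rfl fun g _ => ?_
  rw [Finsupp.prod_fintype _ _ (fun _ => pow_zero _)]
  rfl

/-- `s` and `e ^ s` are algebraically independent over `ℂ` -/
theorem exps_ind (r : ℝ) (hr : 0 < r) (w : ℂ) (G : MvPolynomial (Fin 2) ℂ) (hG : G ≠ 0) :
    ∃ s ∈ ball w r, eval ![s, Complex.exp s] G ≠ 0 := by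
  by_contra hcon
  push Not at hcon
  apply hG
  have hev : ∀ x y : ℂ, eval ![x, y] G =
      Polynomial.eval x (MvPolynomial.aeval ![Polynomial.X, Polynomial.C y] G) := by
    intro x y
    have h1 : (Polynomial.eval x (MvPolynomial.aeval ![Polynomial.X, Polynomial.C y] G)) =
        MvPolynomial.aeval (fun i => Polynomial.aeval x ((![Polynomial.X, Polynomial.C y] :
          Fin 2 → Polynomial ℂ) i)) G := by
      rw [← Polynomial.coe_aeval_eq_eval]
      exact MvPolynomial.comp_aeval_apply _ (Polynomial.aeval x) G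
    rw [h1, ← MvPolynomial.coe_aeval_eq_eval]
    simp only [RingHom.coe_coe]
    congr 1
    congr 1
    funext i
    fin_cases i <;> simp
  have hev' : ∀ x y : ℂ, eval ![x, y] G =
      Polynomial.eval y (MvPolynomial.aeval ![Polynomial.C x, Polynomial.X] G) := by
    intro x y
    have h1 : (Polynomial.eval y (MvPolynomial.aeval ![Polynomial.C x, Polynomial.X] G)) =
        MvPolynomial.aeval (fun i => Polynomial.aeval y ((![Polynomial.C x, Polynomial.X] :
          Fin 2 → Polynomial ℂ) i)) G := by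
      rw [← Polynomial.coe_aeval_eq_eval]
      exact MvPolynomial.comp_aeval_apply _ (Polynomial.aeval y) G
    rw [h1, ← MvPolynomial.coe_aeval_eq_eval]
    simp only [RingHom.coe_coe]
    congr 1
    congr 1
    funext i
    fin_cases i <;> simp
  have hdiff : Differentiable ℂ fun s : ℂ => eval ![s, Complex.exp s] G := by
    have h1 : (fun s : ℂ => eval ![s, Complex.exp s] G) =
        fun s => ∑ k ∈ G.support, G.coeff k * (s ^ k 0 * Complex.exp s ^ k 1) := by
      funext s
      rw [MvPolynomial.eval_eq']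
      refine Finset.sum_congr rfl fun k _ => ?_
      rw [Fin.prod_univ_two]
      rfl
    rw [h1]
    fun_prop
  have hzero : ∀ s : ℂ, eval ![s, Complex.exp s] G = 0 := by
    have h1 : AnalyticOnNhd ℂ (fun s : ℂ => eval ![s, Complex.exp s] G) Set.univ := fun s _ =>
      hdiff.analyticAt s
    have h2 : (fun s : ℂ => eval ![s, Complex.exp s] G) =ᶠ[nhds w] 0 :=
      Filter.eventuallyEq_of_mem (ball_mem_nhds w hr) hcon
    have h3 := h1.eqOn_zero_of_preconnected_of_eventuallyEq_zero isPreconnected_univ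
      (Set.mem_univ w) h2
    exact fun s => h3 (Set.mem_univ s)
  have hne : ∀ x y : ℂ, y ≠ 0 → eval ![x, y] G = 0 := by
    intro x y hy
    have h1 : MvPolynomial.aeval ![Polynomial.X, Polynomial.C y] G = 0 := by
      refine Polynomial.eq_zero_of_infinite_isRoot _ ?_
      refine Set.infinite_of_injective_forall_mem
        (f := fun k : ℕ => Complex.log y + (k : ℂ) * (2 * Real.pi * Complex.I)) ?_ ?_
      · intro a b hab
        have h2 : (a : ℂ) * (2 * Real.pi * Complex.I) = (b : ℂ) * (2 * Real.pi * Complex.I) := by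
          simpa using hab
        have h3 : (2 * Real.pi * Complex.I : ℂ) ≠ 0 := Complex.two_pi_I_ne_zero
        exact_mod_cast mul_right_cancel₀ h3 h2
      · intro k
        show Polynomial.IsRoot _ _
        rw [Polynomial.IsRoot, ← hev]
        have h2 : Complex.exp (Complex.log y + (k : ℂ) * (2 * Real.pi * Complex.I)) = y := by
          rw [Complex.exp_add, Complex.exp_log hy, Complex.exp_nat_mul, Complex.exp_two_pi_mul_I,
            one_pow, mul_one]
        have h3 := hzero (Complex.log y + (k : ℂ) * (2 * Real.pi * Complex.I))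
        rwa [h2] at h3
    rw [hev, h1, Polynomial.eval_zero]
  have hall : ∀ x y : ℂ, eval ![x, y] G = 0 := by
    intro x y
    have h1 : MvPolynomial.aeval ![Polynomial.C x, Polynomial.X] G = 0 := by
      refine Polynomial.eq_zero_of_infinite_isRoot _ ?_
      refine Set.infinite_of_injective_forall_mem (f := fun k : ℕ => ((k : ℂ) + 1)) ?_ ?_
      · intro a b hab
        have h2 : (a : ℂ) = b := by simpa using hab
        exact_mod_cast h2
      · intro k
        show Polynomial.IsRoot _ _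
        rw [Polynomial.IsRoot, ← hev']
        exact hne _ _ (by exact_mod_cast Nat.succ_ne_zero k)
    rw [hev', h1, Polynomial.eval_zero]
  refine MvPolynomial.funext fun x => ?_
  rw [map_zero]
  have h1 : x = ![x 0, x 1] := by
    funext i
    fin_cases i <;> rfl
  rw [h1]
  exact hall _ _

/-- doubling for polynomials in `s, e ^ s` -/
theorem exps (d : ℕ) : ∃ C : ℕ, 0 < C ∧ ∀ G : MvPolynomial (Fin 2) ℂ, G.totalDegree ≤ d →
    (∀ s ∈ ball (0 : ℂ) 3, ‖eval ![s, Complex.exp s] G‖ ≤ C * nrm G) ∧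
      ∃ s ∈ closedBall (0 : ℂ) 1, nrm G ≤ C * ‖eval ![s, Complex.exp s] G‖ := by
  have hfe : ∀ (s : ℂ), (fun a => (![fun s => s, Complex.exp] : Fin 2 → ℂ → ℂ) a s) =
      ![s, Complex.exp s] := fun s => by
    funext a
    fin_cases a <;> rfl
  obtain ⟨C, hC, h⟩ := lb (m := 2) (f := ![fun s => s, Complex.exp])
    (isCompact_closedBall (0 : ℂ) 1)
    (fun a => by
      fin_cases a
      · exact continuousOn_id
      · exact Complex.continuous_exp.continuousOn)
    (fun G hG => by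
      obtain ⟨s, hs, hne⟩ := exps_ind 1 one_pos 0 G hG
      refine ⟨s, ball_subset_closedBall hs, ?_⟩
      rw [hfe]
      exact hne) d
  obtain ⟨D, hD⟩ := exists_nat_ge (Real.exp 3 ^ d)
  refine ⟨C + D, by omega, fun G hG => ⟨fun s hs => ?_, ?_⟩⟩
  · have h3 : (3 : ℝ) ≤ Real.exp 3 := by
      have := Real.add_one_le_exp (3 : ℝ)
      linarith
    rw [mem_ball_zero_iff] at hs
    have h1 : ∀ a, ‖(![s, Complex.exp s] : Fin 2 → ℂ) a‖ ≤ Real.exp 3 := by
      intro a
      fin_cases a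
      · show ‖s‖ ≤ _
        linarith
      · show ‖Complex.exp s‖ ≤ _
        rw [Complex.norm_exp]
        exact Real.exp_le_exp.mpr ((Complex.re_le_norm s).trans hs.le)
    have h2 := nrm_ub hG (x := ![s, Complex.exp s]) (by linarith : (1 : ℝ) ≤ Real.exp 3) h1
    refine h2.trans ?_
    rw [mul_comm]
    refine mul_le_mul_of_nonneg_right ?_ (nrm_nonneg G)
    push_cast
    have : (0 : ℝ) ≤ C := Nat.cast_nonneg _
    linarith
  · obtain ⟨s, hs, h1⟩ := h G hG
    rw [hfe] at h1
    refine ⟨s, hs, h1.trans ?_⟩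
    refine mul_le_mul_of_nonneg_right ?_ (norm_nonneg _)
    push_cast
    have : (0 : ℝ) ≤ D := Nat.cast_nonneg _
    linarith

end Pool.Agent.LGO.PW
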