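import Mathlib
import Pool.Agent.LGO.PW.Norm

/-!
# LGO/PW: the polynomial of an integral matrix

`mp a g = X a (g₁₀ X 0 + g₁₁) - (g₀₀ X 0 + g₀₁)`, `a = 1, 2`.

* `mp_indep`: `A₁, A₂` linearly independent, `det A₁ ≠ 0`, the same for `B₁, B₂`: the polynomials
  `(mp 1 A₂) ^ i (mp 1 A₁) ^ (d - i) (mp 2 B₂) ^ j (mp 2 B₁) ^ (d - j)` are linearly independent.
  Fix a value `z₀` of `X 0` such that `(A₁ z₀)` and `(A₂ z₀)` are not proportional, i.e.
  the determinant of the coefficients of `mp 1 A₁`, `mp 1 A₂` (polynomials of degree `1` in `X 1`) does not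
  vanish at `z₀`, and the same for `B` (the determinant is a polynomial in `z₀`; it is not zero: the
  vector `(g₁₀ Z + g₁₁, g₀₀ Z + g₀₁)` of `A₁` has no common root because `det A₁ ≠ 0`, so a vanishing
  determinant would give `A₂ = λ A₁`).  Then `mp 1 A₂ / mp 1 A₁` takes all but one complex values `r` as a
  function of `X 1`, and `mp 2 B₂ / mp 2 B₁` all but one values `r'` as a function of `X 2`,
  independently, so `∑ g i j r ^ i r' ^ j = 0` for infinitely many `r` and `r'`: `g = 0`.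
* `rel_exists`: dimension count: the polynomials have degree `≤ 2 p d`.
-/

namespace Pool.Agent.LGO.PW

open MvPolynomial Metric

/-- the polynomial of the relation `Maps g (z 0) (z a)` -/
noncomputable def mp (a : Fin 3) (g : Matrix (Fin 2) (Fin 2) ℤ) : MvPolynomial (Fin 3) ℂ :=
  X a * (C (g 1 0 : ℂ) * X 0 + C (g 1 1 : ℂ)) - (C (g 0 0 : ℂ) * X 0 + C (g 0 1 : ℂ))

theorem mp_eval (a : Fin 3) (g : Matrix (Fin 2) (Fin 2) ℤ) (x : Fin 3 → ℂ) :
    eval x (mp a g) = x a * ((g 1 0 : ℂ) * x 0 + (g 1 1 : ℂ)) - ((g 0 0 : ℂ) * x 0 + (g 0 1 : ℂ)) := by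
  simp [mp]

theorem mp_eval_eq_zero {a : Fin 3} {g : Matrix (Fin 2) (Fin 2) ℤ} {x : Fin 3 → ℂ} :
    eval x (mp a g) = 0 ↔ Maps g (x 0) (x a) := by
  rw [mp_eval, sub_eq_zero]
  rfl

private lemma Mp_lin_deg (u v : ℂ) :
    (C u * X 0 + C v : MvPolynomial (Fin 3) ℂ).totalDegree ≤ 1 := by
  refine (totalDegree_add _ _).trans (max_le ?_ ?_)
  · refine (totalDegree_mul _ _).trans ?_
    rw [totalDegree_C, totalDegree_X]
  · rw [totalDegree_C]
    exact Nat.zero_le _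

theorem mp_deg (a : Fin 3) (g : Matrix (Fin 2) (Fin 2) ℤ) : (mp a g).totalDegree ≤ 2 := by
  unfold mp
  refine (totalDegree_sub _ _).trans (max_le ?_ ?_)
  · refine (totalDegree_mul _ _).trans ?_
    rw [totalDegree_X]
    have := Mp_lin_deg (g 1 0 : ℂ) (g 1 1 : ℂ)
    omega
  · exact (Mp_lin_deg _ _).trans (by norm_num)

theorem mp_ne_zero {a : Fin 3} (ha : a ≠ 0) {g : Matrix (Fin 2) (Fin 2) ℤ} (hg : g ≠ 0) :
    mp a g ≠ 0 := by
  intro h
  have h1 : ∀ s t : ℂ, t * ((g 1 0 : ℂ) * s + (g 1 1 : ℂ)) - ((g 0 0 : ℂ) * s + (g 0 1 : ℂ)) = 0 := by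
    intro s t
    have h2 := mp_eval a g (fun i => if i = a then t else s)
    rw [h] at h2
    simp only [map_zero, if_true] at h2
    rw [if_neg (Ne.symm ha)] at h2
    exact h2.symm
  apply hg
  have e1 := h1 0 0
  have e2 := h1 1 0
  have e3 := h1 0 1
  have e4 := h1 1 1
  have f1 : (g 0 1 : ℂ) = 0 := by linear_combination -e1
  have f2 : (g 0 0 : ℂ) = 0 := by linear_combination -e2 + e1
  have f3 : (g 1 1 : ℂ) = 0 := by linear_combination e3 - e1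
  have f4 : (g 1 0 : ℂ) = 0 := by linear_combination e4 - e3 - e2 + e1
  ext i j
  have F1 : g 0 1 = 0 := by exact_mod_cast f1
  have F2 : g 0 0 = 0 := by exact_mod_cast f2
  have F3 : g 1 1 = 0 := by exact_mod_cast f3
  have F4 : g 1 0 = 0 := by exact_mod_cast f4
  fin_cases i <;> fin_cases j <;> simp [F1, F2, F3, F4]

theorem mp_lin (a : Fin 3) (x y : ℤ) (g g' : Matrix (Fin 2) (Fin 2) ℤ) :
    mp a (x • g + y • g') = C (x : ℂ) * mp a g + C (y : ℂ) * mp a g' := by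
  unfold mp
  simp only [Matrix.add_apply, Matrix.smul_apply, smul_eq_mul, Int.cast_add, Int.cast_mul, map_add,
    map_mul]
  ring

private lemma Mp_van {d : ℕ} (c : Fin (d + 1) → ℂ) {S : Set ℂ} (hS : S.Infinite)
    (h : ∀ r ∈ S, ∑ i, c i * r ^ (i : ℕ) = 0) : ∀ i, c i = 0 := by
  have h0 : (∑ i, Polynomial.C (c i) * Polynomial.X ^ (i : ℕ) : Polynomial ℂ) = 0 := by
    refine Polynomial.eq_zero_of_infinite_isRoot _ (hS.mono fun r hr => ?_)
    simp only [Set.mem_ofPred_eq, Polynomial.IsRoot.def, Polynomial.eval_finsetSum,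
      Polynomial.eval_mul, Polynomial.eval_C, Polynomial.eval_pow, Polynomial.eval_X]
    exact h r hr
  intro i
  have h1 := congrArg (fun p => Polynomial.coeff p (i : ℕ)) h0
  simp only [Polynomial.finsetSum_coeff, Polynomial.coeff_C_mul, Polynomial.coeff_X_pow,
    Polynomial.coeff_zero] at h1
  rw [Finset.sum_eq_single i] at h1
  · simpa using h1
  · intro j _ hj
    rw [if_neg (fun hh => hj (Fin.ext hh.symm)), mul_zero]
  · intro hh
    exact absurd (Finset.mem_univ i) hh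

/-- determinant of the coefficients -/
private noncomputable def Mp_det (A B : Matrix (Fin 2) (Fin 2) ℤ) (z : ℂ) : ℂ :=
  ((A 1 0 : ℂ) * z + (A 1 1 : ℂ)) * ((B 0 0 : ℂ) * z + (B 0 1 : ℂ)) -
    ((B 1 0 : ℂ) * z + (B 1 1 : ℂ)) * ((A 0 0 : ℂ) * z + (A 0 1 : ℂ))

private lemma Mp_det_poly {A B : Matrix (Fin 2) (Fin 2) ℤ} (hA : A.det ≠ 0)
    (h : ∀ x y : ℤ, x • A + y • B = 0 → x = 0 ∧ y = 0) :
    ∃ p : Polynomial ℂ, p ≠ 0 ∧ ∀ z, p.eval z = Mp_det A B z := by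
  refine ⟨(Polynomial.C (A 1 0 : ℂ) * Polynomial.X + Polynomial.C (A 1 1 : ℂ)) *
    (Polynomial.C (B 0 0 : ℂ) * Polynomial.X + Polynomial.C (B 0 1 : ℂ)) -
    (Polynomial.C (B 1 0 : ℂ) * Polynomial.X + Polynomial.C (B 1 1 : ℂ)) *
    (Polynomial.C (A 0 0 : ℂ) * Polynomial.X + Polynomial.C (A 0 1 : ℂ)), ?_, ?_⟩
  swap
  · intro z
    simp [Mp_det]
  intro h0
  have h1 : ∀ z, Mp_det A B z = 0 := by
    intro z
    have := congrArg (Polynomial.eval z) h0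
    simpa [Mp_det] using this
  have e0 := h1 0
  have e1 := h1 1
  have e2 := h1 (-1)
  unfold Mp_det at e0 e1 e2
  have i0 : (A 1 1 * B 0 1 - B 1 1 * A 0 1 : ℂ) = 0 := by linear_combination e0
  have i1 : (A 1 0 * B 0 0 - B 1 0 * A 0 0 : ℂ) = 0 := by
    linear_combination (e1 + e2) / 2 - e0
  have i2 : (A 1 0 * B 0 1 + A 1 1 * B 0 0 - B 1 0 * A 0 1 - B 1 1 * A 0 0 : ℂ) = 0 := by
    linear_combination (e1 - e2) / 2
  have j0 : A 1 1 * B 0 1 - B 1 1 * A 0 1 = 0 := by exact_mod_cast i0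
  have j1 : A 1 0 * B 0 0 - B 1 0 * A 0 0 = 0 := by exact_mod_cast i1
  have j2 : A 1 0 * B 0 1 + A 1 1 * B 0 0 - B 1 0 * A 0 1 - B 1 1 * A 0 0 = 0 := by
    exact_mod_cast i2
  rw [Matrix.det_fin_two] at hA
  have k0 : A 1 0 * B 0 1 - A 0 1 * B 1 0 = 0 := by
    have : (A 0 0 * A 1 1 - A 0 1 * A 1 0) * (A 1 0 * B 0 1 - A 0 1 * B 1 0) = 0 := by
      linear_combination A 0 0 * A 1 0 * j0 + A 0 1 * A 1 1 * j1 - A 0 1 * A 1 0 * j2
    rcases mul_eq_zero.1 this with h2 | h2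
    · exact absurd h2 hA
    · exact h2
  have k1 : A 1 1 * B 0 0 - A 0 0 * B 1 1 = 0 := by linear_combination j2 - k0
  have h3 := h (-(B 0 0 * A 1 1 - A 1 0 * B 0 1)) (A 0 0 * A 1 1 - A 0 1 * A 1 0) (by
    ext i j
    simp only [Matrix.add_apply, Matrix.smul_apply, smul_eq_mul, Matrix.zero_apply]
    fin_cases i <;> fin_cases j <;> simp only [Fin.zero_eta, Fin.mk_one, Fin.isValue]
    · linear_combination A 0 0 * k0 - A 0 1 * j1
    · linear_combination A 0 0 * j0 - A 0 1 * k1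
    · linear_combination A 1 0 * k0 - A 1 1 * j1
    · linear_combination A 1 0 * j0 - A 1 1 * k1)
  exact hA h3.2

private lemma Mp_sol {A B : Matrix (Fin 2) (Fin 2) ℤ} {z : ℂ} (hz : Mp_det A B z ≠ 0) :
    ∃ S : Set ℂ, S.Infinite ∧ ∀ r ∈ S, ∃ t : ℂ,
      t * ((B 1 0 : ℂ) * z + (B 1 1 : ℂ)) - ((B 0 0 : ℂ) * z + (B 0 1 : ℂ)) =
        r * (t * ((A 1 0 : ℂ) * z + (A 1 1 : ℂ)) - ((A 0 0 : ℂ) * z + (A 0 1 : ℂ))) ∧
      t * ((A 1 0 : ℂ) * z + (A 1 1 : ℂ)) - ((A 0 0 : ℂ) * z + (A 0 1 : ℂ)) ≠ 0 := by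
  unfold Mp_det at hz
  generalize ((A 1 0 : ℂ) * z + (A 1 1 : ℂ)) = m at *
  generalize ((A 0 0 : ℂ) * z + (A 0 1 : ℂ)) = k at *
  generalize ((B 1 0 : ℂ) * z + (B 1 1 : ℂ)) = m' at *
  generalize ((B 0 0 : ℂ) * z + (B 0 1 : ℂ)) = k' at *
  refine ⟨{m' / m}ᶜ, (Set.finite_singleton _).infinite_compl, fun r hr => ?_⟩
  have hr' : m' - r * m ≠ 0 := by
    intro h0
    by_cases hm : m = 0
    · apply hz
      rw [hm] at h0 ⊢
      have : m' = 0 := by linear_combination h0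
      rw [this]
      ring
    · apply hr
      rw [Set.mem_singleton_iff, eq_div_iff hm]
      linear_combination -h0
  refine ⟨(k' - r * k) / (m' - r * m), ?_, ?_⟩
  · field_simp
    ring
  · have : (k' - r * k) / (m' - r * m) * m - k = (m * k' - m' * k) / (m' - r * m) := by
      field_simp
      ring
    rw [this]
    exact div_ne_zero hz hr'

theorem mp_indep {A₁ A₂ B₁ B₂ : Matrix (Fin 2) (Fin 2) ℤ} (hA₁ : A₁.det ≠ 0) (hB₁ : B₁.det ≠ 0)
    (hA : ∀ x y : ℤ, x • A₁ + y • A₂ = 0 → x = 0 ∧ y = 0)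
    (hB : ∀ x y : ℤ, x • B₁ + y • B₂ = 0 → x = 0 ∧ y = 0) {d : ℕ}
    (g : Fin (d + 1) → Fin (d + 1) → ℂ) (hg : g ≠ 0) :
    ∑ i, ∑ j, C (g i j) * (mp 1 A₂ ^ (i : ℕ) * mp 1 A₁ ^ (d - i) * mp 2 B₂ ^ (j : ℕ) *
      mp 2 B₁ ^ (d - j)) ≠ 0 := by
  intro h0
  obtain ⟨pA, hpA, hpA'⟩ := Mp_det_poly hA₁ hA
  obtain ⟨pB, hpB, hpB'⟩ := Mp_det_poly hB₁ hB
  obtain ⟨z, hz⟩ : ∃ z, (pA * pB).eval z ≠ 0 := by
    by_contra hcon
    push Not at hcon
    exact mul_ne_zero hpA hpB (Polynomial.funext fun z => by rw [hcon z, Polynomial.eval_zero])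
  rw [Polynomial.eval_mul, hpA', hpB'] at hz
  obtain ⟨S, hS, hS'⟩ := Mp_sol (left_ne_zero_of_mul hz)
  obtain ⟨S', hT, hT'⟩ := Mp_sol (right_ne_zero_of_mul hz)
  apply hg
  have key : ∀ r ∈ S, ∀ r' ∈ S', ∑ i, (∑ j, g i j * r' ^ (j : ℕ)) * r ^ (i : ℕ) = 0 := by
    intro r hr r' hr'
    obtain ⟨t, ht, ht0⟩ := hS' r hr
    obtain ⟨t', ht', ht0'⟩ := hT' r' hr'
    have h1 := congrArg (eval ![z, t, t']) h0
    simp only [map_sum, map_mul, map_pow, eval_C, mp_eval, map_zero, Matrix.cons_val_zero,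
      Matrix.cons_val_one, Matrix.cons_val_two, Matrix.head_cons, Matrix.tail_cons] at h1
    rw [ht, ht'] at h1
    generalize (t * ((A₁ 1 0 : ℂ) * z + (A₁ 1 1 : ℂ)) - ((A₁ 0 0 : ℂ) * z + (A₁ 0 1 : ℂ))) = α
      at h1 ht0
    generalize (t' * ((B₁ 1 0 : ℂ) * z + (B₁ 1 1 : ℂ)) - ((B₁ 0 0 : ℂ) * z + (B₁ 0 1 : ℂ))) = β
      at h1 ht0'
    have h2 : α ^ d * β ^ d * ∑ i, (∑ j, g i j * r' ^ (j : ℕ)) * r ^ (i : ℕ) = 0 := by
      rw [← h1, Finset.mul_sum]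
      refine Finset.sum_congr rfl fun i _ => ?_
      rw [Finset.sum_mul, Finset.mul_sum]
      refine Finset.sum_congr rfl fun j _ => ?_
      have hi : α ^ d = α ^ (i : ℕ) * α ^ (d - i) := by
        rw [← pow_add, Nat.add_sub_cancel' (Nat.lt_succ_iff.1 i.2)]
      have hj : β ^ d = β ^ (j : ℕ) * β ^ (d - j) := by
        rw [← pow_add, Nat.add_sub_cancel' (Nat.lt_succ_iff.1 j.2)]
      rw [hi, hj, mul_pow, mul_pow]
      ring
    rcases mul_eq_zero.1 h2 with h3 | h3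
    · exact absurd h3 (mul_ne_zero (pow_ne_zero _ ht0) (pow_ne_zero _ ht0'))
    · exact h3
  funext i j
  refine Mp_van (fun j => g i j) hT (fun r' hr' => ?_) j
  exact Mp_van (fun i => ∑ j, g i j * r' ^ (j : ℕ)) hS (fun r hr => key r hr r' hr') i

/-- two rational functions satisfy an algebraic relation -/
theorem rel_exists {p d : ℕ} (hd : 2 * p * d + 1 < (d + 1) ^ 2) {N D N' D' : Polynomial ℂ}
    (h1 : N.natDegree ≤ p) (h2 : D.natDegree ≤ p) (h3 : N'.natDegree ≤ p) (h4 : D'.natDegree ≤ p) :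
    ∃ g : Fin (d + 1) → Fin (d + 1) → ℂ, (∀ i j, ‖g i j‖ ≤ 1) ∧ (∃ i j, ‖g i j‖ = 1) ∧
      ∑ i, ∑ j, Polynomial.C (g i j) * (N ^ (i : ℕ) * D ^ (d - i) * N' ^ (j : ℕ) * D' ^ (d - j)) = 0 := by
  classical
  let F : Fin (d + 1) × Fin (d + 1) → Polynomial ℂ := fun q =>
    N ^ (q.1 : ℕ) * D ^ (d - q.1) * N' ^ (q.2 : ℕ) * D' ^ (d - q.2)
  have hF : ∀ q, (F q).natDegree ≤ 2 * p * d := by
    intro q
    have hq1 : (q.1 : ℕ) ≤ d := Nat.lt_succ_iff.1 q.1.2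
    have hq2 : (q.2 : ℕ) ≤ d := Nat.lt_succ_iff.1 q.2.2
    have a1 : (N ^ (q.1 : ℕ)).natDegree ≤ q.1 * p :=
      Polynomial.natDegree_pow_le.trans (Nat.mul_le_mul_left _ h1)
    have a2 : (D ^ (d - q.1)).natDegree ≤ (d - q.1) * p :=
      Polynomial.natDegree_pow_le.trans (Nat.mul_le_mul_left _ h2)
    have a3 : (N' ^ (q.2 : ℕ)).natDegree ≤ q.2 * p :=
      Polynomial.natDegree_pow_le.trans (Nat.mul_le_mul_left _ h3)
    have a4 : (D' ^ (d - q.2)).natDegree ≤ (d - q.2) * p :=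
      Polynomial.natDegree_pow_le.trans (Nat.mul_le_mul_left _ h4)
    have b1 : (q.1 : ℕ) * p + (d - q.1) * p = d * p := by
      rw [← add_mul, Nat.add_sub_cancel' hq1]
    have b2 : (q.2 : ℕ) * p + (d - q.2) * p = d * p := by
      rw [← add_mul, Nat.add_sub_cancel' hq2]
    have c1 := (Polynomial.natDegree_mul_le (p := N ^ (q.1 : ℕ)) (q := D ^ (d - q.1)))
    have c2 := (Polynomial.natDegree_mul_le (p := N ^ (q.1 : ℕ) * D ^ (d - q.1))
      (q := N' ^ (q.2 : ℕ)))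
    have c3 := (Polynomial.natDegree_mul_le
      (p := N ^ (q.1 : ℕ) * D ^ (d - q.1) * N' ^ (q.2 : ℕ)) (q := D' ^ (d - q.2)))
    have e : 2 * p * d = d * p + d * p := by ring
    rw [e]
    change (N ^ (q.1 : ℕ) * D ^ (d - q.1) * N' ^ (q.2 : ℕ) * D' ^ (d - q.2)).natDegree ≤ _
    omega
  let L : (Fin (d + 1) × Fin (d + 1) → ℂ) →ₗ[ℂ] (Fin (2 * p * d + 1) → ℂ) :=
    { toFun := fun g m => ∑ q, g q * (F q).coeff m
      map_add' := by
        intro g g'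
        funext m
        simp only [Pi.add_apply, add_mul, Finset.sum_add_distrib]
      map_smul' := by
        intro c g
        funext m
        simp only [Pi.smul_apply, smul_eq_mul, RingHom.id_apply, Finset.mul_sum, mul_assoc] }
  have hker : LinearMap.ker L ≠ ⊥ := by
    refine LinearMap.ker_ne_bot_of_finrank_lt ?_
    rw [Module.finrank_fintype_fun_eq_card, Module.finrank_fintype_fun_eq_card, Fintype.card_fin,
      Fintype.card_prod, Fintype.card_fin]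
    rw [pow_two] at hd
    exact hd
  obtain ⟨g, hgk, hg0⟩ := (Submodule.ne_bot_iff _).1 hker
  have hsum : ∑ q, Polynomial.C (g q) * F q = 0 := by
    ext m
    rw [Polynomial.finsetSum_coeff, Polynomial.coeff_zero]
    simp only [Polynomial.coeff_C_mul]
    by_cases hm : m < 2 * p * d + 1
    · have := congrFun (LinearMap.mem_ker.1 hgk) ⟨m, hm⟩
      exact this
    · refine Finset.sum_eq_zero fun q _ => ?_
      rw [Polynomial.coeff_eq_zero_of_natDegree_lt (lt_of_le_of_lt (hF q) (by omega)), mul_zero]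
  obtain ⟨q₀, -, hq₀⟩ := Finset.exists_max_image Finset.univ (fun q => ‖g q‖) ⟨(0, 0), Finset.mem_univ _⟩
  have hpos : 0 < ‖g q₀‖ := by
    rw [norm_pos_iff]
    intro h0
    apply hg0
    funext q
    have := hq₀ q (Finset.mem_univ _)
    rw [h0, norm_zero] at this
    exact norm_le_zero_iff.1 this
  refine ⟨fun i j => g (i, j) / (‖g q₀‖ : ℂ), ?_, ⟨q₀.1, q₀.2, ?_⟩, ?_⟩
  · intro i j
    rw [norm_div, Complex.norm_real, norm_norm, div_le_one hpos]
    exact hq₀ (i, j) (Finset.mem_univ _)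
  · rw [norm_div, Complex.norm_real, norm_norm, Prod.mk.eta, div_self hpos.ne']
  · have h5 : ∑ q : Fin (d + 1) × Fin (d + 1), Polynomial.C (g q / (‖g q₀‖ : ℂ)) * F q = 0 := by
      have h6 : ∀ q, Polynomial.C (g q / (‖g q₀‖ : ℂ)) * F q =
          Polynomial.C (1 / (‖g q₀‖ : ℂ)) * (Polynomial.C (g q) * F q) := by
        intro q
        have h7 : Polynomial.C (g q / (‖g q₀‖ : ℂ)) =
            Polynomial.C (1 / (‖g q₀‖ : ℂ)) * Polynomial.C (g q) := by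
          rw [← Polynomial.C_mul]
          congr 1
          ring
        rw [h7, mul_assoc]
      rw [Finset.sum_congr rfl fun q _ => h6 q, ← Finset.mul_sum, hsum, mul_zero]
    rw [Fintype.sum_prod_type] at h5
    exact h5

end Pool.Agent.LGO.PW
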