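import Mathlib
import Pool.Agent.LGO.H.Defs
import Pool.Agent.LGO.Gal.Fin
import Pool.Agent.LGO.Gal.Inv
import Pool.Agent.Hhelper14.ZPL.KClosed
import Pool.Agent.AHC.Cl

/-!
# LGO/PW: conjugates of a point on a curve over the algebraic numbers

* `alg_of_isog`: the set of the points of `V` with `IsogDeg N (x (i a)) (x (i b))` is finite
  (`finite_isogDeg`) and stable under the automorphisms of `ℂ` over `Qb` (`KClosed`, `IsogDeg.map`), so
  the coordinates of its points are algebraic (a transcendental number has infinitely many conjugates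
  under `Aut(ℂ / Qb)`).
* `conj_many`: `V` is the zero set of finitely many polynomials with coefficients in a number field
  `k₀` (Noetherian); `m = [k₀ : ℚ]`.  For `x ∈ V` with algebraic coordinates `y a = x (i a)` the orbit of `y`
  under `Aut(ℂ / k₀)` has `[k₀(y) : k₀] ≥ [ℚ(y) : ℚ] / m` elements, and `s x ∈ V` for `s ∈ Aut(ℂ / k₀)`.
-/

namespace Pool.Agent.LGO.PW

open MvPolynomial UpperHalfPlane Pool.Agent.Hhelper14.ZP Pool.Agent.Hhelper14.ZPL

private theorem aeval_fix {n : ℕ} (α : ℂ ≃+* ℂ) (p : MvPolynomial (Fin n) Qb)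
    (hα : ∀ d ∈ p.support, α ((coeff d p : Qb) : ℂ) = ((coeff d p : Qb) : ℂ)) (x : Fin n → ℂ) :
    (aeval (fun c => α (x c)) p : ℂ) = α (aeval x p) := by
  rw [aeval_def, aeval_def, eval₂_eq, eval₂_eq, map_sum]
  refine Finset.sum_congr rfl fun d hd => ?_
  rw [map_mul, map_prod]
  have h1 : algebraMap Qb ℂ (coeff d p) = ((coeff d p : Qb) : ℂ) := rfl
  rw [h1, hα d hd]
  simp only [map_pow]

private theorem notMem_cl {t : ℂ} (h : ¬ IsAlgebraic ℚ t) : t ∉ Pool.Agent.AHC.cl ∅ := by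
  intro h1
  apply h
  have h2 : Algebra.IsAlgebraic ℚ (Algebra.adjoin ℚ (∅ : Set ℂ)) := by
    refine ⟨fun x => ?_⟩
    have h2 : ∀ y : ℂ, y ∈ Algebra.adjoin ℚ (∅ : Set ℂ) → y ∈ Set.range (algebraMap ℚ ℂ) := by
      intro y hy
      rwa [Algebra.adjoin_empty, Algebra.mem_bot] at hy
    obtain ⟨q, hq⟩ := h2 x x.2
    have h3 : x = algebraMap ℚ _ q := Subtype.ext hq.symm
    rw [h3]
    exact isAlgebraic_algebraMap q
  exact IsAlgebraic.restrictScalars ℚ h1

private theorem exists_shift {t : ℂ} (h : ¬ IsAlgebraic ℚ t) :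
    ∃ α : ℂ ≃+* ℂ, (∀ z : Qb, α z = z) ∧ α t = t + 1 := by
  have h2 : ¬ IsAlgebraic ℚ (t + 1) := by
    intro h1
    apply h
    have h3 : t = (t + 1) - 1 := by ring
    rw [h3]
    exact h1.sub isAlgebraic_one
  obtain ⟨α, h3, h4⟩ := Pool.Agent.AHC.exists_move (notMem_cl h) (notMem_cl h2)
  refine ⟨α, fun z => h3 _ ?_, h4⟩
  have h5 : IsAlgebraic ℚ (z : ℂ) := mem_algebraicClosure_iff.mp z.2
  exact h5.extendScalars (algebraMap ℚ (Algebra.adjoin ℚ (∅ : Set ℂ))).injective

theorem alg_of_isog {n : ℕ} {V : Set (Fin n → ℂ)} (hV : Pool.Agent.Hhelper14.ZPL.IsIrredClosed V)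
    (hVk : KClosed V) (hdim : Pool.Agent.Hhelper14.ZPL.dim V = 1) {a b : Fin n} (hab : a ≠ b)
    (hmod : ∀ g : GL (Fin 2) ℚ, 0 < g.det.val →
      ∃ x ∈ V, ¬ ∃ τ : ℍ, x a = jInv τ ∧ x b = jInv (gact g τ)) {x : Fin n → ℂ} (hx : x ∈ V)
    (h : ∃ N, 0 < N ∧ IsogDeg N (x a) (x b)) (c : Fin n) : IsAlgebraic ℚ (x c) := by
  obtain ⟨N, hN, hiso⟩ := h
  by_contra hc
  obtain ⟨α, hα, hαc⟩ := exists_shift hc
  have hfin := finite_isogDeg hV hdim hab hmod hN
  have key : ∀ k : ℕ, ∃ y : Fin n → ℂ, (y ∈ V ∧ IsogDeg N (y a) (y b)) ∧ y c = x c + k := by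
    intro k
    induction k with
    | zero => exact ⟨x, ⟨hx, hiso⟩, by simp⟩
    | succ k ih =>
      obtain ⟨y, ⟨hyV, hyi⟩, hyc⟩ := ih
      refine ⟨fun i => α (y i), ⟨?_, ?_⟩, ?_⟩
      · refine kclosed_iff.mp hVk _ fun p hp => ?_
        rw [aeval_fix α p (fun d _ => hα _) y, (mem_vanishingIdeal_iff.mp hp) y hyV, map_zero]
      · exact IsogDeg.map (α : ℂ →+* ℂ) hN hyi
      · change α (y c) = _
        rw [hyc, map_add, hαc, map_natCast]
        push_cast
        ring
  choose y hy hyc using key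
  have hinj : Function.Injective y := by
    intro k l hkl
    have h1 := hyc k
    rw [hkl, hyc l] at h1
    have h2 : ((l : ℕ) : ℂ) = k := add_left_cancel h1
    exact_mod_cast h2.symm
  exact Set.infinite_of_injective_forall_mem hinj (fun k => hy k) hfin

theorem conj_many {n : ℕ} {V : Set (Fin n → ℂ)} (hVk : KClosed V) (i : Fin 3 → Fin n) :
    ∃ m : ℕ, 0 < m ∧ ∀ x ∈ V, (∀ a, IsAlgebraic ℚ (x (i a))) → ∃ S : Finset (Fin 3 → ℂ),
      Module.finrank ℚ (IntermediateField.adjoin ℚ (Set.range fun a => x (i a))) ≤ m * S.card ∧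
      ∀ y ∈ S, ∃ s : ℂ ≃+* ℂ, (fun c => s (x c)) ∈ V ∧ y = fun a => s (x (i a)) := by
  classical
  obtain ⟨G, hG⟩ : (vanishingIdeal Qb V : Ideal (MvPolynomial (Fin n) Qb)).FG :=
    IsNoetherian.noetherian _
  set T : Finset ℂ := G.biUnion fun g => g.support.image fun d => ((coeff d g : Qb) : ℂ) with hT
  have hTint : ∀ z ∈ (T : Set ℂ), IsIntegral ℚ z := by
    intro z hz
    obtain ⟨g, -, hz⟩ := Finset.mem_biUnion.mp (Finset.mem_coe.mp hz)
    obtain ⟨d, -, rfl⟩ := Finset.mem_image.mp hz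
    have h5 : IsAlgebraic ℚ ((coeff d g : Qb) : ℂ) := mem_algebraicClosure_iff.mp (coeff d g : Qb).2
    exact h5.isIntegral
  set k₀ : IntermediateField ℚ ℂ := IntermediateField.adjoin ℚ (T : Set ℂ) with hk₀
  have hfin : FiniteDimensional ℚ k₀ := IntermediateField.finiteDimensional_adjoin hTint
  refine ⟨Module.finrank ℚ k₀, Module.finrank_pos, fun x hx hal => ?_⟩
  set K : IntermediateField k₀ ℂ := IntermediateField.adjoin k₀ (Set.range fun a => x (i a)) with hK
  have hKfin : FiniteDimensional k₀ K := by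
    refine IntermediateField.finiteDimensional_adjoin ?_
    rintro _ ⟨a, rfl⟩
    exact (hal a).isIntegral.tower_top
  have hmemK : ∀ a, x (i a) ∈ K := fun a => IntermediateField.subset_adjoin k₀ _ ⟨a, rfl⟩
  refine ⟨Finset.univ.image fun φ : K →ₐ[k₀] ℂ => fun a => φ ⟨x (i a), hmemK a⟩, ?_, ?_⟩
  · have hinj : Function.Injective fun φ : K →ₐ[k₀] ℂ => fun a => φ ⟨x (i a), hmemK a⟩ := by
      intro φ ψ h
      refine IntermediateField.algHom_ext_of_eq_adjoin k₀ hK ?_
      rintro _ ⟨a, rfl⟩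
      exact congrFun h a
    rw [Finset.card_image_of_injective _ hinj, Finset.card_univ, AlgHom.card k₀ K ℂ]
    rw [Module.finrank_mul_finrank ℚ k₀ K]
    have hKQ : FiniteDimensional ℚ K := FiniteDimensional.trans ℚ k₀ K
    have hle : IntermediateField.adjoin ℚ (Set.range fun a => x (i a)) ≤ K.restrictScalars ℚ := by
      rw [IntermediateField.adjoin_le_iff]
      rintro _ ⟨a, rfl⟩
      exact hmemK a
    have h1 : Module.finrank ℚ (IntermediateField.adjoin ℚ (Set.range fun a => x (i a))) ≤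
        Module.finrank ℚ (K.restrictScalars ℚ) := by
      have : FiniteDimensional ℚ (K.restrictScalars ℚ) := hKQ
      exact LinearMap.finrank_le_finrank_of_injective
        (f := (IntermediateField.inclusion hle).toLinearMap) (IntermediateField.inclusion hle).injective
    exact h1
  · intro y hy
    obtain ⟨φ, -, rfl⟩ := Finset.mem_image.mp hy
    obtain ⟨s, hs⟩ := Pool.Agent.AHC.exists_aut (R := k₀) (S := K) (algebraMap k₀ K).injective
      (by
        have : Algebra.trdeg k₀ K = 0 := trdeg_eq_zero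
        rw [this]
        exact Cardinal.aleph0_pos)
      (algebraMap K ℂ) φ.toRingHom (algebraMap K ℂ).injective φ.toRingHom.injective (by
        ext z
        change algebraMap K ℂ (algebraMap k₀ K z) = φ (algebraMap k₀ K z)
        rw [AlgHom.commutes]
        rfl)
    refine ⟨s, ?_, ?_⟩
    · have hfix : ∀ z ∈ T, s z = z := by
        intro z hz
        have h1 : z ∈ k₀ := IntermediateField.subset_adjoin ℚ _ hz
        have h2 := hs (algebraMap k₀ K ⟨z, h1⟩)
        have h3 : φ.toRingHom (algebraMap k₀ K ⟨z, h1⟩) = z := φ.commutes ⟨z, h1⟩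
        rw [h3] at h2
        exact h2
      refine kclosed_iff.mp hVk _ fun p hp => ?_
      have h4 : (vanishingIdeal Qb V : Ideal (MvPolynomial (Fin n) Qb)) ≤
          RingHom.ker (aeval (fun c => s (x c)) : MvPolynomial (Fin n) Qb →ₐ[Qb] ℂ) := by
        rw [← hG]
        refine Ideal.span_le.mpr fun g hg => ?_
        have hg' : g ∈ (vanishingIdeal Qb V : Ideal (MvPolynomial (Fin n) Qb)) := by
          rw [← hG]
          exact Ideal.subset_span hg
        change aeval (fun c => s (x c)) g = (0 : ℂ)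
        rw [aeval_fix s g (fun d hd => hfix _ (Finset.mem_biUnion.mpr ⟨g, hg,
          Finset.mem_image.mpr ⟨d, hd, rfl⟩⟩)) x, (mem_vanishingIdeal_iff.mp hg') x hx, map_zero]
      exact h4 hp
    · funext a
      exact (hs ⟨x (i a), hmemK a⟩).symm

end Pool.Agent.LGO.PW
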