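import Mathlib
import Pool.Agent.LGO.PW.Defs

/-!
# LGO/PW: the integral vector attached to a point of a cusp chart

In a cusp chart let `e b₀ = 0`, `e b₁ > 0` and `b₂` the third index (`Cusp.idx`).  `z b₀ = ψ b₀ (q)` and
`g = e b₁ z b₂ - e b₂ z b₁ = e b₁ ψ b₂ (q) - e b₂ ψ b₁ (q)` are functions of `q = e ^ w`, algebraically
independent over `ℂ`.  If `A` maps `z b₀` to `z b₁`, `B` maps `z b₀` to `z b₂`, then with
`M_A = A₁₀ z b₀ + A₁₁`, `N_A = A₀₀ z b₀ + A₀₁`: `e b₁ N_B M_A - e b₂ N_A M_B - g M_A M_B = 0`, a linear relation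
with integral coefficients `psi` between `1, z b₀, (z b₀) ^ 2, g, g z b₀, g (z b₀) ^ 2` (`fv`).
-/

namespace Pool.Agent.LGO.PW

open MvPolynomial Metric

private theorem exists_bij : ∀ a a' : Fin 3, a ≠ a' →
    ∃ b : Fin 3 → Fin 3, Function.Bijective b ∧ b 0 = a' ∧ b 1 = a := by
  decide

theorem Cusp.idx {e : Fin 3 → ℕ} {ψ : Fin 3 → ℂ → ℂ} (h : Cusp e ψ) :
    ∃ b : Fin 3 → Fin 3, Function.Bijective b ∧ e (b 0) = 0 ∧ 0 < e (b 1) := by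
  obtain ⟨a, ha⟩ := h.inf
  obtain ⟨a', ha'⟩ := h.fin
  have hne : a ≠ a' := by
    rintro rfl
    omega
  obtain ⟨b, hb, h0, h1⟩ := exists_bij a a' hne
  exact ⟨b, hb, by rw [h0]; exact ha', by rw [h1]; exact ha⟩

/-- `g` as a function of `q` -/
noncomputable def gq (e : Fin 3 → ℕ) (ψ : Fin 3 → ℂ → ℂ) (b : Fin 3 → Fin 3) (q : ℂ) : ℂ :=
  (e (b 1) : ℂ) * ψ (b 2) q - (e (b 2) : ℂ) * ψ (b 1) q

/-- the six functions -/
noncomputable def fv (e : Fin 3 → ℕ) (ψ : Fin 3 → ℂ → ℂ) (b : Fin 3 → Fin 3) (q : ℂ) : Fin 6 → ℂ :=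
  ![1, ψ (b 0) q, ψ (b 0) q ^ 2, gq e ψ b q, gq e ψ b q * ψ (b 0) q, gq e ψ b q * ψ (b 0) q ^ 2]

/-- the integral vector -/
def psi (e₁ e₂ : ℤ) (A B : Matrix (Fin 2) (Fin 2) ℤ) : Fin 6 → ℤ :=
  ![e₁ * (B 0 1 * A 1 1) - e₂ * (A 0 1 * B 1 1),
    e₁ * (B 0 0 * A 1 1 + B 0 1 * A 1 0) - e₂ * (A 0 0 * B 1 1 + A 0 1 * B 1 0),
    e₁ * (B 0 0 * A 1 0) - e₂ * (A 0 0 * B 1 0),
    -(A 1 1 * B 1 1), -(A 1 0 * B 1 1 + A 1 1 * B 1 0), -(A 1 0 * B 1 0)]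

theorem psi_ne_zero {e₁ e₂ : ℤ} {A B : Matrix (Fin 2) (Fin 2) ℤ} (hA : A.det ≠ 0) (hB : B.det ≠ 0) :
    psi e₁ e₂ A B ≠ 0 := by
  intro h
  have h3 : -(A 1 1 * B 1 1) = 0 := congrFun h 3
  have h4 : -(A 1 0 * B 1 1 + A 1 1 * B 1 0) = 0 := congrFun h 4
  have h5 : -(A 1 0 * B 1 0) = 0 := congrFun h 5
  rw [Matrix.det_fin_two] at hA hB
  have h3' : A 1 1 * B 1 1 = 0 := by linarith
  have h4' : A 1 0 * B 1 1 + A 1 1 * B 1 0 = 0 := by linarith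
  have h5' : A 1 0 * B 1 0 = 0 := by linarith
  rcases mul_eq_zero.1 h3' with ha | hb
  · rcases mul_eq_zero.1 h5' with ha' | hb'
    · exact hA (by rw [ha, ha']; ring)
    · rw [ha, zero_mul, add_zero] at h4'
      rcases mul_eq_zero.1 h4' with ha' | hb''
      · exact hA (by rw [ha, ha']; ring)
      · exact hB (by rw [hb', hb'']; ring)
  · rcases mul_eq_zero.1 h5' with ha' | hb'
    · rw [hb, mul_zero, zero_add] at h4'
      rcases mul_eq_zero.1 h4' with ha'' | hb''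
      · exact hA (by rw [ha', ha'']; ring)
      · exact hB (by rw [hb, hb'']; ring)
    · exact hB (by rw [hb, hb']; ring)

theorem psi_le {e₁ e₂ : ℤ} {A B : Matrix (Fin 2) (Fin 2) ℤ} {H : ℝ} (hA : ∀ i j, |(A i j : ℝ)| ≤ H)
    (hB : ∀ i j, |(B i j : ℝ)| ≤ H) (i : Fin 6) :
    |(psi e₁ e₂ A B i : ℝ)| ≤ 2 * (1 + |(e₁ : ℝ)| + |(e₂ : ℝ)|) * H ^ 2 := by
  have hH : 0 ≤ H := le_trans (abs_nonneg _) (hA 0 0)
  have m : ∀ x y : ℝ, |x| ≤ H → |y| ≤ H → |x * y| ≤ H ^ 2 := by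
    intro x y hx hy
    rw [abs_mul, sq]
    exact mul_le_mul hx hy (abs_nonneg _) hH
  have hH2 : 0 ≤ H ^ 2 := sq_nonneg H
  have h1 : 0 ≤ |(e₁ : ℝ)| := abs_nonneg _
  have h2 : 0 ≤ |(e₂ : ℝ)| := abs_nonneg _
  -- the general estimate for the first three entries
  have key : ∀ (u v : ℝ), |u| ≤ 2 * H ^ 2 → |v| ≤ 2 * H ^ 2 →
      |(e₁ : ℝ) * u - (e₂ : ℝ) * v| ≤ 2 * (1 + |(e₁ : ℝ)| + |(e₂ : ℝ)|) * H ^ 2 := by
    intro u v hu hv
    have h := abs_sub ((e₁ : ℝ) * u) ((e₂ : ℝ) * v)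
    rw [abs_mul, abs_mul] at h
    nlinarith [mul_le_mul_of_nonneg_left hu h1, mul_le_mul_of_nonneg_left hv h2]
  have one : ∀ x y : ℝ, |x| ≤ H → |y| ≤ H → |x * y| ≤ 2 * H ^ 2 := by
    intro x y hx hy
    linarith [m x y hx hy]
  have two : ∀ x y x' y' : ℝ, |x| ≤ H → |y| ≤ H → |x'| ≤ H → |y'| ≤ H →
      |x * y + x' * y'| ≤ 2 * H ^ 2 := by
    intro x y x' y' hx hy hx' hy'
    linarith [m x y hx hy, m x' y' hx' hy', abs_add_le (x * y) (x' * y')]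
  have last : ∀ u : ℝ, |u| ≤ 2 * H ^ 2 → |-u| ≤ 2 * (1 + |(e₁ : ℝ)| + |(e₂ : ℝ)|) * H ^ 2 := by
    intro u hu
    rw [abs_neg]
    nlinarith [mul_nonneg h1 hH2, mul_nonneg h2 hH2]
  fin_cases i
  · show |((e₁ * (B 0 1 * A 1 1) - e₂ * (A 0 1 * B 1 1) : ℤ) : ℝ)| ≤ _
    push_cast
    exact key _ _ (one _ _ (hB 0 1) (hA 1 1)) (one _ _ (hA 0 1) (hB 1 1))
  · show |((e₁ * (B 0 0 * A 1 1 + B 0 1 * A 1 0) - e₂ * (A 0 0 * B 1 1 + A 0 1 * B 1 0) : ℤ) : ℝ)| ≤ _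
    push_cast
    exact key _ _ (two _ _ _ _ (hB 0 0) (hA 1 1) (hB 0 1) (hA 1 0))
      (two _ _ _ _ (hA 0 0) (hB 1 1) (hA 0 1) (hB 1 0))
  · show |((e₁ * (B 0 0 * A 1 0) - e₂ * (A 0 0 * B 1 0) : ℤ) : ℝ)| ≤ _
    push_cast
    exact key _ _ (one _ _ (hB 0 0) (hA 1 0)) (one _ _ (hA 0 0) (hB 1 0))
  · show |((-(A 1 1 * B 1 1) : ℤ) : ℝ)| ≤ _
    push_cast
    exact last _ (one _ _ (hA 1 1) (hB 1 1))
  · show |((-(A 1 0 * B 1 1 + A 1 1 * B 1 0) : ℤ) : ℝ)| ≤ _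
    push_cast
    exact last _ (two _ _ _ _ (hA 1 0) (hB 1 1) (hA 1 1) (hB 1 0))
  · show |((-(A 1 0 * B 1 0) : ℤ) : ℝ)| ≤ _
    push_cast
    exact last _ (one _ _ (hA 1 0) (hB 1 0))

/-- the relation -/
theorem psi_rel {e : Fin 3 → ℕ} {ψ : Fin 3 → ℂ → ℂ} {b : Fin 3 → Fin 3} (hb0 : e (b 0) = 0)
    {A B : Matrix (Fin 2) (Fin 2) ℤ} {w : ℂ} (hA : Maps A (cz e ψ (b 0) w) (cz e ψ (b 1) w))
    (hB : Maps B (cz e ψ (b 0) w) (cz e ψ (b 2) w)) :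
    ∑ i, (psi (e (b 1)) (e (b 2)) A B i : ℂ) * fv e ψ b (Complex.exp w) i = 0 := by
  have h0 : cz e ψ (b 0) w = ψ (b 0) (Complex.exp w) := by
    simp [cz, hb0]
  have hg : gq e ψ b (Complex.exp w)
      = (e (b 1) : ℂ) * cz e ψ (b 2) w - (e (b 2) : ℂ) * cz e ψ (b 1) w := by
    unfold gq cz
    ring
  rw [Maps, h0] at hA hB
  simp only [Fin.sum_univ_six, psi, fv, hg, Matrix.cons_val_zero, Matrix.cons_val_one,
    Matrix.cons_val]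
  push_cast
  generalize cz e ψ (b 1) w = z1 at *
  generalize cz e ψ (b 2) w = z2 at *
  generalize ψ (b 0) (Complex.exp w) = z0 at *
  linear_combination (-(e (b 1) : ℂ) * ((A 1 0 : ℂ) * z0 + (A 1 1 : ℂ))) * hB
    + ((e (b 2) : ℂ) * ((B 1 0 : ℂ) * z0 + (B 1 1 : ℂ))) * hA

theorem fv_diff {e : Fin 3 → ℕ} {ψ : Fin 3 → ℂ → ℂ} (h : Cusp e ψ) (b : Fin 3 → Fin 3) (i : Fin 6) :
    DifferentiableOn ℂ (fun q => fv e ψ b q i) (ball 0 1) := by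
  have h0 := h.an (b 0)
  have hg : DifferentiableOn ℂ (gq e ψ b) (ball 0 1) :=
    ((h.an (b 2)).const_mul _).sub ((h.an (b 1)).const_mul _)
  fin_cases i
  · exact differentiableOn_const (c := (1 : ℂ))
  · exact h0
  · exact h0.pow 2
  · exact hg
  · exact hg.mul h0
  · exact hg.mul (h0.pow 2)

theorem fv_bd {e : Fin 3 → ℕ} {ψ : Fin 3 → ℂ → ℂ} (h : Cusp e ψ) (b : Fin 3 → Fin 3) :
    ∃ B : ℝ, ∀ i, ∀ q ∈ ball (0 : ℂ) 1, ‖fv e ψ b q i‖ ≤ B := by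
  obtain ⟨C, hC⟩ := h.bd
  have hC0 : 0 ≤ C := le_trans (norm_nonneg _) (hC 0 0 (by simp))
  set G : ℝ := (e (b 1) : ℝ) * C + (e (b 2) : ℝ) * C with hG
  have hG0 : 0 ≤ G := by positivity
  have hg : ∀ q ∈ ball (0 : ℂ) 1, ‖gq e ψ b q‖ ≤ G := by
    intro q hq
    unfold gq
    refine (norm_sub_le _ _).trans ?_
    rw [norm_mul, norm_mul, Complex.norm_natCast, Complex.norm_natCast]
    exact add_le_add (mul_le_mul_of_nonneg_left (hC _ q hq) (Nat.cast_nonneg _))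
      (mul_le_mul_of_nonneg_left (hC _ q hq) (Nat.cast_nonneg _))
  have hp : ∀ q ∈ ball (0 : ℂ) 1, ‖ψ (b 0) q ^ 2‖ ≤ C ^ 2 := by
    intro q hq
    rw [norm_pow]
    exact pow_le_pow_left₀ (norm_nonneg _) (hC _ q hq) 2
  have a1 : 0 ≤ C ^ 2 := sq_nonneg C
  have a2 : 0 ≤ G * C := mul_nonneg hG0 hC0
  have a3 : 0 ≤ G * C ^ 2 := mul_nonneg hG0 a1
  refine ⟨1 + C + C ^ 2 + G + G * C + G * C ^ 2, ?_⟩
  intro i q hq
  have h1 := hC (b 0) q hq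
  have h2 := hp q hq
  have h3 := hg q hq
  fin_cases i
  · show ‖(1 : ℂ)‖ ≤ _
    rw [norm_one]
    linarith
  · show ‖ψ (b 0) q‖ ≤ _
    linarith
  · show ‖ψ (b 0) q ^ 2‖ ≤ _
    linarith
  · show ‖gq e ψ b q‖ ≤ _
    linarith
  · show ‖gq e ψ b q * ψ (b 0) q‖ ≤ _
    rw [norm_mul]
    linarith [mul_le_mul h3 h1 (norm_nonneg _) hG0]
  · show ‖gq e ψ b q * ψ (b 0) q ^ 2‖ ≤ _
    rw [norm_mul]
    linarith [mul_le_mul h3 h2 (norm_nonneg _) hG0]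

/-- linear independence, from `Cusp.ind` applied to
`c₀ + c₁ X + c₂ X ^ 2 + (c₃ + c₄ X + c₅ X ^ 2) (e b₁ Z - e b₂ Y) ≠ 0`; every `q = e ^ w`, `w ∈ LH`, lies in the
unit disc -/
theorem fv_ind {e : Fin 3 → ℕ} {ψ : Fin 3 → ℂ → ℂ} (h : Cusp e ψ) {b : Fin 3 → Fin 3}
    (hb : Function.Bijective b) (hb0 : e (b 0) = 0) (hb1 : 0 < e (b 1)) (c : Fin 6 → ℂ) (hc : c ≠ 0) :
    ∃ q ∈ ball (0 : ℂ) 1, ∑ i, c i * fv e ψ b q i ≠ 0 := by
  set P : MvPolynomial (Fin 3) ℂ :=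
    C (c 0) + C (c 1) * X (b 0) + C (c 2) * X (b 0) ^ 2
      + (C (c 3) + C (c 4) * X (b 0) + C (c 5) * X (b 0) ^ 2)
        * (C (e (b 1) : ℂ) * X (b 2) - C (e (b 2) : ℂ) * X (b 1)) with hP
  have hev : ∀ x : Fin 3 → ℂ, eval x P = c 0 + c 1 * x (b 0) + c 2 * x (b 0) ^ 2
      + (c 3 + c 4 * x (b 0) + c 5 * x (b 0) ^ 2)
        * ((e (b 1) : ℂ) * x (b 2) - (e (b 2) : ℂ) * x (b 1)) := by
    intro x
    simp [hP]
  have h01 : b 1 ≠ b 0 := fun h' => absurd (hb.1 h') (by decide)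
  have h02 : b 2 ≠ b 0 := fun h' => absurd (hb.1 h') (by decide)
  have h12 : b 2 ≠ b 1 := fun h' => absurd (hb.1 h') (by decide)
  have he1 : (e (b 1) : ℂ) ≠ 0 := by
    exact_mod_cast hb1.ne'
  have hP0 : P ≠ 0 := by
    intro h0
    apply hc
    have hval : ∀ u v : ℂ, c 0 + c 1 * u + c 2 * u ^ 2 + (c 3 + c 4 * u + c 5 * u ^ 2) * v = 0 := by
      intro u v
      have := hev (fun a => if a = b 0 then u else if a = b 1 then 0 else v / (e (b 1) : ℂ))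
      rw [h0, map_zero] at this
      simp only [if_true, h01, h02, h12, if_false, mul_zero, sub_zero] at this
      rw [mul_div_cancel₀ _ he1] at this
      exact this.symm
    have e00 := hval 0 0
    have e10 := hval 1 0
    have em0 := hval (-1) 0
    have e01 := hval 0 1
    have e11 := hval 1 1
    have em1 := hval (-1) 1
    have c0 : c 0 = 0 := by linear_combination e00
    have c1 : c 1 = 0 := by linear_combination (1/2 : ℂ) * e10 - (1/2 : ℂ) * em0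
    have c2 : c 2 = 0 := by linear_combination (1/2 : ℂ) * e10 + (1/2 : ℂ) * em0 - e00
    have c3 : c 3 = 0 := by linear_combination e01 - e00
    have c4 : c 4 = 0 := by
      linear_combination (1/2 : ℂ) * (e11 - em1) - (1/2 : ℂ) * (e10 - em0)
    have c5 : c 5 = 0 := by
      linear_combination (1/2 : ℂ) * (e11 + em1) - (1/2 : ℂ) * (e10 + em0) - (e01 - e00)
    funext i
    fin_cases i
    · exact c0
    · exact c1
    · exact c2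
    · exact c3
    · exact c4
    · exact c5
  obtain ⟨w, hw, hne⟩ := h.ind P hP0
  refine ⟨Complex.exp w, ?_, ?_⟩
  · rw [mem_ball_zero_iff, Complex.norm_exp, Real.exp_lt_one_iff]
    exact hw
  · intro hsum
    apply hne
    rw [hev]
    have h0 : cz e ψ (b 0) w = ψ (b 0) (Complex.exp w) := by
      simp [cz, hb0]
    have hg : (e (b 1) : ℂ) * cz e ψ (b 2) w - (e (b 2) : ℂ) * cz e ψ (b 1) w
        = gq e ψ b (Complex.exp w) := by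
      unfold gq cz
      ring
    rw [hg, h0]
    simp only [Fin.sum_univ_six, fv, Matrix.cons_val_zero, Matrix.cons_val_one,
      Matrix.cons_val] at hsum
    linear_combination hsum

end Pool.Agent.LGO.PW
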