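import Mathlib
import Pool.Agent.LGO.PW.Ann
import Pool.Agent.LGO.PW.Psi

/-!
# LGO/PW: the points of a cusp chart lie in `O(log H)` unit discs

`Cusp.cover`: `ann` for `fv` and the integral vector `psi` (entries `≤ C H ^ 2 ≤ H ^ C'`): the `q = e ^ w` lie
in `P` annuli.  In an annulus `|Re w - log η| ≤ C log H`; divide the rectangle (height `2 π`) into
`≤ C' (1 + log H)` cells of diameter `≤ 1`; in every cell which contains a point `w ∈ CD` with
`|w| ≤ H`, `Pt H`, choose one of these points as centre.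
-/

namespace Pool.Agent.LGO.PW

open MvPolynomial Metric

/-- points in few rectangles are close to few of them -/
private theorem Cover_net (T : Set ℂ) (A : Finset ℝ) {R : ℝ} (hR : 0 ≤ R)
    (hT : ∀ w ∈ T, |w.im| ≤ Real.pi ∧ ∃ r ∈ A, r - R ≤ w.re ∧ w.re ≤ r + R) :
    ∃ S : Finset ℂ, (∀ w ∈ S, w ∈ T) ∧ (S.card : ℝ) ≤ A.card * (17 * (4 * R + 2)) ∧
      ∀ w ∈ T, ∃ w₀ ∈ S, ‖w - w₀‖ ≤ 1 := by
  set cell : ℂ → ℤ × ℤ := fun w => (⌊2 * w.re⌋, ⌊2 * w.im⌋) with hcell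
  set K : Finset (ℤ × ℤ) :=
    A.biUnion (fun r => Finset.Icc ⌊2 * (r - R)⌋ ⌊2 * (r + R)⌋ ×ˢ Finset.Icc (-8 : ℤ) 8) with hK
  have hmaps : ∀ w ∈ T, cell w ∈ K := by
    intro w hw
    obtain ⟨him, r, hr, h1, h2⟩ := hT w hw
    have hpi : Real.pi < 4 := by linarith [Real.pi_lt_d2]
    rw [abs_le] at him
    rw [hK, Finset.mem_biUnion]
    refine ⟨r, hr, ?_⟩
    rw [Finset.mem_product, Finset.mem_Icc, Finset.mem_Icc]
    refine ⟨⟨?_, ?_⟩, ?_, ?_⟩
    · exact Int.floor_le_floor (by linarith)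
    · exact Int.floor_le_floor (by linarith)
    · change (-8 : ℤ) ≤ ⌊2 * w.im⌋
      rw [Int.le_floor]
      push_cast
      linarith
    · change ⌊2 * w.im⌋ ≤ (8 : ℤ)
      have : (⌊2 * w.im⌋ : ℝ) ≤ 8 := (Int.floor_le _).trans (by linarith)
      exact_mod_cast this
  have hKcard : (K.card : ℝ) ≤ A.card * (17 * (4 * R + 2)) := by
    have h1 : (K.card : ℝ) ≤ ∑ r ∈ A,
        (((Finset.Icc ⌊2 * (r - R)⌋ ⌊2 * (r + R)⌋ ×ˢ Finset.Icc (-8 : ℤ) 8).card : ℕ) : ℝ) := by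
      exact_mod_cast Finset.card_biUnion_le
    refine h1.trans ?_
    rw [← nsmul_eq_mul]
    apply Finset.sum_le_card_nsmul
    intro r _
    rw [Finset.card_product, Int.card_Icc, Int.card_Icc]
    have h2 : (((⌊2 * (r + R)⌋ + 1 - ⌊2 * (r - R)⌋).toNat : ℕ) : ℝ) ≤ 4 * R + 2 := by
      have h3 : (0 : ℤ) ≤ ⌊2 * (r + R)⌋ + 1 - ⌊2 * (r - R)⌋ := by
        have : ⌊2 * (r - R)⌋ ≤ ⌊2 * (r + R)⌋ := Int.floor_le_floor (by linarith)
        omega
      have h4 : (((⌊2 * (r + R)⌋ + 1 - ⌊2 * (r - R)⌋).toNat : ℕ) : ℝ) =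
          ((⌊2 * (r + R)⌋ + 1 - ⌊2 * (r - R)⌋ : ℤ) : ℝ) := by
        rw [← Int.cast_natCast, Int.toNat_of_nonneg h3]
      rw [h4]
      push_cast
      have h5 := Int.floor_le (2 * (r + R))
      have h6 := Int.lt_floor_add_one (2 * (r - R))
      linarith
    have h7 : ((8 + 1 - (-8 : ℤ)).toNat : ℕ) = 17 := by decide
    rw [h7]
    push_cast
    linarith
  obtain ⟨T', hT'T, hbij⟩ := Set.exists_subset_bijOn T cell
  have hmT' : Set.MapsTo cell T' (K : Set (ℤ × ℤ)) := fun w hw => hmaps w (hT'T hw)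
  have hfin : T'.Finite := Set.Finite.of_injOn hmT' hbij.injOn K.finite_toSet
  refine ⟨hfin.toFinset, ?_, ?_, ?_⟩
  · intro w hw
    exact hT'T (hfin.mem_toFinset.1 hw)
  · refine le_trans ?_ hKcard
    have : hfin.toFinset.card ≤ K.card := by
      apply Finset.card_le_card_of_injOn cell
      · intro w hw
        exact hmT' (by simpa using hw)
      · intro x hx y hy hxy
        exact hbij.injOn (by simpa using hx) (by simpa using hy) hxy
    exact_mod_cast this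
  · intro w hw
    obtain ⟨w₀, hw₀, heq⟩ := hbij.surjOn (Set.mem_image_of_mem cell hw)
    refine ⟨w₀, hfin.mem_toFinset.2 hw₀, ?_⟩
    have h1 : ⌊2 * w₀.re⌋ = ⌊2 * w.re⌋ := congrArg Prod.fst heq
    have h2 : ⌊2 * w₀.im⌋ = ⌊2 * w.im⌋ := congrArg Prod.snd heq
    have h3 := Int.abs_sub_lt_one_of_floor_eq_floor h1
    have h4 := Int.abs_sub_lt_one_of_floor_eq_floor h2
    rw [abs_lt] at h3 h4
    have h5 : |(w - w₀).re| ≤ 1 / 2 := by
      rw [Complex.sub_re, abs_le]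
      constructor <;> linarith
    have h6 : |(w - w₀).im| ≤ 1 / 2 := by
      rw [Complex.sub_im, abs_le]
      constructor <;> linarith
    have h7 := Complex.norm_le_abs_re_add_abs_im (w - w₀)
    linarith

theorem Cusp.cover {e : Fin 3 → ℕ} {ψ : Fin 3 → ℂ → ℂ} (h : Cusp e ψ) :
    ∃ C : ℕ, ∀ H : ℝ, 2 ≤ H → ∃ S : Finset ℂ, (∀ w ∈ S, w ∈ CD ∧ ‖w‖ ≤ H) ∧
      (S.card : ℝ) ≤ C * (1 + Real.log H) ∧
      ∀ w ∈ CD, ‖w‖ ≤ H → Pt H (cz e ψ) w → ∃ w₀ ∈ S, ‖w - w₀‖ ≤ 1 := by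
  obtain ⟨b, hb, hb0, hb1⟩ := h.idx
  obtain ⟨B, hB⟩ := fv_bd h b
  obtain ⟨C, P, hA⟩ := ann (f := fun q => fv e ψ b q) (fv_diff h b) hB
    (fun c hc => fv_ind h hb hb0 hb1 c hc)
  set L : ℝ := 2 * (1 + (e (b 1) : ℝ) + (e (b 2) : ℝ)) with hL
  have he1 : (0 : ℝ) ≤ (e (b 1) : ℝ) := Nat.cast_nonneg _
  have he2 : (0 : ℝ) ≤ (e (b 2) : ℝ) := Nat.cast_nonneg _
  have hL2 : 2 ≤ L := by rw [hL]; linarith
  have hlogL : 0 ≤ Real.log L := Real.log_nonneg (by linarith)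
  refine ⟨⌈(P : ℝ) * (17 * (4 * (C * (Real.log L + 2)) + 2))⌉₊, ?_⟩
  intro H hH
  have hlogH : 0 ≤ Real.log H := Real.log_nonneg (by linarith)
  set H' : ℝ := L * H ^ 2 with hH'
  have hH2 : 1 ≤ H ^ 2 := one_le_pow₀ (by linarith)
  have hH'2 : 2 ≤ H' := by
    rw [hH']
    nlinarith
  have hH'0 : 0 < H' := by linarith
  have hlogH' : Real.log H' = Real.log L + 2 * Real.log H := by
    rw [hH', Real.log_mul (by linarith) (by positivity), Real.log_pow]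
    push_cast
    ring
  obtain ⟨A, hAc, hApos, hAq⟩ := hA H' hH'2
  set T : Set ℂ := {w | w ∈ CD ∧ ‖w‖ ≤ H ∧ Pt H (cz e ψ) w} with hT
  set R : ℝ := C * (Real.log L + 2 * Real.log H) with hR
  have hR0 : 0 ≤ R := by positivity
  obtain ⟨S, hS1, hS2, hS3⟩ := Cover_net T (A.image Real.log) hR0 (by
    rintro w ⟨hw, hwH, hPt⟩
    refine ⟨hw.2, ?_⟩
    obtain ⟨MA, hdA, hentA, hmapA⟩ := hPt (b 1) (b 0)
    obtain ⟨MB, hdB, hentB, hmapB⟩ := hPt (b 2) (b 0)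
    have hnorm : ‖Complex.exp w‖ = Real.exp w.re := Complex.norm_exp w
    obtain ⟨η, hη, h1, h2⟩ := hAq (Complex.exp w) (Complex.exp_ne_zero w)
      (by rw [hnorm]; exact Real.exp_le_exp.2 hw.1)
      ⟨psi (e (b 1)) (e (b 2)) MA MB, psi_ne_zero hdA hdB, (fun i => by
        refine (psi_le hentA hentB i).trans ?_
        rw [hH', hL]
        push_cast
        rw [abs_of_nonneg he1, abs_of_nonneg he2]), psi_rel hb0 hmapA hmapB⟩
    have hη0 := hApos η hη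
    have hpow : 0 < H' ^ C := pow_pos hH'0 C
    refine ⟨Real.log η, Finset.mem_image_of_mem _ hη, ?_, ?_⟩
    · have h3 := Real.log_le_log (by positivity) h1
      rw [hnorm, Real.log_exp, Real.log_div hη0.ne' hpow.ne', Real.log_pow, hlogH'] at h3
      exact h3
    · have h3 := Real.log_le_log (norm_pos_iff.2 (Complex.exp_ne_zero w)) h2
      rw [hnorm, Real.log_exp, Real.log_mul hη0.ne' hpow.ne', Real.log_pow, hlogH'] at h3
      exact h3)
  refine ⟨S, fun w hw => ⟨(hS1 w hw).1, (hS1 w hw).2.1⟩, ?_, ?_⟩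
  · refine hS2.trans ?_
    have h1 : ((A.image Real.log).card : ℝ) ≤ P := by
      exact_mod_cast Finset.card_image_le.trans hAc
    have h2 : 17 * (4 * R + 2) ≤ 17 * (4 * (C * (Real.log L + 2)) + 2) * (1 + Real.log H) := by
      rw [hR]
      have hC : (0 : ℝ) ≤ C := Nat.cast_nonneg _
      have h3 := mul_nonneg hC hlogL
      have h4 := mul_nonneg h3 hlogH
      nlinarith [mul_nonneg hC hlogH]
    have h5 : 0 ≤ 17 * (4 * R + 2) := by positivity
    have h6 : (P : ℝ) * (17 * (4 * (C * (Real.log L + 2)) + 2)) ≤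
        ((⌈(P : ℝ) * (17 * (4 * (C * (Real.log L + 2)) + 2))⌉₊ : ℕ) : ℝ) := Nat.le_ceil _
    have hP : (0 : ℝ) ≤ P := Nat.cast_nonneg _
    calc ((A.image Real.log).card : ℝ) * (17 * (4 * R + 2)) ≤ P * (17 * (4 * R + 2)) :=
          mul_le_mul_of_nonneg_right h1 h5
      _ ≤ P * (17 * (4 * (C * (Real.log L + 2)) + 2) * (1 + Real.log H)) :=
          mul_le_mul_of_nonneg_left h2 hP
      _ = P * (17 * (4 * (C * (Real.log L + 2)) + 2)) * (1 + Real.log H) := by ring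
      _ ≤ _ := mul_le_mul_of_nonneg_right h6 (by linarith)
  · intro w hw hwH hPt
    exact hS3 w ⟨hw, hwH, hPt⟩

end Pool.Agent.LGO.PW
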