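import Mathlib
import Pool.Agent.LGO.PW.Norm

/-!
# LGO/PW: a compact chart is a family of discs

The discs of radius `3` about the points `w` of the closed disc of radius `1`, `ρ = 1`.  Doubling: use
finitely many fixed closed discs of radius `1 / 4` whose centres form a `1 / 2`-net of the closed disc
of radius `1`: one of them is contained in `closedBall w 1`; apply `lb` to each of them (the functions are
independent on it by the identity theorem on the disc `ball 0 4`), and `nrm_ub` for the upper bound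
(take `c = ‖G‖`, and the maximum of the constants).
-/

namespace Pool.Agent.LGO.PW

open MvPolynomial Metric

/-- independence on every smaller disc -/
theorem Comp.ind_ball {z : Fin 3 → ℂ → ℂ} (h : Comp z) {w : ℂ} {r : ℝ} (hr : 0 < r)
    (hw : ball w r ⊆ ball 0 4) (G : MvPolynomial (Fin 3) ℂ) (hG : G ≠ 0) :
    ∃ s ∈ ball w r, eval (fun a => z a s) G ≠ 0 := by
  by_contra hcon
  push Not at hcon
  have hd : DifferentiableOn ℂ (fun s => eval (fun a => z a s) G) (ball (0 : ℂ) 4) := by
    have he : (fun s => eval (fun a => z a s) G) =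
        fun s => ∑ d ∈ G.support, G.coeff d * ∏ i, z i s ^ d i := by
      funext s
      rw [eval_eq']
    rw [he]
    refine DifferentiableOn.fun_sum fun d _ => ?_
    refine DifferentiableOn.mul (differentiableOn_const _) ?_
    refine DifferentiableOn.fun_finsetProd fun i _ => ?_
    exact (h.an i).pow _
  have han : AnalyticOnNhd ℂ (fun s => eval (fun a => z a s) G) (ball (0 : ℂ) 4) :=
    hd.analyticOnNhd isOpen_ball
  have hw0 : w ∈ ball (0 : ℂ) 4 := hw (mem_ball_self hr)
  have hev : (fun s => eval (fun a => z a s) G) =ᶠ[nhds w] 0 := by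
    filter_upwards [isOpen_ball.mem_nhds (mem_ball_self hr)] with s hs
    exact hcon s hs
  have hz := han.eqOn_zero_of_preconnected_of_eventuallyEq_zero
    (convex_ball (0 : ℂ) 4).isPreconnected hw0 hev
  obtain ⟨s, hs, hne⟩ := h.ind G hG
  exact hne (hz hs)

theorem Comp.fam {z : Fin 3 → ℂ → ℂ} (h : Comp z) :
    Fam (ball 0 4) (closedBall 0 1) z (fun _ => 1) := by
  have hsub : ∀ w ∈ closedBall (0 : ℂ) 1, Metric.ball w 3 ⊆ Metric.ball 0 4 := by
    intro w hw
    refine ball_subset_ball' ?_
    have := mem_closedBall.mp hw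
    linarith
  obtain ⟨Cb, hCb⟩ := h.bd
  refine ⟨isOpen_ball, hsub, h.an, h.im, ⟨max Cb 0, ?_⟩, fun w _ => ⟨one_pos, le_rfl⟩, ?_⟩
  · intro a s hs
    have h1 := hCb a s hs
    have h2 : (0 : ℝ) ≤ max Cb 0 := le_max_right _ _
    have h3 : Cb ≤ max Cb 0 := le_max_left _ _
    nlinarith [norm_nonneg s, mul_nonneg h2 (norm_nonneg s)]
  · intro d
    obtain ⟨t, hts, htf, hcov⟩ := (isCompact_closedBall (0 : ℂ) 1).finite_cover_balls
      (show (0 : ℝ) < 1 / 2 by norm_num)
    -- the constants of the fixed discs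
    have hK : ∀ p ∈ t, ∃ C : ℕ, 0 < C ∧ ∀ G : MvPolynomial (Fin 3) ℂ, G.totalDegree ≤ d →
        ∃ s ∈ closedBall p (1 / 4), nrm G ≤ C * ‖eval (fun a => z a s) G‖ := by
      intro p hp
      have hp1 := mem_closedBall.mp (hts hp)
      have hb : closedBall p (1 / 4) ⊆ Metric.ball (0 : ℂ) 4 := by
        intro x hx
        rw [mem_ball]
        have := dist_triangle x p 0
        have hx' := mem_closedBall.mp hx
        linarith
      refine lb (isCompact_closedBall p (1 / 4)) (fun a => ((h.an a).continuousOn).mono hb) ?_ d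
      intro G hG
      obtain ⟨s, hs, hne⟩ := h.ind_ball (show (0 : ℝ) < 1 / 4 by norm_num)
        (ball_subset_closedBall.trans hb) G hG
      exact ⟨s, ball_subset_closedBall hs, hne⟩
    choose! Cf hCf0 hCf using hK
    obtain ⟨N, hN⟩ : ∃ N : ℕ, ∀ p ∈ t, Cf p ≤ N :=
      ⟨htf.toFinset.sup Cf, fun p hp => Finset.le_sup (htf.mem_toFinset.mpr hp)⟩
    obtain ⟨M, hM⟩ := exists_nat_ge ((max Cb 1) ^ d)
    refine ⟨N + M + 1, by omega, ?_⟩
    intro w hw G hG hdeg
    have hpos := nrm_pos hG
    have hC1 : (1 : ℝ) ≤ ((N + M + 1 : ℕ) : ℝ) := by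
      push_cast
      have : (0 : ℝ) ≤ (N : ℝ) := Nat.cast_nonneg _
      have : (0 : ℝ) ≤ (M : ℝ) := Nat.cast_nonneg _
      linarith
    refine ⟨nrm G, hpos, ?_, ?_, ?_⟩
    · rw [one_pow, mul_one]
      have h1 : (1 : ℝ) ≤ (1 + ‖w‖) ^ (N + M + 1) := one_le_pow₀ (by linarith [norm_nonneg w])
      have h2 : (1 : ℝ) ≤ ((N + M + 1 : ℕ) : ℝ) * (1 + ‖w‖) ^ (N + M + 1) := by
        nlinarith
      nlinarith
    · intro s hs
      have hs4 := hsub w hw hs
      have h1 := nrm_ub hdeg (x := fun a => z a s) (le_max_right Cb 1)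
        (fun a => (hCb a s hs4).trans (le_max_left _ _))
      refine h1.trans ?_
      rw [mul_comm]
      refine mul_le_mul_of_nonneg_right (hM.trans ?_) hpos.le
      push_cast
      have : (0 : ℝ) ≤ (N : ℝ) := Nat.cast_nonneg _
      linarith
    · obtain ⟨p, hp, hwp⟩ : ∃ p ∈ t, w ∈ Metric.ball p (1 / 2) := by
        have := hcov hw
        simpa using this
      obtain ⟨s, hs, hle⟩ := hCf p hp G hdeg
      refine ⟨s, ?_, hle.trans ?_⟩
      · rw [mem_closedBall]
        have h1 := dist_triangle s p w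
        have h2 := mem_closedBall.mp hs
        have h3 := mem_ball.mp hwp
        rw [dist_comm] at h3
        linarith
      · refine mul_le_mul_of_nonneg_right ?_ (norm_nonneg _)
        have h1 : Cf p ≤ N + M + 1 := (hN p hp).trans (by omega)
        exact_mod_cast h1

end Pool.Agent.LGO.PW
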