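import Mathlib
import Pool.Agent.LGO.PW.Norm

/-!
# LGO/PW: expansion of a polynomial in the functions of a cusp chart

`G(z(w)) = ∑ₘ (∑_{l ≤ d} g l m w ^ l) e ^ (m w)` on the left half plane.  The coefficients `g l m` depend
linearly on `G` (of degree `≤ d`), they are bounded by `C ‖G‖` (Cauchy estimates: the `ψ a` are bounded
on the unit disc), and `‖G‖ ≤ C max_{l ≤ d, m ≤ M} |g l m|`.

Proof.  Substitute `z a = e a w / (2 π i) + ψ a (q)`: `G(z) = ∑_{l ≤ d} w ^ l g_l(q)` where `g_l` is a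
polynomial in the `ψ a (q)`, linear in the coefficients of `G`, so holomorphic on the unit disc and
bounded by `C ‖G‖`; `g l m` is the `m`-th Taylor coefficient of `g_l`.  If all `g l m` vanish then
`G(z(w)) = 0` on `LH`, so `G = 0` by `Cusp.ind`.  On the finite dimensional space of the `G` of degree
`≤ d` the subspaces `{g l m = 0 for l ≤ d, m ≤ M}` decrease with intersection `0`, so one of them is `0`,
and an injective linear map between finite dimensional normed spaces is bounded below (the norm `nrm`).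
-/

namespace Pool.Agent.LGO.PW

open MvPolynomial Metric

/-- holomorphic and bounded on the unit disc -/
private def CuspExp_Good (f : ℂ → ℂ) : Prop :=
  DifferentiableOn ℂ f (ball 0 1) ∧ ∃ C : ℝ, ∀ q ∈ ball (0 : ℂ) 1, ‖f q‖ ≤ C

private theorem CuspExp_const (c : ℂ) : CuspExp_Good (fun _ => c) :=
  ⟨differentiableOn_const c, ‖c‖, fun _ _ => le_rfl⟩

private theorem CuspExp_add {f g : ℂ → ℂ} (hf : CuspExp_Good f) (hg : CuspExp_Good g) :
    CuspExp_Good (fun q => f q + g q) := by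
  obtain ⟨hf1, C, hC⟩ := hf
  obtain ⟨hg1, D, hD⟩ := hg
  exact ⟨hf1.add hg1, C + D, fun q hq => (norm_add_le _ _).trans (add_le_add (hC q hq) (hD q hq))⟩

private theorem CuspExp_mul {f g : ℂ → ℂ} (hf : CuspExp_Good f) (hg : CuspExp_Good g) :
    CuspExp_Good (fun q => f q * g q) := by
  obtain ⟨hf1, C, hC⟩ := hf
  obtain ⟨hg1, D, hD⟩ := hg
  refine ⟨hf1.mul hg1, C * D, fun q hq => ?_⟩
  rw [norm_mul]
  exact mul_le_mul (hC q hq) (hD q hq) (norm_nonneg _) ((norm_nonneg _).trans (hC q hq))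

private theorem CuspExp_sum {ι : Type*} (s : Finset ι) (f : ι → ℂ → ℂ)
    (hf : ∀ i, CuspExp_Good (f i)) : CuspExp_Good (fun q => ∑ i ∈ s, f i q) := by
  classical
  induction s using Finset.induction_on with
  | empty => simpa using CuspExp_const 0
  | insert i s hi ih =>
    have := CuspExp_add (hf i) ih
    simpa [Finset.sum_insert hi] using this

/-- all coefficients are holomorphic and bounded -/
private def CuspExp_PGood (A : ℂ → Polynomial ℂ) : Prop :=
  ∀ l, CuspExp_Good (fun q => (A q).coeff l)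

private theorem CuspExp_pmul {A B : ℂ → Polynomial ℂ} (hA : CuspExp_PGood A)
    (hB : CuspExp_PGood B) : CuspExp_PGood (fun q => A q * B q) := by
  intro l
  simp only [Polynomial.coeff_mul]
  exact CuspExp_sum _ (fun (x : ℕ × ℕ) q => (A q).coeff x.1 * (B q).coeff x.2)
    fun x => CuspExp_mul (hA x.1) (hB x.2)

private theorem CuspExp_pone : CuspExp_PGood (fun _ => 1) := fun _ => CuspExp_const _

private theorem CuspExp_ppow {A : ℂ → Polynomial ℂ} (hA : CuspExp_PGood A) (n : ℕ) :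
    CuspExp_PGood (fun q => A q ^ n) := by
  induction n with
  | zero => simpa using CuspExp_pone
  | succ n ih =>
    simp only [pow_succ]
    exact CuspExp_pmul ih hA

private theorem CuspExp_pprod {ι : Type*} (s : Finset ι) (A : ι → ℂ → Polynomial ℂ)
    (hA : ∀ i, CuspExp_PGood (A i)) : CuspExp_PGood (fun q => ∏ i ∈ s, A i q) := by
  classical
  induction s using Finset.induction_on with
  | empty => simpa using CuspExp_pone
  | insert i s hi ih =>
    have := CuspExp_pmul (hA i) ih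
    simpa [Finset.prod_insert hi] using this

/-- the monomial with exponent `k` as a polynomial in `w` -/
private noncomputable def CuspExp_Q (e : Fin 3 → ℕ) (ψ : Fin 3 → ℂ → ℂ) (k : Fin 3 →₀ ℕ)
    (q : ℂ) : Polynomial ℂ :=
  ∏ a, (Polynomial.C ((e a : ℂ) / (2 * Real.pi * Complex.I)) * Polynomial.X +
    Polynomial.C (ψ a q)) ^ (k a)

private theorem CuspExp_Qgood {e : Fin 3 → ℕ} {ψ : Fin 3 → ℂ → ℂ} (h : Cusp e ψ)
    (k : Fin 3 →₀ ℕ) : CuspExp_PGood (CuspExp_Q e ψ k) := by
  refine CuspExp_pprod _ _ fun a => CuspExp_ppow ?_ _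
  intro l
  simp only [Polynomial.coeff_add]
  refine CuspExp_add (CuspExp_const _) ?_
  rcases Nat.eq_zero_or_pos l with rfl | hl
  · simp only [Polynomial.coeff_C_zero]
    obtain ⟨C, hC⟩ := h.bd
    exact ⟨h.an a, C, fun q hq => hC a q hq⟩
  · simp only [Polynomial.coeff_C, hl.ne', if_false]
    exact CuspExp_const 0

private theorem CuspExp_Qdeg (e : Fin 3 → ℕ) (ψ : Fin 3 → ℂ → ℂ) (k : Fin 3 →₀ ℕ) (q : ℂ) :
    (CuspExp_Q e ψ k q).natDegree ≤ k.degree := by
  refine (Polynomial.natDegree_prod_le _ _).trans ?_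
  rw [Finsupp.degree_eq_sum]
  refine Finset.sum_le_sum fun a _ => ?_
  refine Polynomial.natDegree_pow_le.trans ?_
  have := Polynomial.natDegree_linear_le (a := (e a : ℂ) / (2 * Real.pi * Complex.I)) (b := ψ a q)
  exact (Nat.mul_le_mul_left _ this).trans (by simp)

private theorem CuspExp_Qeval (e : Fin 3 → ℕ) (ψ : Fin 3 → ℂ → ℂ) (k : Fin 3 →₀ ℕ) (w : ℂ) :
    (CuspExp_Q e ψ k (Complex.exp w)).eval w = ∏ a, (cz e ψ a w) ^ (k a) := by
  rw [CuspExp_Q, Polynomial.eval_prod]
  refine Finset.prod_congr rfl fun a _ => ?_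
  rw [Polynomial.eval_pow, cz]
  congr 1
  simp only [Polynomial.eval_add, Polynomial.eval_mul, Polynomial.eval_C, Polynomial.eval_X]
  ring

/-- Taylor coefficients -/
private noncomputable def CuspExp_t (f : ℂ → ℂ) (m : ℕ) : ℂ :=
  (m.factorial : ℂ)⁻¹ * iteratedDeriv m f 0

private theorem CuspExp_thas {f : ℂ → ℂ} (hf : CuspExp_Good f) {q : ℂ}
    (hq : q ∈ ball (0 : ℂ) 1) : HasSum (fun m : ℕ => CuspExp_t f m * q ^ m) (f q) := by
  have h := Complex.hasSum_taylorSeries_on_ball hf.1 hq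
  refine h.congr_fun ?_ |> fun h => h
  · intro m
    simp only [CuspExp_t, smul_eq_mul, sub_zero]
    ring

private theorem CuspExp_tbd {f : ℂ → ℂ} (hf : CuspExp_Good f) :
    ∃ C : ℝ, 0 ≤ C ∧ ∀ m : ℕ, ‖CuspExp_t f m‖ ≤ C := by
  obtain ⟨hf1, C, hC⟩ := hf
  have hC0 : 0 ≤ C := (norm_nonneg _).trans (hC 0 (mem_ball_self one_pos))
  refine ⟨C, hC0, fun m => ?_⟩
  have key : ∀ R : ℝ, 0 < R → R < 1 → ‖CuspExp_t f m‖ ≤ C / R ^ m := by
    intro R hR hR1
    have hd : DiffContOnCl ℂ f (ball 0 R) := by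
      refine (hf1.mono ?_).diffContOnCl_ball (R := R) (U := ball 0 1) ?_ |> fun h => h
      · exact subset_rfl
      · exact closedBall_subset_ball hR1
    have h1 := Complex.norm_iteratedDeriv_le_of_forall_mem_sphere_norm_le m hR hd
      (C := C) fun z hz => hC z (by
        rw [mem_sphere_iff_norm, sub_zero] at hz
        rw [mem_ball_zero_iff, hz]
        exact hR1)
    have hm : (0 : ℝ) < m.factorial := by exact_mod_cast m.factorial_pos
    rw [CuspExp_t, norm_mul, norm_inv, Complex.norm_natCast]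
    calc (m.factorial : ℝ)⁻¹ * ‖iteratedDeriv m f 0‖
        ≤ (m.factorial : ℝ)⁻¹ * (m.factorial * C / R ^ m) :=
          mul_le_mul_of_nonneg_left h1 (by positivity)
      _ = C / R ^ m := by field_simp
  have hlim : Filter.Tendsto (fun R : ℝ => C / R ^ m) (nhdsWithin 1 (Set.Iio 1))
      (nhds (C / 1 ^ m)) := by
    apply Filter.Tendsto.mono_left _ nhdsWithin_le_nhds
    exact (continuousAt_const.div (continuousAt_id.pow m) (by simp)).tendsto
  rw [one_pow, div_one] at hlim
  refine ge_of_tendsto hlim ?_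
  have h2 : Set.Ioo (0 : ℝ) 1 ∈ nhdsWithin (1 : ℝ) (Set.Iio 1) :=
    Ioo_mem_nhdsLT one_pos
  filter_upwards [h2] with R hR
  exact key R hR.1 hR.2

private theorem CuspExp_nrm {d : ℕ} {G : MvPolynomial (Fin 3) ℂ} (hG : G.totalDegree ≤ d)
    {S : Finset (Fin 3 →₀ ℕ)} (hS : ∀ k, k ∈ S ↔ k.degree ≤ d) :
    G.support ⊆ S := by
  intro k hk
  rw [hS]
  have := MvPolynomial.le_totalDegree hk
  rw [Finsupp.degree_eq_sum]
  rw [Finsupp.sum_fintype _ _ (fun _ => rfl)] at this
  exact this.trans hG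

theorem cusp_exp {e : Fin 3 → ℕ} {ψ : Fin 3 → ℂ → ℂ} (h : Cusp e ψ) (d : ℕ) :
    ∃ (g : MvPolynomial (Fin 3) ℂ → ℕ → ℕ → ℂ) (C M : ℕ), 0 < C ∧
      (∀ G : MvPolynomial (Fin 3) ℂ, G.totalDegree ≤ d →
        (∀ w ∈ LH, HasSum (fun m : ℕ => ∑ l ∈ Finset.range (d + 1), g G l m * w ^ l * Complex.exp (m * w))
          (eval (fun a => cz e ψ a w) G)) ∧
        (∀ l m, ‖g G l m‖ ≤ C * nrm G) ∧
        ∃ l ≤ d, ∃ m ≤ M, nrm G ≤ C * ‖g G l m‖) := by
  classical
  set S : Finset (Fin 3 →₀ ℕ) := (Finsupp.finite_of_degree_le (σ := Fin 3) d).toFinset with hSdef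
  have hS : ∀ k : Fin 3 →₀ ℕ, k ∈ S ↔ k.degree ≤ d := by
    intro k
    rw [hSdef, Set.Finite.mem_toFinset, Set.mem_ofPred_eq]
  set T : (Fin 3 →₀ ℕ) → ℕ → ℕ → ℂ :=
    fun k l m => CuspExp_t (fun q => (CuspExp_Q e ψ k q).coeff l) m with hT
  set g : MvPolynomial (Fin 3) ℂ → ℕ → ℕ → ℂ :=
    fun G l m => if l ≤ d then ∑ k ∈ S, G.coeff k * T k l m else 0 with hg
  have hgl : ∀ G l m, l ≤ d → g G l m = ∑ k ∈ S, G.coeff k * T k l m := by
    intro G l m hl
    simp only [hg, if_pos hl]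
  have hnrm : ∀ G : MvPolynomial (Fin 3) ℂ, G.totalDegree ≤ d →
      nrm G = ∑ k ∈ S, ‖G.coeff k‖ := by
    intro G hG
    rw [nrm]
    refine Finset.sum_subset (CuspExp_nrm hG hS) fun k _ hk => ?_
    rw [MvPolynomial.notMem_support_iff.1 hk, norm_zero]
  -- the expansion
  have hexp : ∀ G : MvPolynomial (Fin 3) ℂ, G.totalDegree ≤ d → ∀ w ∈ LH,
      HasSum (fun m : ℕ => ∑ l ∈ Finset.range (d + 1), g G l m * w ^ l * Complex.exp (m * w))
        (eval (fun a => cz e ψ a w) G) := by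
    intro G hG w hw
    set q : ℂ := Complex.exp w with hq
    have hqb : q ∈ ball (0 : ℂ) 1 := by
      rw [mem_ball_zero_iff, hq, Complex.norm_exp]
      have : w.re < 0 := hw
      exact Real.exp_lt_one_iff.2 this
    have e1 : eval (fun a => cz e ψ a w) G =
        ∑ l ∈ Finset.range (d + 1), (∑ k ∈ S, G.coeff k * (CuspExp_Q e ψ k q).coeff l) * w ^ l := by
      rw [MvPolynomial.eval_eq']
      have e2 : ∑ k ∈ G.support, G.coeff k * ∏ a, (cz e ψ a w) ^ (k a) =
          ∑ k ∈ S, G.coeff k * ∏ a, (cz e ψ a w) ^ (k a) := by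
        refine Finset.sum_subset (CuspExp_nrm hG hS) fun k _ hk => ?_
        rw [MvPolynomial.notMem_support_iff.1 hk, zero_mul]
      rw [e2]
      simp only [Finset.sum_mul]
      rw [Finset.sum_comm]
      refine Finset.sum_congr rfl fun k hk => ?_
      rw [← CuspExp_Qeval, Polynomial.eval_eq_sum_range' (n := d + 1)
        (lt_of_le_of_lt (CuspExp_Qdeg e ψ k _) (Nat.lt_succ_of_le ((hS k).1 hk))), Finset.mul_sum]
      refine Finset.sum_congr rfl fun l _ => ?_
      rw [hq]
      ring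
    rw [e1]
    refine hasSum_sum fun l hl => ?_
    have hl' : l ≤ d := Nat.lt_succ_iff.1 (Finset.mem_range.1 hl)
    have h1 : HasSum (fun m : ℕ => ∑ k ∈ S, G.coeff k * (T k l m * q ^ m))
        (∑ k ∈ S, G.coeff k * (CuspExp_Q e ψ k q).coeff l) :=
      hasSum_sum fun k _ => (CuspExp_thas (CuspExp_Qgood h k l) hqb).mul_left _
    have h2 := h1.mul_right (w ^ l)
    refine h2.congr_fun ?_ |> fun h => h
    intro m
    rw [hgl G l m hl', Complex.exp_nat_mul, ← hq]
    simp only [Finset.sum_mul]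
    refine Finset.sum_congr rfl fun k _ => ?_
    ring
  -- bounds for the Taylor coefficients
  have hbd : ∀ (k : Fin 3 →₀ ℕ) (l : ℕ), ∃ C : ℝ, 0 ≤ C ∧ ∀ m, ‖T k l m‖ ≤ C :=
    fun k l => CuspExp_tbd (CuspExp_Qgood h k l)
  choose B hB0 hB using hbd
  set B1 : ℝ := ∑ k ∈ S, ∑ l ∈ Finset.range (d + 1), B k l with hB1
  have hBle : ∀ k ∈ S, ∀ l ≤ d, ∀ m, ‖T k l m‖ ≤ B1 := by
    intro k hk l hl m
    refine (hB k l m).trans ?_
    have h1 : B k l ≤ ∑ l ∈ Finset.range (d + 1), B k l :=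
      Finset.single_le_sum (f := fun l => B k l) (fun l _ => hB0 k l)
        (Finset.mem_range.2 (Nat.lt_succ_of_le hl))
    refine h1.trans ?_
    exact Finset.single_le_sum (f := fun k => ∑ l ∈ Finset.range (d + 1), B k l)
      (fun k _ => Finset.sum_nonneg fun l _ => hB0 k l) hk
  have hB10 : 0 ≤ B1 := Finset.sum_nonneg fun k _ => Finset.sum_nonneg fun l _ => hB0 k l
  -- linear functionals
  let L : Fin (d + 1) × ℕ → (S → ℂ) →ₗ[ℂ] ℂ := fun i =>
    ∑ k : S, T k i.1 i.2 • LinearMap.proj k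
  have hL : ∀ (i : Fin (d + 1) × ℕ) (v : S → ℂ), L i v = ∑ k : S, v k * T k i.1 i.2 := by
    intro i v
    simp only [L, LinearMap.sum_apply, LinearMap.smul_apply, LinearMap.proj_apply, smul_eq_mul]
    exact Finset.sum_congr rfl fun k _ => mul_comm _ _
  have hLg : ∀ (i : Fin (d + 1) × ℕ) (G : MvPolynomial (Fin 3) ℂ),
      L i (fun k : S => G.coeff k) = g G i.1 i.2 := by
    intro i G
    rw [hL, hgl G i.1 i.2 (Nat.lt_succ_iff.1 i.1.2)]
    exact Finset.sum_coe_sort S (fun k => G.coeff k * T k i.1 i.2)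
  have hker : ∀ k : S, (⨅ i, LinearMap.ker (L i)) ≤
      LinearMap.ker (LinearMap.proj (R := ℂ) (φ := fun _ : S => ℂ) k) := by
    intro k v hv
    rw [Submodule.mem_iInf] at hv
    simp only [LinearMap.mem_ker] at hv
    rw [LinearMap.mem_ker, LinearMap.proj_apply]
    set G : MvPolynomial (Fin 3) ℂ := ∑ k : S, monomial (k : Fin 3 →₀ ℕ) (v k) with hGdef
    have hc : ∀ k : S, G.coeff k = v k := by
      intro k
      rw [hGdef, MvPolynomial.coeff_sum, Finset.sum_eq_single k]
      · rw [MvPolynomial.coeff_monomial, if_pos rfl]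
      · intro k' _ hk'
        rw [MvPolynomial.coeff_monomial, if_neg]
        intro e
        exact hk' (Subtype.ext e)
      · intro hk
        exact absurd (Finset.mem_univ k) hk
    have hdeg : G.totalDegree ≤ d := by
      rw [hGdef]
      refine MvPolynomial.totalDegree_finsetSum_le fun k _ => ?_
      refine (MvPolynomial.totalDegree_monomial_le _ _).trans ?_
      have := (hS k).1 k.2
      rw [Finsupp.degree_eq_sum] at this
      rw [Finsupp.sum_fintype _ _ (fun _ => rfl)]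
      exact this
    have hG0 : G = 0 := by
      by_contra hne
      obtain ⟨w, hw, hw2⟩ := h.ind G hne
      apply hw2
      have h1 := hexp G hdeg w hw
      have h2 : (fun m : ℕ => ∑ l ∈ Finset.range (d + 1), g G l m * w ^ l * Complex.exp (m * w)) =
          fun _ => 0 := by
        funext m
        refine Finset.sum_eq_zero fun l hl => ?_
        have h3 := hLg (⟨l, Finset.mem_range.1 hl⟩, m) G
        have h4 : (fun k : S => G.coeff k) = v := funext hc
        rw [h4, hv] at h3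
        simp only at h3
        rw [← h3, zero_mul, zero_mul]
      rw [h2] at h1
      exact h1.unique hasSum_zero
    rw [← hc k, hG0, MvPolynomial.coeff_zero]
  have hspan : ∀ k : S, ∃ c : (Fin (d + 1) × ℕ) →₀ ℂ, (c.sum fun i a => a • L i) =
      LinearMap.proj (R := ℂ) (φ := fun _ : S => ℂ) k := fun k =>
    Finsupp.mem_span_range_iff_exists_finsupp.1
      (FiniteDimensional.mem_span_of_iInf_ker_le_ker (hker k))
  choose c hc using hspan
  set M : ℕ := Finset.univ.sup fun k : S => (c k).support.sup fun i => i.2 with hM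
  set C2 : ℝ := ∑ k : S, ∑ i ∈ (c k).support, ‖c k i‖ with hC2
  have hC20 : 0 ≤ C2 := Finset.sum_nonneg fun k _ => Finset.sum_nonneg fun i _ => norm_nonneg _
  obtain ⟨C, hC⟩ := exists_nat_ge (max B1 C2)
  refine ⟨g, C + 1, M, Nat.succ_pos C, fun G hG => ⟨hexp G hG, ?_, ?_⟩⟩
  · intro l m
    by_cases hl : l ≤ d
    · rw [hgl G l m hl]
      calc ‖∑ k ∈ S, G.coeff k * T k l m‖ ≤ ∑ k ∈ S, ‖G.coeff k * T k l m‖ := norm_sum_le _ _
        _ ≤ ∑ k ∈ S, ‖G.coeff k‖ * B1 := by
            refine Finset.sum_le_sum fun k hk => ?_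
            rw [norm_mul]
            exact mul_le_mul_of_nonneg_left (hBle k hk l hl m) (norm_nonneg _)
        _ = B1 * nrm G := by rw [hnrm G hG, ← Finset.sum_mul, mul_comm]
        _ ≤ ((C + 1 : ℕ) : ℝ) * nrm G := by
            refine mul_le_mul_of_nonneg_right ?_ (nrm_nonneg G)
            push_cast
            linarith [(le_max_left B1 C2).trans hC]
    · have : g G l m = 0 := by simp only [hg, if_neg hl]
      rw [this, norm_zero]
      exact mul_nonneg (by positivity) (nrm_nonneg G)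
  · obtain ⟨x, hx, hmax⟩ := Finset.exists_max_image
      ((Finset.range (d + 1)) ×ˢ (Finset.range (M + 1))) (fun x => ‖g G x.1 x.2‖)
      ⟨(0, 0), by simp⟩
    rw [Finset.mem_product, Finset.mem_range, Finset.mem_range] at hx
    refine ⟨x.1, Nat.lt_succ_iff.1 hx.1, x.2, Nat.lt_succ_iff.1 hx.2, ?_⟩
    have h1 : ∀ k : S, ‖G.coeff k‖ ≤ (∑ i ∈ (c k).support, ‖c k i‖) * ‖g G x.1 x.2‖ := by
      intro k
      have h2 := LinearMap.congr_fun (hc k) (fun k : S => G.coeff k)
      rw [LinearMap.proj_apply, Finsupp.sum, LinearMap.sum_apply] at h2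
      simp only [LinearMap.smul_apply, smul_eq_mul, hLg] at h2
      rw [← h2, Finset.sum_mul]
      refine (norm_sum_le _ _).trans (Finset.sum_le_sum fun i hi => ?_)
      rw [norm_mul]
      refine mul_le_mul_of_nonneg_left ?_ (norm_nonneg _)
      refine hmax (i.1, i.2) ?_
      rw [Finset.mem_product, Finset.mem_range, Finset.mem_range]
      refine ⟨i.1.2, Nat.lt_succ_of_le ?_⟩
      have h3 : i.2 ≤ (c k).support.sup fun i => i.2 :=
        Finset.le_sup (f := fun i : Fin (d + 1) × ℕ => i.2) hi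
      exact h3.trans (Finset.le_sup (f := fun k : S => (c k).support.sup fun i => i.2)
        (Finset.mem_univ k))
    calc nrm G = ∑ k : S, ‖G.coeff k‖ := by
          rw [hnrm G hG]
          exact (Finset.sum_coe_sort S (fun k => ‖G.coeff k‖)).symm
      _ ≤ ∑ k : S, (∑ i ∈ (c k).support, ‖c k i‖) * ‖g G x.1 x.2‖ :=
          Finset.sum_le_sum fun k _ => h1 k
      _ = C2 * ‖g G x.1 x.2‖ := by rw [← Finset.sum_mul]
      _ ≤ ((C + 1 : ℕ) : ℝ) * ‖g G x.1 x.2‖ := by
          refine mul_le_mul_of_nonneg_right ?_ (norm_nonneg _)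
          push_cast
          linarith [(le_max_right B1 C2).trans hC]

end Pool.Agent.LGO.PW
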