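import Mathlib
import Pool.Agent.LGO.PW.CuspExp

/-!
# LGO/PW: a cusp chart is a family of discs

`ρ w = |e ^ w| = exp (Re w)`, centres `CD`: `Re w ≤ -4`, `|Im w| ≤ π`.

`Cusp.fam`, doubling.  Let `q = e ^ w`, `f(s) = G(z(w + s)) = ∑ₘ q ^ m e ^ (m s) ∑_l g l m (w + s) ^ l`
(`cusp_exp`).  Main part `m ≤ M`: a polynomial `G'` of degree `≤ M + d` in `s, e ^ s`, `c := nrm G'`.
`c ≥ |q| ^ M ‖G‖ / (C (1 + |w|) ^ d)`: the coefficients with respect to `(w + s) ^ l` are obtained from the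
coefficients with respect to `s ^ l` by a substitution `s ↦ s - w`, which multiplies the `ℓ¹` norm at
most by `(1 + |w|) ^ d`; and some `|g l m| ≥ ‖G‖ / C` with `m ≤ M`.
Tail `m > M`, `|s| ≤ 3`: at most `C ‖G‖ (|w| + 4) ^ d ∑_{m > M} (|q| e ^ 3) ^ m ≤ C' ‖G‖ (1 + |w|) ^ d |q| ^ (M + 1)`
(`|q| e ^ 3 ≤ e ^ (-1)`), so at most `C'' |q| (1 + |w|) ^ (2 d) c`; if `|Re w| ≥ T` with `T` large
depending on `C''` this is small (`|Im w| ≤ π`), and `exps` for `G'` gives both bounds.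
For `-T ≤ Re w ≤ -4`, `|Im w| ≤ π`: finitely many fixed closed discs of radius `1 / 4` as in `FamC.lean`,
with `lb` (the functions are independent on every disc in `LH` by the identity theorem), `c = ‖G‖`.
-/

namespace Pool.Agent.LGO.PW

open MvPolynomial Metric

private theorem FamQ_LH_open : IsOpen LH := isOpen_lt Complex.continuous_re continuous_const

private theorem FamQ_LH_conv : Convex ℝ LH := convex_halfSpace_re_lt 0

private theorem FamQ_exp_mem {w : ℂ} (hw : w ∈ LH) : Complex.exp w ∈ ball (0 : ℂ) 1 := by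
  rw [mem_ball_zero_iff, Complex.norm_exp]
  exact Real.exp_lt_one_iff.2 hw

private theorem FamQ_cz_diff {e : Fin 3 → ℕ} {ψ : Fin 3 → ℂ → ℂ} (h : Cusp e ψ) (a : Fin 3) :
    DifferentiableOn ℂ (cz e ψ a) LH := by
  have h1 : DifferentiableOn ℂ (fun w : ℂ => ψ a (Complex.exp w)) LH :=
    (h.an a).comp Complex.differentiable_exp.differentiableOn fun w hw => FamQ_exp_mem hw
  have h2 : DifferentiableOn ℂ (fun w : ℂ => (e a : ℂ) * w / (2 * Real.pi * Complex.I)) LH := by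
    fun_prop
  exact h2.add h1

private theorem FamQ_eval_diff {e : Fin 3 → ℕ} {ψ : Fin 3 → ℂ → ℂ} (h : Cusp e ψ)
    (G : MvPolynomial (Fin 3) ℂ) :
    DifferentiableOn ℂ (fun w => eval (fun a => cz e ψ a w) G) LH := by
  induction G using MvPolynomial.induction_on with
  | C a => simp
  | add p q hp hq =>
    simp only [map_add]
    exact hp.add hq
  | mul_X p i hp =>
    simp only [map_mul, eval_X]
    exact hp.mul (FamQ_cz_diff h i)

/-- independence on every disc -/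
theorem Cusp.ind_ball {e : Fin 3 → ℕ} {ψ : Fin 3 → ℂ → ℂ} (h : Cusp e ψ) {w : ℂ} {r : ℝ} (hr : 0 < r)
    (hw : ball w r ⊆ LH) (G : MvPolynomial (Fin 3) ℂ) (hG : G ≠ 0) :
    ∃ s ∈ ball w r, eval (fun a => cz e ψ a s) G ≠ 0 := by
  by_contra hcon
  push Not at hcon
  obtain ⟨s, hs, hs2⟩ := h.ind G hG
  apply hs2
  have han : AnalyticOnNhd ℂ (fun w => eval (fun a => cz e ψ a w) G) LH :=
    (FamQ_eval_diff h G).analyticOnNhd FamQ_LH_open
  have hev : (fun w => eval (fun a => cz e ψ a w) G) =ᶠ[nhds w] 0 := by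
    filter_upwards [ball_mem_nhds w hr] with x hx
    exact hcon x hx
  exact han.eqOn_zero_of_preconnected_of_eventuallyEq_zero FamQ_LH_conv.isPreconnected
    (hw (mem_ball_self hr)) hev hs

private theorem FamQ_size {e : Fin 3 → ℕ} {ψ : Fin 3 → ℂ → ℂ} (h : Cusp e ψ) :
    ∃ C : ℝ, 0 ≤ C ∧ ∀ a, ∀ s ∈ LH, ‖cz e ψ a s‖ ≤ C * (1 + ‖s‖) := by
  obtain ⟨C, hC⟩ := h.bd
  have hC0 : 0 ≤ C := (norm_nonneg _).trans (hC 0 0 (mem_ball_self one_pos))
  have hpi : (0 : ℝ) < 2 * Real.pi := by positivity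
  refine ⟨(∑ a, (e a : ℝ)) / (2 * Real.pi) + C, by positivity, fun a s hs => ?_⟩
  have h1 : ‖(e a : ℂ) * s / (2 * Real.pi * Complex.I)‖ = (e a : ℝ) * ‖s‖ / (2 * Real.pi) := by
    rw [norm_div, norm_mul, norm_mul, norm_mul, Complex.norm_I, Complex.norm_natCast]
    simp [abs_of_pos Real.pi_pos]
  have h2 : (e a : ℝ) ≤ ∑ a, (e a : ℝ) :=
    Finset.single_le_sum (f := fun a => (e a : ℝ)) (fun _ _ => Nat.cast_nonneg _) (Finset.mem_univ a)
  calc ‖cz e ψ a s‖ ≤ ‖(e a : ℂ) * s / (2 * Real.pi * Complex.I)‖ + ‖ψ a (Complex.exp s)‖ :=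
        norm_add_le _ _
    _ ≤ (∑ a, (e a : ℝ)) * ‖s‖ / (2 * Real.pi) + C := by
        rw [h1]
        refine add_le_add ?_ (hC a _ (FamQ_exp_mem hs))
        exact div_le_div_of_nonneg_right (mul_le_mul_of_nonneg_right h2 (norm_nonneg _)) hpi.le
    _ = (∑ a, (e a : ℝ)) / (2 * Real.pi) * ‖s‖ + C * 1 := by ring
    _ ≤ (∑ a, (e a : ℝ)) / (2 * Real.pi) * (1 + ‖s‖) + C * (1 + ‖s‖) := by
        have := norm_nonneg s
        refine add_le_add (mul_le_mul_of_nonneg_left (by linarith) (by positivity))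
          (mul_le_mul_of_nonneg_left (by linarith) hC0)
    _ = _ := by ring

private theorem FamQ_ball_LH {w : ℂ} (hw : w.re ≤ -4) : ball w 3 ⊆ LH := by
  intro s hs
  rw [mem_ball, dist_eq_norm] at hs
  have h1 : |(s - w).re| ≤ ‖s - w‖ := Complex.abs_re_le_norm _
  have h2 := (abs_le.1 h1).2
  rw [Complex.sub_re] at h2
  show s.re < 0
  linarith

/-- the doubling inequality for the centres near the imaginary axis -/
theorem Cusp.dbl_near {e : Fin 3 → ℕ} {ψ : Fin 3 → ℂ → ℂ} (h : Cusp e ψ) (d : ℕ) (T : ℝ) :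
    ∃ C : ℕ, 0 < C ∧ ∀ w : ℂ, w.re ≤ -4 → -T ≤ w.re → |w.im| ≤ Real.pi →
      ∀ G : MvPolynomial (Fin 3) ℂ, G.totalDegree ≤ d →
      (∀ s ∈ ball w 3, ‖eval (fun a => cz e ψ a s) G‖ ≤ C * nrm G) ∧
      ∃ s ∈ closedBall w 1, nrm G ≤ C * ‖eval (fun a => cz e ψ a s) G‖ := by
  set K : Set ℂ := {w : ℂ | w.re ≤ -4 ∧ -T ≤ w.re ∧ |w.im| ≤ Real.pi} with hK
  have hKb : ∀ w ∈ K, ‖w‖ ≤ |T| + Real.pi := by
    rintro w ⟨h1, h2, h3⟩
    refine (Complex.norm_le_abs_re_add_abs_im w).trans (add_le_add ?_ h3)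
    rw [abs_of_nonpos (by linarith)]
    have := le_abs_self T
    linarith
  have hKc : IsCompact K := by
    refine Metric.isCompact_of_isClosed_isBounded ?_ ?_
    · exact (isClosed_le Complex.continuous_re continuous_const).inter
        ((isClosed_le continuous_const Complex.continuous_re).inter
          (isClosed_le (continuous_abs.comp Complex.continuous_im) continuous_const))
    · exact isBounded_iff_forall_norm_le.2 ⟨_, hKb⟩
  have hcb : ∀ v ∈ K, closedBall v (1 / 4) ⊆ LH := fun v hv =>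
    (closedBall_subset_ball (by norm_num)).trans (FamQ_ball_LH hv.1)
  have hlb : ∀ v ∈ K, ∃ C : ℕ, 0 < C ∧ ∀ G : MvPolynomial (Fin 3) ℂ, G.totalDegree ≤ d →
      ∃ s ∈ closedBall v (1 / 4), nrm G ≤ C * ‖eval (fun a => cz e ψ a s) G‖ := by
    intro v hv
    refine lb (isCompact_closedBall v (1 / 4)) (fun a => ?_) (fun G hG => ?_) d
    · exact (FamQ_cz_diff h a).continuousOn.mono (hcb v hv)
    · obtain ⟨s, hs, hs2⟩ := h.ind_ball (w := v) (r := 1 / 4) (by norm_num)
        (ball_subset_closedBall.trans (hcb v hv)) G hG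
      exact ⟨s, ball_subset_closedBall hs, hs2⟩
  choose! Cv hCv0 hCv using hlb
  obtain ⟨t, htK, htf, ht⟩ := hKc.elim_finite_subcover_image (b := K) (c := fun v => ball v (1 / 2))
    (fun v _ => isOpen_ball) (fun v hv => Set.mem_biUnion hv (mem_ball_self (by norm_num)))
  obtain ⟨C1, hC1⟩ : ∃ C1 : ℕ, ∀ v ∈ t, Cv v ≤ C1 := by
    obtain ⟨C1, hC1⟩ := (htf.image Cv).bddAbove
    exact ⟨C1, fun v hv => hC1 (Set.mem_image_of_mem _ hv)⟩
  obtain ⟨A, hA0, hA⟩ := FamQ_size h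
  set B : ℝ := A * (1 + (|T| + Real.pi + 3)) + 1 with hB
  have hB1 : 1 ≤ B := by
    have : 0 ≤ A * (1 + (|T| + Real.pi + 3)) := by positivity
    linarith
  obtain ⟨C2, hC2⟩ := exists_nat_ge (B ^ d)
  refine ⟨C1 + C2 + 1, Nat.succ_pos _, fun w hw1 hw2 hw3 G hG => ⟨fun s hs => ?_, ?_⟩⟩
  · have hb : ∀ a, ‖cz e ψ a s‖ ≤ B := by
      intro a
      refine (hA a s (FamQ_ball_LH hw1 hs)).trans ?_
      have h1 : ‖s‖ ≤ |T| + Real.pi + 3 := by
        rw [mem_ball, dist_eq_norm] at hs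
        have h2 := hKb w ⟨hw1, hw2, hw3⟩
        have h3 : ‖s‖ ≤ ‖w‖ + ‖s - w‖ := by
          calc ‖s‖ = ‖w + (s - w)‖ := by rw [add_sub_cancel]
            _ ≤ _ := norm_add_le _ _
        linarith
      have h4 : A * (1 + ‖s‖) ≤ A * (1 + (|T| + Real.pi + 3)) :=
        mul_le_mul_of_nonneg_left (by linarith) hA0
      linarith
    refine (nrm_ub hG hB1 hb).trans ?_
    rw [mul_comm]
    refine mul_le_mul_of_nonneg_right ?_ (nrm_nonneg G)
    push_cast
    have : (0 : ℝ) ≤ C1 := Nat.cast_nonneg _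
    linarith
  · have hwK : w ∈ K := ⟨hw1, hw2, hw3⟩
    obtain ⟨v, hv, hwv⟩ := Set.mem_iUnion₂.1 (ht hwK)
    obtain ⟨s, hs, hs2⟩ := hCv v (htK hv) G hG
    refine ⟨s, ?_, hs2.trans ?_⟩
    · rw [mem_closedBall] at hs ⊢
      rw [mem_ball] at hwv
      calc dist s w ≤ dist s v + dist v w := dist_triangle _ _ _
        _ ≤ 1 := by rw [dist_comm v w]; linarith
    · refine mul_le_mul_of_nonneg_right ?_ (norm_nonneg _)
      have h5 : (Cv v : ℝ) ≤ C1 := by exact_mod_cast hC1 v hv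
      push_cast
      have : (0 : ℝ) ≤ C2 := Nat.cast_nonneg _
      linarith

private theorem FamQ_nrm_eq {m : ℕ} (G : MvPolynomial (Fin m) ℂ) {S : Finset (Fin m →₀ ℕ)}
    (hS : G.support ⊆ S) : nrm G = ∑ k ∈ S, ‖G.coeff k‖ := by
  refine Finset.sum_subset hS fun k _ hk => ?_
  rw [notMem_support_iff.1 hk, norm_zero]

private theorem FamQ_nrm_add {m : ℕ} (G H : MvPolynomial (Fin m) ℂ) : nrm (G + H) ≤ nrm G + nrm H := by
  classical
  rw [FamQ_nrm_eq (G + H) support_add, FamQ_nrm_eq G (Finset.subset_union_left (s₂ := H.support)),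
    FamQ_nrm_eq H (Finset.subset_union_right (s₁ := G.support)), ← Finset.sum_add_distrib]
  refine Finset.sum_le_sum fun k _ => ?_
  rw [coeff_add]
  exact norm_add_le _ _

private theorem FamQ_nrm_zero {m : ℕ} : nrm (0 : MvPolynomial (Fin m) ℂ) = 0 := by
  simp [nrm]

private theorem FamQ_nrm_sum {m : ℕ} {ι : Type*} (s : Finset ι) (f : ι → MvPolynomial (Fin m) ℂ) :
    nrm (∑ i ∈ s, f i) ≤ ∑ i ∈ s, nrm (f i) := by
  classical
  induction s using Finset.induction_on with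
  | empty => simp [FamQ_nrm_zero]
  | insert i s hi ih =>
    rw [Finset.sum_insert hi, Finset.sum_insert hi]
    exact (FamQ_nrm_add _ _).trans (by linarith)

private theorem FamQ_nrm_monomial {m : ℕ} (k : Fin m →₀ ℕ) (a : ℂ) : nrm (monomial k a) = ‖a‖ := by
  classical
  rw [FamQ_nrm_eq (monomial k a) support_monomial_subset, Finset.sum_singleton, coeff_monomial,
    if_pos rfl]

private theorem FamQ_nrm_mul {m : ℕ} (G H : MvPolynomial (Fin m) ℂ) : nrm (G * H) ≤ nrm G * nrm H := by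
  rw [MvPolynomial.mul_def, Finsupp.sum]
  refine (FamQ_nrm_sum _ _).trans ?_
  rw [nrm, Finset.sum_mul]
  refine Finset.sum_le_sum fun k _ => ?_
  rw [Finsupp.sum]
  refine (FamQ_nrm_sum _ _).trans ?_
  rw [nrm, Finset.mul_sum]
  refine Finset.sum_le_sum fun l _ => ?_
  rw [FamQ_nrm_monomial, norm_mul]
  rfl

private theorem FamQ_nrm_one {m : ℕ} : nrm (1 : MvPolynomial (Fin m) ℂ) = 1 := by
  have := FamQ_nrm_monomial (m := m) 0 1
  rwa [norm_one] at this

private theorem FamQ_nrm_pow {m : ℕ} (G : MvPolynomial (Fin m) ℂ) (n : ℕ) : nrm (G ^ n) ≤ nrm G ^ n := by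
  induction n with
  | zero => simp [FamQ_nrm_one]
  | succ n ih =>
    rw [pow_succ, pow_succ]
    exact (FamQ_nrm_mul _ _).trans (mul_le_mul_of_nonneg_right ih (nrm_nonneg G))

private theorem FamQ_nrm_C {m : ℕ} (a : ℂ) : nrm (C a : MvPolynomial (Fin m) ℂ) = ‖a‖ :=
  FamQ_nrm_monomial 0 a

private theorem FamQ_nrm_X {m : ℕ} (i : Fin m) : nrm (X i : MvPolynomial (Fin m) ℂ) = 1 := by
  have := FamQ_nrm_monomial (m := m) (Finsupp.single i 1) 1
  rwa [norm_one] at this

/-- the substitution `X 0 ↦ X 0 + u` -/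
private noncomputable def FamQ_shf (u : ℂ) :
    MvPolynomial (Fin 2) ℂ →ₐ[ℂ] MvPolynomial (Fin 2) ℂ := aeval ![X 0 + C u, X 1]

private theorem FamQ_shf_monomial (u : ℂ) (k : Fin 2 →₀ ℕ) (a : ℂ) :
    FamQ_shf u (monomial k a) = C a * ((X 0 + C u) ^ (k 0) * X 1 ^ (k 1)) := by
  rw [FamQ_shf, aeval_monomial, algebraMap_eq]
  rw [Finsupp.prod_fintype _ _ (fun _ => pow_zero _), Fin.prod_univ_two]
  rfl

private theorem FamQ_nrm_shf (u : ℂ) {D : ℕ} (P : MvPolynomial (Fin 2) ℂ) (hP : P.totalDegree ≤ D) :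
    nrm (FamQ_shf u P) ≤ nrm P * (1 + ‖u‖) ^ D := by
  conv_lhs => rw [P.as_sum]
  rw [map_sum]
  refine (FamQ_nrm_sum _ _).trans ?_
  rw [nrm, Finset.sum_mul]
  refine Finset.sum_le_sum fun k hk => ?_
  rw [FamQ_shf_monomial]
  have h1 : (1 : ℝ) ≤ 1 + ‖u‖ := by linarith [norm_nonneg u]
  have hk0 : k 0 ≤ D := by
    have h2 := le_totalDegree hk
    rw [Finsupp.sum_fintype _ _ (fun _ => rfl), Fin.sum_univ_two] at h2
    omega
  have h3 : nrm ((X 0 + C u) ^ (k 0) : MvPolynomial (Fin 2) ℂ) ≤ (1 + ‖u‖) ^ D := by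
    refine (FamQ_nrm_pow _ _).trans ?_
    have h4 : nrm (X 0 + C u : MvPolynomial (Fin 2) ℂ) ≤ 1 + ‖u‖ := by
      refine (FamQ_nrm_add _ _).trans ?_
      rw [FamQ_nrm_X, FamQ_nrm_C]
    exact (pow_le_pow_left₀ (nrm_nonneg _) h4 _).trans (pow_le_pow_right₀ h1 hk0)
  have h5 : nrm (X 1 ^ (k 1) : MvPolynomial (Fin 2) ℂ) ≤ 1 := by
    refine (FamQ_nrm_pow _ _).trans ?_
    rw [FamQ_nrm_X, one_pow]
  calc nrm (C (coeff k P) * ((X 0 + C u) ^ (k 0) * X 1 ^ (k 1)) : MvPolynomial (Fin 2) ℂ)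
      ≤ nrm (C (coeff k P) : MvPolynomial (Fin 2) ℂ) *
        (nrm ((X 0 + C u) ^ (k 0) : MvPolynomial (Fin 2) ℂ) *
          nrm (X 1 ^ (k 1) : MvPolynomial (Fin 2) ℂ)) :=
        (FamQ_nrm_mul _ _).trans (mul_le_mul_of_nonneg_left (FamQ_nrm_mul _ _) (nrm_nonneg _))
    _ ≤ ‖coeff k P‖ * ((1 + ‖u‖) ^ D * 1) := by
        rw [FamQ_nrm_C]
        refine mul_le_mul_of_nonneg_left ?_ (norm_nonneg _)
        exact mul_le_mul h3 h5 (nrm_nonneg _) (by positivity)
    _ = _ := by rw [mul_one]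

private theorem FamQ_shf_shf (u : ℂ) (P : MvPolynomial (Fin 2) ℂ) :
    FamQ_shf (-u) (FamQ_shf u P) = P := by
  have : (FamQ_shf (-u)).comp (FamQ_shf u) = AlgHom.id ℂ _ := by
    apply algHom_ext
    intro i
    fin_cases i
    · simp [FamQ_shf]
    · simp [FamQ_shf]
  exact DFunLike.congr_fun this P

private theorem FamQ_shf_eval (u s t : ℂ) (P : MvPolynomial (Fin 2) ℂ) :
    eval ![s, t] (FamQ_shf u P) = eval ![s + u, t] P := by
  induction P using MvPolynomial.induction_on with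
  | C a => simp [FamQ_shf]
  | add p q hp hq => rw [map_add, map_add, map_add, hp, hq]
  | mul_X p i hp =>
    rw [map_mul, map_mul, map_mul, hp]
    congr 1
    fin_cases i <;> simp [FamQ_shf]

private theorem FamQ_shf_deg (u : ℂ) {D : ℕ} (P : MvPolynomial (Fin 2) ℂ) (hP : P.totalDegree ≤ D) :
    (FamQ_shf u P).totalDegree ≤ D := by
  conv_lhs => rw [P.as_sum]
  rw [map_sum]
  refine totalDegree_finsetSum_le fun k hk => ?_
  rw [FamQ_shf_monomial]
  have h2 := le_totalDegree hk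
  rw [Finsupp.sum_fintype _ _ (fun _ => rfl), Fin.sum_univ_two] at h2
  have h3 : (X 0 + C u : MvPolynomial (Fin 2) ℂ).totalDegree ≤ 1 := by
    refine (totalDegree_add _ _).trans ?_
    rw [totalDegree_X, totalDegree_C]
    simp
  have h4 : ((X 0 + C u) ^ (k 0) : MvPolynomial (Fin 2) ℂ).totalDegree ≤ k 0 := by
    refine (totalDegree_pow _ _).trans ?_
    calc k 0 * _ ≤ k 0 * 1 := Nat.mul_le_mul_left _ h3
      _ = k 0 := mul_one _
  have h5 : (X 1 ^ (k 1) : MvPolynomial (Fin 2) ℂ).totalDegree ≤ k 1 := by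
    refine (totalDegree_pow _ _).trans ?_
    rw [totalDegree_X, mul_one]
  calc _ ≤ (C (coeff k P) : MvPolynomial (Fin 2) ℂ).totalDegree +
        ((X 0 + C u) ^ (k 0) * X 1 ^ (k 1) : MvPolynomial (Fin 2) ℂ).totalDegree :=
        totalDegree_mul _ _
    _ ≤ 0 + (k 0 + k 1) := by
        rw [totalDegree_C]
        exact Nat.add_le_add_left ((totalDegree_mul _ _).trans (Nat.add_le_add h4 h5)) 0
    _ ≤ D := by omega

/-- the exponent `(l, m)` -/
private noncomputable def FamQ_ix (l m : ℕ) : Fin 2 →₀ ℕ := Finsupp.single 0 l + Finsupp.single 1 m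

private theorem FamQ_ix_inj {l m l' m' : ℕ} (h : FamQ_ix l m = FamQ_ix l' m') : l = l' ∧ m = m' := by
  have h0 := DFunLike.congr_fun h 0
  have h1 := DFunLike.congr_fun h 1
  simpa [FamQ_ix] using And.intro h0 h1

/-- the polynomial `H` -/
private noncomputable def FamQ_H (g : ℕ → ℕ → ℂ) (d M : ℕ) (q : ℂ) : MvPolynomial (Fin 2) ℂ :=
  ∑ m ∈ Finset.range (M + 1), ∑ l ∈ Finset.range (d + 1), monomial (FamQ_ix l m) (g l m * q ^ m)

private theorem FamQ_H_coeff (g : ℕ → ℕ → ℂ) (d M : ℕ) (q : ℂ) {l m : ℕ} (hl : l ≤ d) (hm : m ≤ M) :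
    coeff (FamQ_ix l m) (FamQ_H g d M q) = g l m * q ^ m := by
  classical
  rw [FamQ_H, coeff_sum, Finset.sum_eq_single m]
  · rw [coeff_sum, Finset.sum_eq_single l]
    · rw [coeff_monomial, if_pos rfl]
    · intro l' _ hne
      rw [coeff_monomial, if_neg]
      exact fun h => hne (FamQ_ix_inj h).1
    · intro h
      exact absurd (Finset.mem_range.2 (Nat.lt_succ_of_le hl)) h
  · intro m' _ hne
    rw [coeff_sum]
    refine Finset.sum_eq_zero fun l' _ => ?_
    rw [coeff_monomial, if_neg]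
    exact fun h => hne (FamQ_ix_inj h).2
  · intro h
    exact absurd (Finset.mem_range.2 (Nat.lt_succ_of_le hm)) h

private theorem FamQ_H_deg (g : ℕ → ℕ → ℂ) (d M : ℕ) (q : ℂ) :
    (FamQ_H g d M q).totalDegree ≤ d + M := by
  refine totalDegree_finsetSum_le fun m hm => totalDegree_finsetSum_le fun l hl => ?_
  refine (totalDegree_monomial_le _ _).trans ?_
  rw [Finset.mem_range] at hm hl
  rw [Finsupp.sum_fintype _ _ (fun _ => rfl), Fin.sum_univ_two]
  simp [FamQ_ix]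
  omega

private theorem FamQ_H_eval (g : ℕ → ℕ → ℂ) (d M : ℕ) (w s : ℂ) :
    eval ![s + w, Complex.exp s] (FamQ_H g d M (Complex.exp w)) =
      ∑ m ∈ Finset.range (M + 1), ∑ l ∈ Finset.range (d + 1),
        g l m * (w + s) ^ l * Complex.exp (m * (w + s)) := by
  rw [FamQ_H, map_sum]
  refine Finset.sum_congr rfl fun m _ => ?_
  rw [map_sum]
  refine Finset.sum_congr rfl fun l _ => ?_
  rw [eval_monomial, Finsupp.prod_fintype _ _ (fun _ => pow_zero _), Fin.prod_univ_two,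
    Complex.exp_nat_mul, Complex.exp_add, mul_pow, add_comm s w]
  simp [FamQ_ix]
  ring

private theorem FamQ_small (A : ℝ) (n : ℕ) (ε : ℝ) (hε : 0 < ε) :
    ∃ T : ℝ, ∀ x : ℝ, T ≤ x → A * ((5 + x) ^ n * Real.exp (-x)) ≤ ε := by
  have h1 : Filter.Tendsto (fun x : ℝ => A * (Real.exp 5 * ((5 + x) ^ n * Real.exp (-(5 + x)))))
      Filter.atTop (nhds (A * (Real.exp 5 * 0))) :=
    (((Real.tendsto_pow_mul_exp_neg_atTop_nhds_zero n).comp
      (Filter.tendsto_atTop_add_const_left _ 5 Filter.tendsto_id)).const_mul _).const_mul _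
  rw [mul_zero, mul_zero] at h1
  obtain ⟨T, hT⟩ := Filter.eventually_atTop.1 (h1.eventually (gt_mem_nhds hε))
  refine ⟨T, fun x hx => ?_⟩
  have h2 := (hT x hx).le
  have h3 : A * ((5 + x) ^ n * Real.exp (-x)) =
      A * (Real.exp 5 * ((5 + x) ^ n * Real.exp (-(5 + x)))) := by
    rw [neg_add, Real.exp_add, Real.exp_neg 5]
    have := Real.exp_ne_zero 5
    field_simp
  rw [h3]
  exact h2

/-- the doubling inequality for the centres near infinity -/
theorem Cusp.dbl_far {e : Fin 3 → ℕ} {ψ : Fin 3 → ℂ → ℂ} (h : Cusp e ψ) (d : ℕ) :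
    ∃ (T : ℝ) (C : ℕ), 0 < C ∧ ∀ w : ℂ, w.re ≤ -4 → w.re ≤ -T → |w.im| ≤ Real.pi →
      ∀ G : MvPolynomial (Fin 3) ℂ, G ≠ 0 → G.totalDegree ≤ d →
      ∃ c : ℝ, 0 < c ∧ nrm G * Real.exp w.re ^ C ≤ C * (1 + ‖w‖) ^ C * c ∧
      (∀ s ∈ ball w 3, ‖eval (fun a => cz e ψ a s) G‖ ≤ C * c) ∧
      ∃ s ∈ closedBall w 1, c ≤ C * ‖eval (fun a => cz e ψ a s) G‖ := by
  obtain ⟨g, C0, M, hC0, hg⟩ := cusp_exp h d
  set D : ℕ := d + M with hD
  obtain ⟨C2, hC2, hexps⟩ := exps D
  have hC0' : (0 : ℝ) < C0 := by exact_mod_cast hC0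
  have hC2' : (0 : ℝ) < C2 := by exact_mod_cast hC2
  have hC21 : (1 : ℝ) ≤ C2 := by exact_mod_cast hC2
  set κ : ℝ := (1 - Real.exp (-1))⁻¹ with hκ
  have he1 : Real.exp (-1) < 1 := Real.exp_lt_one_iff.2 (by norm_num)
  have hκ0 : 0 < κ := inv_pos.2 (by linarith)
  set A1 : ℝ := (d + 1) * C0 * 4 ^ d * Real.exp (3 * (M + 1)) * κ with hA1
  have hA10 : 0 ≤ A1 := by positivity
  obtain ⟨T, hT⟩ := FamQ_small (A1 * C0) (d + D) (1 / (2 * C2)) (by positivity)
  refine ⟨T, C2 + C2 + C0 + M + D, by omega, fun w hw4 hwT hwi G hG0 hG => ?_⟩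
  obtain ⟨hsum, hgle, l0, hl0, m0, hm0, hlow⟩ := hg G hG
  have hnG := nrm_pos hG0
  set q : ℂ := Complex.exp w with hq
  set ρ : ℝ := Real.exp w.re with hρ
  have hρ0 : 0 < ρ := Real.exp_pos _
  have hρ1 : ρ ≤ 1 := Real.exp_le_one_iff.2 (by linarith)
  have hqn : ‖q‖ = ρ := Complex.norm_exp w
  set y : ℝ := 1 + ‖w‖ with hy
  have hy1 : 1 ≤ y := by linarith [norm_nonneg w]
  set H := FamQ_H (g G) d M q with hH
  set G' := FamQ_shf w H with hG'
  set c : ℝ := nrm G' with hc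
  have hH1 : nrm H ≤ c * y ^ D := by
    have h1 := FamQ_nrm_shf (-w) (D := D) G' (FamQ_shf_deg w H (FamQ_H_deg _ _ _ _))
    rwa [FamQ_shf_shf, norm_neg] at h1
  have hH2 : ‖g G l0 m0‖ * ρ ^ m0 ≤ nrm H := by
    have h1 := coeff_le_nrm H (FamQ_ix l0 m0)
    rwa [FamQ_H_coeff _ _ _ _ hl0 hm0, norm_mul, norm_pow, hqn] at h1
  have hkey : nrm G * ρ ^ M ≤ C0 * y ^ D * c := by
    calc nrm G * ρ ^ M ≤ (C0 * ‖g G l0 m0‖) * ρ ^ m0 :=
          mul_le_mul hlow (pow_le_pow_of_le_one hρ0.le hρ1 hm0) (by positivity) (by positivity)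
      _ = C0 * (‖g G l0 m0‖ * ρ ^ m0) := by ring
      _ ≤ C0 * (c * y ^ D) := mul_le_mul_of_nonneg_left (hH2.trans hH1) hC0'.le
      _ = _ := by ring
  have hc0 : 0 < c := by
    have h1 : 0 < C0 * y ^ D * c := lt_of_lt_of_le (by positivity) hkey
    exact pos_of_mul_pos_right h1 (by positivity)
  -- the tail
  have htail : ∀ s ∈ ball (0 : ℂ) 3,
      ‖eval (fun a => cz e ψ a (w + s)) G - eval ![s, Complex.exp s] G'‖ ≤ 1 / (2 * C2) * c := by
    intro s hs
    have hs3 : ‖s‖ < 3 := mem_ball_zero_iff.1 hs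
    have hre : (w + s).re ≤ w.re + 3 := by
      rw [Complex.add_re]
      linarith [Complex.re_le_norm s]
    have hLH : w + s ∈ LH := by
      show (w + s).re < 0
      linarith
    have hev : eval ![s, Complex.exp s] G' = ∑ m ∈ Finset.range (M + 1),
        ∑ l ∈ Finset.range (d + 1), g G l m * (w + s) ^ l * Complex.exp (m * (w + s)) := by
      rw [hG', FamQ_shf_eval, hH, hq, FamQ_H_eval]
    rw [hev]
    have h1 := (hasSum_nat_add_iff' (M + 1)).2 (hsum (w + s) hLH)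
    set K : ℝ := (d + 1) * C0 * nrm G * (4 * y) ^ d * Real.exp ((M + 1) * (w.re + 3)) with hK
    have hK0 : 0 ≤ K := by positivity
    have h2 : HasSum (fun m : ℕ => K * Real.exp (-1) ^ m) (K * κ) :=
      (hasSum_geometric_of_lt_one (Real.exp_pos _).le he1).mul_left K
    have h3 : ∀ m : ℕ, ‖∑ l ∈ Finset.range (d + 1),
        g G l (m + (M + 1)) * (w + s) ^ l * Complex.exp (((m + (M + 1) : ℕ) : ℂ) * (w + s))‖ ≤
        K * Real.exp (-1) ^ m := by
      intro m
      have hn : ‖w + s‖ ≤ 4 * y := by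
        have := norm_add_le w s
        have := norm_nonneg w
        rw [hy]
        linarith
      have h4y : 1 ≤ 4 * y := by linarith
      have hexp : ‖Complex.exp (((m + (M + 1) : ℕ) : ℂ) * (w + s))‖ ≤
          Real.exp ((M + 1) * (w.re + 3)) * Real.exp (-1) ^ m := by
        rw [Complex.norm_exp, ← Real.exp_nat_mul, ← Real.exp_add]
        apply Real.exp_le_exp.2
        have h5 : (((m + (M + 1) : ℕ) : ℂ) * (w + s)).re = ((m : ℝ) + (M + 1)) * (w + s).re := by
          rw [← Complex.ofReal_natCast, Complex.re_ofReal_mul]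
          push_cast
          ring
        rw [h5]
        have h6 : ((m : ℝ) + (M + 1)) * (w + s).re ≤ ((m : ℝ) + (M + 1)) * (w.re + 3) :=
          mul_le_mul_of_nonneg_left hre (by positivity)
        have h7 : (m : ℝ) * (w.re + 3) ≤ m * (-1) :=
          mul_le_mul_of_nonneg_left (by linarith) (Nat.cast_nonneg m)
        linarith
      calc ‖∑ l ∈ Finset.range (d + 1), g G l (m + (M + 1)) * (w + s) ^ l *
            Complex.exp (((m + (M + 1) : ℕ) : ℂ) * (w + s))‖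
          ≤ ∑ l ∈ Finset.range (d + 1), ‖g G l (m + (M + 1)) * (w + s) ^ l *
            Complex.exp (((m + (M + 1) : ℕ) : ℂ) * (w + s))‖ := norm_sum_le _ _
        _ ≤ ∑ l ∈ Finset.range (d + 1), C0 * nrm G * (4 * y) ^ d *
            (Real.exp ((M + 1) * (w.re + 3)) * Real.exp (-1) ^ m) := by
            refine Finset.sum_le_sum fun l hl => ?_
            rw [Finset.mem_range] at hl
            rw [norm_mul, norm_mul, norm_pow]
            have h8 : ‖w + s‖ ^ l ≤ (4 * y) ^ d :=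
              (pow_le_pow_left₀ (norm_nonneg _) hn _).trans
                (pow_le_pow_right₀ h4y (Nat.lt_succ_iff.1 hl))
            exact mul_le_mul (mul_le_mul (hgle l _) h8 (by positivity) (by positivity)) hexp
              (norm_nonneg _) (by positivity)
        _ = K * Real.exp (-1) ^ m := by
            rw [Finset.sum_const, Finset.card_range, nsmul_eq_mul, hK]
            push_cast
            ring
    refine (h1.norm_le_of_bounded h2 h3).trans ?_
    have h9 : K * κ = A1 * (nrm G * ρ ^ M) * (y ^ d * ρ) := by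
      rw [hK, hA1, hρ]
      have : Real.exp ((M + 1) * (w.re + 3)) =
          Real.exp (3 * (M + 1)) * (Real.exp w.re ^ M * Real.exp w.re) := by
        rw [← Real.exp_nat_mul, ← Real.exp_add, ← Real.exp_add]
        congr 1
        ring
      rw [this, mul_pow]
      ring
    rw [h9]
    have hy2 : y ≤ 5 + -w.re := by
      have h10 := Complex.norm_le_abs_re_add_abs_im w
      rw [abs_of_nonpos (by linarith : w.re ≤ 0)] at h10
      rw [hy]
      linarith [Real.pi_lt_four]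
    calc A1 * (nrm G * ρ ^ M) * (y ^ d * ρ) ≤ A1 * (C0 * y ^ D * c) * (y ^ d * ρ) := by
          refine mul_le_mul_of_nonneg_right ?_ (by positivity)
          exact mul_le_mul_of_nonneg_left hkey hA10
      _ = (A1 * C0 * (y ^ (d + D) * ρ)) * c := by rw [pow_add]; ring
      _ ≤ (A1 * C0 * ((5 + -w.re) ^ (d + D) * Real.exp (- -w.re))) * c := by
          refine mul_le_mul_of_nonneg_right ?_ hc0.le
          refine mul_le_mul_of_nonneg_left ?_ (by positivity)
          rw [neg_neg]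
          refine mul_le_mul_of_nonneg_right ?_ hρ0.le
          exact pow_le_pow_left₀ (by positivity) hy2 _
      _ ≤ 1 / (2 * C2) * c := by
          refine mul_le_mul_of_nonneg_right ?_ hc0.le
          exact hT (-w.re) (by linarith)
  obtain ⟨hup, s0, hs0, hs0'⟩ := hexps G' (FamQ_shf_deg w H (FamQ_H_deg _ _ _ _))
  have hhalf : 1 / (2 * (C2 : ℝ)) ≤ 1 := by
    rw [div_le_one (by positivity)]
    linarith
  have hnn : (0 : ℝ) ≤ C0 + M + D := by positivity
  refine ⟨c, hc0, ?_, ?_, ?_⟩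
  · calc nrm G * ρ ^ (C2 + C2 + C0 + M + D) ≤ nrm G * ρ ^ M := by
          refine mul_le_mul_of_nonneg_left ?_ hnG.le
          exact pow_le_pow_of_le_one hρ0.le hρ1 (by omega)
      _ ≤ C0 * y ^ D * c := hkey
      _ ≤ ((C2 + C2 + C0 + M + D : ℕ) : ℝ) * y ^ (C2 + C2 + C0 + M + D) * c := by
          refine mul_le_mul_of_nonneg_right ?_ hc0.le
          refine mul_le_mul ?_ (pow_le_pow_right₀ hy1 (by omega)) (by positivity) (by positivity)
          exact_mod_cast (by omega : C0 ≤ C2 + C2 + C0 + M + D)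
  · intro s hs
    have hs' : s - w ∈ ball (0 : ℂ) 3 := by
      rw [mem_ball, dist_eq_norm] at hs
      rwa [mem_ball_zero_iff]
    have h1 := htail (s - w) hs'
    have h2 := hup (s - w) hs'
    rw [add_sub_cancel] at h1
    have h3 : ‖eval (fun a => cz e ψ a s) G‖ ≤ 1 / (2 * C2) * c + C2 * c := by
      calc _ = ‖(eval (fun a => cz e ψ a s) G - eval ![s - w, Complex.exp (s - w)] G') +
            eval ![s - w, Complex.exp (s - w)] G'‖ := by rw [sub_add_cancel]
        _ ≤ _ := (norm_add_le _ _).trans (add_le_add h1 h2)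
    refine h3.trans ?_
    rw [← add_mul]
    refine mul_le_mul_of_nonneg_right ?_ hc0.le
    push_cast
    linarith
  · refine ⟨w + s0, ?_, ?_⟩
    · rw [mem_closedBall_zero_iff] at hs0
      rw [mem_closedBall, dist_eq_norm, add_sub_cancel_left]
      exact hs0
    · have hs0b : s0 ∈ ball (0 : ℂ) 3 := closedBall_subset_ball (by norm_num) hs0
      have h1 := htail s0 hs0b
      have h2 : ‖eval ![s0, Complex.exp s0] G'‖ ≤
          ‖eval (fun a => cz e ψ a (w + s0)) G‖ + 1 / (2 * C2) * c := by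
        calc _ = ‖eval (fun a => cz e ψ a (w + s0)) G -
              (eval (fun a => cz e ψ a (w + s0)) G - eval ![s0, Complex.exp s0] G')‖ := by
              rw [sub_sub_cancel]
          _ ≤ _ := (norm_sub_le _ _).trans (add_le_add_right h1 _)
      have h3 : c ≤ C2 * (‖eval (fun a => cz e ψ a (w + s0)) G‖ + 1 / (2 * C2) * c) :=
        hs0'.trans (mul_le_mul_of_nonneg_left h2 hC2'.le)
      have h4 : C2 * (1 / (2 * C2) * c) = c / 2 := by
        field_simp
      rw [mul_add, h4] at h3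
      have h5 : c ≤ (C2 + C2) * ‖eval (fun a => cz e ψ a (w + s0)) G‖ := by
        rw [add_mul]
        linarith
      refine h5.trans ?_
      refine mul_le_mul_of_nonneg_right ?_ (norm_nonneg _)
      push_cast
      linarith

theorem Cusp.fam {e : Fin 3 → ℕ} {ψ : Fin 3 → ℂ → ℂ} (h : Cusp e ψ) :
    Fam LH CD (cz e ψ) (fun w => Real.exp w.re) where
  isOpen := FamQ_LH_open
  ball := fun w hw => FamQ_ball_LH hw.1
  an := FamQ_cz_diff h
  im := h.im
  size := by
    obtain ⟨C, _, hC⟩ := FamQ_size h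
    exact ⟨C, hC⟩
  rho := fun w hw => ⟨Real.exp_pos _, Real.exp_le_one_iff.2 (by linarith [hw.1])⟩
  dbl := by
    intro d
    obtain ⟨T, C1, hC1, hfar⟩ := h.dbl_far d
    obtain ⟨C2, hC2, hnear⟩ := h.dbl_near d T
    refine ⟨C1 + C2, by omega, fun w hw G hG0 hG => ?_⟩
    have hρ1 : Real.exp w.re ≤ 1 := Real.exp_le_one_iff.2 (by linarith [hw.1])
    have hρ0 : 0 < Real.exp w.re := Real.exp_pos _
    have hy1 : 1 ≤ 1 + ‖w‖ := by linarith [norm_nonneg w]
    have hC1' : (1 : ℝ) ≤ C1 := by exact_mod_cast hC1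
    have hC2' : (1 : ℝ) ≤ C2 := by exact_mod_cast hC2
    by_cases hT : w.re ≤ -T
    · obtain ⟨c, hc, h1, h2, s, hs, h3⟩ := hfar w hw.1 hT hw.2 G hG0 hG
      refine ⟨c, hc, ?_, fun s hs => (h2 s hs).trans ?_, s, hs, h3.trans ?_⟩
      · calc nrm G * Real.exp w.re ^ (C1 + C2) ≤ nrm G * Real.exp w.re ^ C1 :=
              mul_le_mul_of_nonneg_left (pow_le_pow_of_le_one hρ0.le hρ1 (by omega)) (nrm_nonneg _)
          _ ≤ C1 * (1 + ‖w‖) ^ C1 * c := h1
          _ ≤ ((C1 + C2 : ℕ) : ℝ) * (1 + ‖w‖) ^ (C1 + C2) * c := by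
              refine mul_le_mul_of_nonneg_right ?_ hc.le
              refine mul_le_mul ?_ (pow_le_pow_right₀ hy1 (by omega)) (by positivity) (by positivity)
              push_cast
              linarith
      · refine mul_le_mul_of_nonneg_right ?_ hc.le
        push_cast
        linarith
      · refine mul_le_mul_of_nonneg_right ?_ (norm_nonneg _)
        push_cast
        linarith
    · obtain ⟨h2, s, hs, h3⟩ := hnear w hw.1 (not_le.1 hT).le hw.2 G hG
      have hnG := nrm_pos hG0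
      refine ⟨nrm G, hnG, ?_, fun s hs => (h2 s hs).trans ?_, s, hs, h3.trans ?_⟩
      · calc nrm G * Real.exp w.re ^ (C1 + C2) ≤ nrm G * 1 :=
              mul_le_mul_of_nonneg_left (pow_le_one₀ hρ0.le hρ1) (nrm_nonneg _)
          _ = 1 * 1 * nrm G := by ring
          _ ≤ ((C1 + C2 : ℕ) : ℝ) * (1 + ‖w‖) ^ (C1 + C2) * nrm G := by
              refine mul_le_mul_of_nonneg_right ?_ hnG.le
              refine mul_le_mul ?_ (one_le_pow₀ hy1) (by positivity) (by positivity)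
              push_cast
              linarith
      · refine mul_le_mul_of_nonneg_right ?_ hnG.le
        push_cast
        linarith
      · refine mul_le_mul_of_nonneg_right ?_ (norm_nonneg _)
        push_cast
        linarith

end Pool.Agent.LGO.PW
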