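import Mathlib
import Pool.Agent.LGO.PW.FamZ
import Pool.Agent.LGO.Gal.Basic
import Pool.Agent.LGO.H.JSize

/-!
# LGO/PW: sizes

* `Fam.pt_of_isog`: `Gal.isogDeg_iff_maps` gives an integral matrix `g` of determinant `N` which maps
  `z b s` to `z a s` (use `Lift`).  Entries: `|g₁₀ τ + g₁₁| ^ 2 Im τ' = N Im τ`, `Im τ' ≥ c`, `Im τ ≤ |τ| ≤ C (1 + H)`,
  so `|g₁₀ τ + g₁₁| ≤ C H ^ 2`, `|g₁₀| ≤ |..| / c`, `|g₁₁| ≤ |..| + |g₁₀| |τ|`, and
  `g₀₀ τ + g₀₁ = τ' (g₁₀ τ + g₁₁)` in the same way.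
* `Cusp.size_of`: for an index `a` with `e a > 0`, `Im (z a w) = e a |Re w| / (2 π) + O(1)`, and
  `|j(τ)| ≥ e ^ (2 π Im τ) / 2` for `Im τ` large (translate `τ` by an integer to a reduced point and use
  `exp_im_le` of `LGO/H/JSize.lean`: a point with `Im τ ≥ 1` and `|Re τ| ≤ 1/2` is reduced); `|Im w| ≤ π`.
* `Lift.unique`.
-/

namespace Pool.Agent.LGO.PW

open MvPolynomial Metric

theorem Lift.unique {z : Fin 3 → ℂ → ℂ} {s : ℂ} {x y : Fin 3 → ℂ} (hx : Lift z s x) (hy : Lift z s y) :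
    x = y := by
  funext a
  obtain ⟨τ, h1, h2⟩ := hx a
  obtain ⟨τ', h3, h4⟩ := hy a
  have h5 : τ = τ' := UpperHalfPlane.ext (h1.trans h3.symm)
  rw [h2, h4, h5]

/-- the entries of the matrix -/
private theorem Size_entries {c T H : ℝ} (hc : 0 < c) (hT1 : 1 ≤ T) (hH : 1 ≤ H) (hcT : 1 ≤ c * T)
    {τ τ' : ℂ} {g : Matrix (Fin 2) (Fin 2) ℤ} {N : ℕ} (hdet : g.det = N)
    (hm : Maps g τ τ') (h1 : c ≤ τ.im) (h2 : c ≤ τ'.im) (h3 : ‖τ‖ ≤ T) (h4 : ‖τ'‖ ≤ T)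
    (h5 : (N : ℝ) * τ.im ≤ c * (H * T)) : ∀ i j, |(g i j : ℝ)| ≤ 4 * H * T ^ 4 := by
  have hd : (N : ℝ) = (g 0 0 : ℝ) * g 1 1 - (g 0 1 : ℝ) * g 1 0 := by
    have h6 : ((g.det : ℤ) : ℝ) = (N : ℝ) := by rw [hdet]; push_cast; rfl
    rw [← h6, Matrix.det_fin_two]
    push_cast
    ring
  unfold Maps at hm
  obtain ⟨q, hq⟩ : ∃ q : ℂ, q = (g 1 0 : ℂ) * τ + (g 1 1 : ℂ) := ⟨_, rfl⟩
  obtain ⟨r, hr⟩ : ∃ r : ℂ, r = (g 0 0 : ℂ) * τ + (g 0 1 : ℂ) := ⟨_, rfl⟩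
  rw [← hq, ← hr] at hm
  have hqre : q.re = g 1 0 * τ.re + g 1 1 := by
    rw [hq]; simp
  have hqim : q.im = g 1 0 * τ.im := by
    rw [hq]; simp
  have hrre : r.re = g 0 0 * τ.re + g 0 1 := by
    rw [hr]; simp
  have hrim : r.im = g 0 0 * τ.im := by
    rw [hr]; simp
  have hre := congrArg Complex.re hm
  have him := congrArg Complex.im hm
  rw [Complex.mul_re] at hre
  rw [Complex.mul_im] at him
  -- the norm of q
  have hkey : (q.re ^ 2 + q.im ^ 2) * τ'.im = N * τ.im := by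
    have e1 : (q.re ^ 2 + q.im ^ 2) * τ'.im = r.im * q.re - r.re * q.im := by
      rw [← hre, ← him]
      ring
    rw [e1, hrim, hqre, hrre, hqim, hd]
    ring
  have hqn : ‖q‖ ^ 2 = q.re ^ 2 + q.im ^ 2 := by
    rw [Complex.sq_norm, Complex.normSq_apply]
    ring
  have hT0 : 0 ≤ T := by linarith
  have hHT : 1 ≤ H * T := one_le_mul_of_one_le_of_one_le hH hT1
  have hq2 : ‖q‖ ^ 2 ≤ H * T := by
    have e1 : c * ‖q‖ ^ 2 ≤ c * (H * T) := by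
      calc c * ‖q‖ ^ 2 ≤ τ'.im * ‖q‖ ^ 2 := mul_le_mul_of_nonneg_right h2 (by positivity)
        _ = N * τ.im := by rw [hqn, ← hkey]; ring
        _ ≤ c * (H * T) := h5
    exact le_of_mul_le_mul_left e1 hc
  have hq1 : ‖q‖ ≤ 2 * (H * T) := by
    nlinarith [sq_nonneg (‖q‖ - 1), norm_nonneg q]
  have hr1 : ‖r‖ ≤ T * ‖q‖ := by
    rw [← hm, norm_mul]
    exact mul_le_mul_of_nonneg_right h4 (norm_nonneg _)
  -- the entries of a row
  have hrow : ∀ (u v : ℝ) (y : ℂ), y.re = u * τ.re + v → y.im = u * τ.im →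
      |u| ≤ T * ‖y‖ ∧ |v| ≤ 2 * T ^ 2 * ‖y‖ := by
    intro u v y hy1 hy2
    have e1 : |u| * c ≤ ‖y‖ := by
      calc |u| * c ≤ |u| * τ.im := mul_le_mul_of_nonneg_left h1 (abs_nonneg _)
        _ = |y.im| := by rw [hy2, abs_mul, abs_of_nonneg (hc.le.trans h1)]
        _ ≤ ‖y‖ := Complex.abs_im_le_norm y
    have e2 : |u| ≤ T * ‖y‖ := by
      calc |u| = |u| * 1 := (mul_one _).symm
        _ ≤ |u| * (c * T) := mul_le_mul_of_nonneg_left hcT (abs_nonneg _)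
        _ = T * (|u| * c) := by ring
        _ ≤ T * ‖y‖ := mul_le_mul_of_nonneg_left e1 hT0
    refine ⟨e2, ?_⟩
    have e3 : v = y.re - u * τ.re := by rw [hy1]; ring
    have e4 : |v| ≤ ‖y‖ + |u| * T := by
      rw [e3]
      refine (abs_sub _ _).trans ?_
      rw [abs_mul]
      have e5 := Complex.abs_re_le_norm y
      have e6 : |τ.re| ≤ T := (Complex.abs_re_le_norm τ).trans h3
      have e7 := mul_le_mul_of_nonneg_left e6 (abs_nonneg u)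
      linarith
    have e8 : |u| * T ≤ T * ‖y‖ * T := mul_le_mul_of_nonneg_right e2 hT0
    have e9 : ‖y‖ ≤ T ^ 2 * ‖y‖ := le_mul_of_one_le_left (norm_nonneg _) (one_le_pow₀ hT1)
    calc |v| ≤ ‖y‖ + |u| * T := e4
      _ ≤ T ^ 2 * ‖y‖ + T * ‖y‖ * T := add_le_add e9 e8
      _ = 2 * T ^ 2 * ‖y‖ := by ring
  obtain ⟨f1, f2⟩ := hrow _ _ q hqre hqim
  obtain ⟨f3, f4⟩ := hrow _ _ r hrre hrim
  have hq0 := norm_nonneg q
  have hT2 : T ≤ T ^ 2 := by nlinarith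
  have hT3 : T ^ 2 ≤ T ^ 3 := by
    rw [pow_succ T 2]
    exact le_mul_of_one_le_right (by positivity) hT1
  -- everything is at most `2 T ^ 3 ‖q‖`
  have hfin : 2 * T ^ 3 * ‖q‖ ≤ 4 * H * T ^ 4 := by
    calc 2 * T ^ 3 * ‖q‖ ≤ 2 * T ^ 3 * (2 * (H * T)) :=
          mul_le_mul_of_nonneg_left hq1 (by positivity)
      _ = 4 * H * T ^ 4 := by ring
  have hT3' : 0 ≤ T ^ 3 := by positivity
  have g1 : |(g 1 0 : ℝ)| ≤ 2 * T ^ 3 * ‖q‖ := by
    refine f1.trans (mul_le_mul_of_nonneg_right ?_ hq0)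
    linarith
  have g2 : |(g 1 1 : ℝ)| ≤ 2 * T ^ 3 * ‖q‖ := by
    refine f2.trans (mul_le_mul_of_nonneg_right ?_ hq0)
    linarith
  have g3 : |(g 0 0 : ℝ)| ≤ 2 * T ^ 3 * ‖q‖ := by
    calc |(g 0 0 : ℝ)| ≤ T * ‖r‖ := f3
      _ ≤ T * (T * ‖q‖) := mul_le_mul_of_nonneg_left hr1 hT0
      _ = T ^ 2 * ‖q‖ := by ring
      _ ≤ 2 * T ^ 3 * ‖q‖ := mul_le_mul_of_nonneg_right (by linarith) hq0
  have g4 : |(g 0 1 : ℝ)| ≤ 2 * T ^ 3 * ‖q‖ := by
    calc |(g 0 1 : ℝ)| ≤ 2 * T ^ 2 * ‖r‖ := f4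
      _ ≤ 2 * T ^ 2 * (T * ‖q‖) := mul_le_mul_of_nonneg_left hr1 (by positivity)
      _ = 2 * T ^ 3 * ‖q‖ := by ring
  intro i j
  fin_cases i <;> fin_cases j
  · exact g3.trans hfin
  · exact g4.trans hfin
  · exact g1.trans hfin
  · exact g2.trans hfin

theorem Fam.pt_of_isog {Ω Cn : Set ℂ} {z : Fin 3 → ℂ → ℂ} {ρ : ℂ → ℝ} (hF : Fam Ω Cn z ρ) :
    ∃ C : ℕ, 0 < C ∧ ∀ H : ℝ, 2 ≤ H → ∀ s ∈ Ω, ‖s‖ ≤ H → ∀ x, Lift z s x →
      (∀ a b, ∃ N : ℕ, 0 < N ∧ (N : ℝ) ≤ H ∧ IsogDeg N (x a) (x b)) → Pt (H ^ C) z s := by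
  obtain ⟨c, hc, him⟩ := hF.im
  obtain ⟨C₁, hsz⟩ := hF.size
  -- the constant
  obtain ⟨κ, hκ⟩ : ∃ κ : ℝ, κ = 1 + 2 * |C₁| + 1 / c + 2 * |C₁| / c := ⟨_, rfl⟩
  have hA : 0 ≤ |C₁| := abs_nonneg _
  have hκ1 : 1 ≤ κ := by
    rw [hκ]
    have : 0 ≤ 2 * |C₁| + 1 / c + 2 * |C₁| / c := by positivity
    linarith
  have hκ2 : 2 * |C₁| ≤ κ := by
    rw [hκ]
    have : 0 ≤ 1 / c + 2 * |C₁| / c := by positivity
    linarith
  have hκ3 : 1 ≤ c * κ := by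
    have e1 : c * (1 / c) = 1 := by field_simp
    have e2 : 1 / c ≤ κ := by
      rw [hκ]
      have : 0 ≤ 2 * |C₁| + 2 * |C₁| / c := by positivity
      linarith
    calc (1 : ℝ) = c * (1 / c) := e1.symm
      _ ≤ c * κ := mul_le_mul_of_nonneg_left e2 hc.le
  have hκ4 : 2 * |C₁| ≤ c * κ := by
    have e1 : c * (2 * |C₁| / c) = 2 * |C₁| := by field_simp
    have e2 : 2 * |C₁| / c ≤ κ := by
      rw [hκ]
      have : 0 ≤ 2 * |C₁| + 1 / c := by positivity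
      linarith
    calc 2 * |C₁| = c * (2 * |C₁| / c) := e1.symm
      _ ≤ c * κ := mul_le_mul_of_nonneg_left e2 hc.le
  obtain ⟨m, hm⟩ := pow_unbounded_of_one_lt (4 * κ ^ 4) (by norm_num : (1 : ℝ) < 2)
  refine ⟨m + 5, by omega, fun H hH s hs hsH x hx hiso a b => ?_⟩
  obtain ⟨N, hN, hNH, hI⟩ := hiso b a
  obtain ⟨τ, hτ, hxτ⟩ := hx b
  obtain ⟨τ', hτ', hxτ'⟩ := hx a
  rw [hxτ, hxτ', Gal.isogDeg_iff_maps hN] at hI
  obtain ⟨g, hdet, hmap⟩ := hI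
  rw [hτ, hτ'] at hmap
  have hz : ∀ a, ‖z a s‖ ≤ 2 * |C₁| * H := by
    intro a
    refine (hsz a s hs).trans ?_
    have e1 : C₁ * (1 + ‖s‖) ≤ |C₁| * (1 + ‖s‖) :=
      mul_le_mul_of_nonneg_right (le_abs_self _) (by positivity)
    have e2 : |C₁| * (1 + ‖s‖) ≤ |C₁| * (2 * H) := mul_le_mul_of_nonneg_left (by linarith) hA
    linarith
  have hH1 : 1 ≤ H := by linarith
  have hzT : ∀ a, ‖z a s‖ ≤ κ * H := fun a =>
    (hz a).trans (mul_le_mul_of_nonneg_right hκ2 (by linarith))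
  have hent := Size_entries (c := c) (T := κ * H) (H := H) hc
    (one_le_mul_of_one_le_of_one_le hκ1 hH1) hH1 (by nlinarith) hdet hmap (him b s hs)
    (him a s hs) (hzT b) (hzT a) (by
      have e1 : (z b s).im ≤ 2 * |C₁| * H :=
        ((le_abs_self _).trans (Complex.abs_im_le_norm _)).trans (hz b)
      have e2 : (N : ℝ) * (z b s).im ≤ H * (2 * |C₁| * H) :=
        mul_le_mul hNH e1 (hc.le.trans (him b s hs)) (by linarith)
      have e3 : 2 * |C₁| * (H * H) ≤ c * κ * (H * H) :=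
        mul_le_mul_of_nonneg_right hκ4 (by positivity)
      linarith)
  refine ⟨g, ?_, fun i j => (hent i j).trans ?_, hmap⟩
  · rw [hdet]
    exact_mod_cast hN.ne'
  · have h2m : (2 : ℝ) ^ m ≤ H ^ m := pow_le_pow_left₀ (by norm_num) hH m
    calc 4 * H * (κ * H) ^ 4 = 4 * κ ^ 4 * H ^ 5 := by ring
      _ ≤ H ^ m * H ^ 5 := mul_le_mul_of_nonneg_right (hm.le.trans h2m) (by positivity)
      _ = H ^ (m + 5) := (pow_add _ _ _).symm

/-- the imaginary part of a point is bounded by the logarithm of the modular invariant -/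
private theorem Size_im : ∃ K : ℝ, 0 ≤ K ∧ ∀ (τ : UpperHalfPlane) (H : ℝ), 0 ≤ H →
    ‖Pool.Agent.Hhelper14.ZP.jInv τ‖ ≤ Real.exp H → 2 * Real.pi * τ.im ≤ H + K := by
  obtain ⟨C, hC, h⟩ := exp_im_le
  refine ⟨2 * Real.pi + |Real.log (2 * C)|, by positivity, fun τ H hH hj => ?_⟩
  have hpi := Real.pi_pos
  rcases le_or_gt 1 τ.im with h1 | h1
  · obtain ⟨n, hn⟩ : ∃ n : ℤ, n = -round τ.re := ⟨_, rfl⟩
    have hco : ((ModularGroup.T ^ n • τ : UpperHalfPlane) : ℂ) = (τ : ℂ) + n := by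
      rw [ModularGroup.coe_T_zpow_smul_eq]
    have him : (ModularGroup.T ^ n • τ : UpperHalfPlane).im = τ.im := by
      rw [← UpperHalfPlane.coe_im, hco]
      simp
    have hre : ((ModularGroup.T ^ n • τ : UpperHalfPlane) : ℂ).re = τ.re - round τ.re := by
      rw [hco, hn]
      simp
      ring
    have hred : Red ((ModularGroup.T ^ n • τ : UpperHalfPlane) : ℂ) := by
      refine ⟨UpperHalfPlane.im_pos _, ?_, ?_⟩
      · rw [hre]
        exact abs_sub_round _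
      · have e1 : (1 : ℝ) ≤ ((ModularGroup.T ^ n • τ : UpperHalfPlane) : ℂ).im := by
          rw [UpperHalfPlane.coe_im, him]
          exact h1
        exact e1.trans ((le_abs_self _).trans (Complex.abs_im_le_norm _))
    have h2 := h _ hred
    rw [him, Pool.Agent.Hhelper14.ZP.jInv_smul] at h2
    have h3 : Real.exp (2 * Real.pi * τ.im) ≤ 2 * C * Real.exp H := by
      have e1 : 1 ≤ Real.exp H := Real.one_le_exp hH
      have e2 : C * (1 + ‖Pool.Agent.Hhelper14.ZP.jInv τ‖) ≤ C * (2 * Real.exp H) :=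
        mul_le_mul_of_nonneg_left (by linarith) hC.le
      linarith
    have h4 : 2 * Real.pi * τ.im ≤ Real.log (2 * C) + H := by
      have e1 := Real.log_le_log (Real.exp_pos _) h3
      rwa [Real.log_exp, Real.log_mul (by positivity) (Real.exp_pos _).ne', Real.log_exp] at e1
    have h5 := le_abs_self (Real.log (2 * C))
    linarith
  · have h2 : 2 * Real.pi * τ.im ≤ 2 * Real.pi := by nlinarith
    have h3 := abs_nonneg (Real.log (2 * C))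
    linarith

theorem Cusp.size_of {e : Fin 3 → ℕ} {ψ : Fin 3 → ℂ → ℂ} (h : Cusp e ψ) :
    ∃ C : ℕ, 0 < C ∧ ∀ H : ℝ, 2 ≤ H → ∀ w ∈ CD, ∀ x, Lift (cz e ψ) w x →
      (∀ a, ‖x a‖ ≤ Real.exp H) → ‖w‖ ≤ H ^ C := by
  obtain ⟨a, ha⟩ := h.inf
  obtain ⟨C₁, hC₁⟩ := h.bd
  obtain ⟨K, hK, hKi⟩ := Size_im
  have hpi := Real.pi_pos
  obtain ⟨L, hL⟩ : ∃ L : ℝ, L = K + 2 * Real.pi * |C₁| + Real.pi := ⟨_, rfl⟩
  have hL0 : 0 ≤ L := by rw [hL]; positivity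
  obtain ⟨m, hm⟩ := pow_unbounded_of_one_lt (1 + L) (by norm_num : (1 : ℝ) < 2)
  refine ⟨m + 1, by omega, fun H hH w hw x hx hxH => ?_⟩
  obtain ⟨hw1, hw2⟩ := hw
  obtain ⟨τ, hτ, hxτ⟩ := hx a
  have h1 : 2 * Real.pi * τ.im ≤ H + K := hKi τ H (by linarith) (by rw [← hxτ]; exact hxH a)
  have hq : Complex.exp w ∈ ball (0 : ℂ) 1 := by
    rw [mem_ball_zero_iff, Complex.norm_exp, Real.exp_lt_one_iff]
    linarith
  have hψ := hC₁ a _ hq
  have h2 : τ.im = (e a : ℝ) * (-w.re) / (2 * Real.pi) + (ψ a (Complex.exp w)).im := by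
    rw [← UpperHalfPlane.coe_im, hτ, cz, Complex.add_im]
    congr 1
    have hp : (Real.pi : ℂ) ≠ 0 := by exact_mod_cast hpi.ne'
    have e1 : (e a : ℂ) * w / (2 * Real.pi * Complex.I) =
        (((e a : ℝ) / (2 * Real.pi) : ℝ) : ℂ) * (-(Complex.I * w)) := by
      rw [div_eq_iff (by simp [hp])]
      push_cast
      have e2 : (e a : ℂ) / (2 * Real.pi) * (-(Complex.I * w)) * (2 * Real.pi * Complex.I) =
          (e a : ℂ) * w * ((2 * Real.pi) / (2 * Real.pi)) * (-(Complex.I * Complex.I)) := by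
        ring
      rw [e2, Complex.I_mul_I, neg_neg, mul_one, div_self (by simp [hp]), mul_one]
    rw [e1, Complex.im_ofReal_mul, Complex.neg_im, Complex.I_mul_im]
    ring
  have h3 : |w.re| ≤ 2 * Real.pi * τ.im + 2 * Real.pi * |C₁| := by
    have e1 : -|C₁| ≤ (ψ a (Complex.exp w)).im := by
      have e2 := Complex.abs_im_le_norm (ψ a (Complex.exp w))
      have e3 := neg_abs_le (ψ a (Complex.exp w)).im
      have e4 := le_abs_self C₁
      linarith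
    have e5 : (1 : ℝ) ≤ (e a : ℝ) := by exact_mod_cast ha
    have e6 : 0 ≤ -w.re := by linarith
    have e7 : 2 * Real.pi * ((e a : ℝ) * (-w.re) / (2 * Real.pi)) = (e a : ℝ) * (-w.re) := by
      field_simp
    have e8 : -w.re ≤ (e a : ℝ) * (-w.re) := le_mul_of_one_le_left e6 e5
    have e9 : |w.re| = -w.re := abs_of_nonpos (by linarith)
    have e10 : 2 * Real.pi * τ.im = (e a : ℝ) * (-w.re) +
        2 * Real.pi * (ψ a (Complex.exp w)).im := by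
      rw [h2, mul_add, e7]
    have e11 : 2 * Real.pi * (-|C₁|) ≤ 2 * Real.pi * (ψ a (Complex.exp w)).im :=
      mul_le_mul_of_nonneg_left e1 (by positivity)
    linarith
  have h4 : ‖w‖ ≤ |w.re| + |w.im| := Complex.norm_le_abs_re_add_abs_im w
  have h5 : ‖w‖ ≤ H + L := by rw [hL]; linarith
  have h2m : (2 : ℝ) ^ m ≤ H ^ m := pow_le_pow_left₀ (by norm_num) hH m
  calc ‖w‖ ≤ H + L := h5
    _ ≤ (1 + L) * H := by nlinarith
    _ ≤ H ^ m * H := mul_le_mul_of_nonneg_right (hm.le.trans h2m) (by linarith)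
    _ = H ^ (m + 1) := (pow_succ _ _).symm

end Pool.Agent.LGO.PW
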