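import Mathlib
import Pool.Agent.LGO.PW.FamZ
import Pool.Agent.LGO.PW.Mp
import Pool.Agent.LGO.PW.Lin

/-!
# LGO/PW: tiny discs, preparations

* `tiny_rank`: `exact_two` with `τ = z 0 s₀`, `w = z a s₀`: `f(s) = z a s (g₁₀ z 0 s + g₁₁) - (g₀₀ z 0 s + g₀₁)`
  vanishes at `s`, and `|f(s) - f(s₀)| ≤ C H ^ C |s - s₀|` (`Fam.lip`, `Fam.size`).
* `tiny_one`: all matrices are proportional to one of them, so all points are zeros of one `mp a g`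
  (`mp_eval_eq_zero`, `Maps` is homogeneous in `g`), `Fam.zeros_card`.
* `tiny_ratio`: `Fam.facs` for `mp a A₁`, `mp a A₂`: `f₂ / f₁ = (c₂ U₂(s) / c₁ U₁(s)) ∏ (s - ζ₂) / ∏ (s - ζ₁)`; replace
  `U₂(s) / U₁(s)` by `U₂(s₀) / U₁(s₀)` (`Fac.lip` for both), relative error `O(|s - s₀|)` (if `|s - s₀|` is
  small; in general the relative error is `≤ C' |s - s₀|` too, because `|U₂(s)/U₂(s₀)|` and
  `|U₁(s₀)/U₁(s)|` are bounded); and `f₂ / f₁ = - x / y` is bounded by `2 H ^ 2`.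
  `N = c ∏ (X - ζ₂)`, `D = ∏ (X - ζ₁)`.
-/

namespace Pool.Agent.LGO.PW

open MvPolynomial Metric

variable {Ω Cn : Set ℂ} {z : Fin 3 → ℂ → ℂ} {ρ : ℂ → ℝ}

theorem tiny_rank (hF : Fam Ω Cn z ρ) : ∃ T : ℕ, ∀ H : ℝ, 2 ≤ H → ∀ w ∈ Cn, ‖w‖ ≤ H →
    ∀ s₀ ∈ closedBall w 1, ∀ a, ∀ S : Finset ℂ, ∀ g : ℂ → Matrix (Fin 2) (Fin 2) ℤ,
    (∀ s ∈ S, s ∈ closedBall w 1 ∧ ‖s - s₀‖ ≤ (H ^ T)⁻¹ ∧ (∀ i j, |(g s i j : ℝ)| ≤ H) ∧
      Maps (g s) (z 0 s) (z a s)) →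
    Module.finrank ℚ (Submodule.span ℚ ((fun s => (g s).map (Int.cast : ℤ → ℚ)) '' (S : Set ℂ))) ≤ 2 := by
  obtain ⟨c, hc, him⟩ := hF.im
  obtain ⟨C₁, hC₁⟩ := hF.size
  obtain ⟨C₂, hC₂, hlip⟩ := hF.lip
  obtain ⟨C, hC, htwo⟩ := exact_two hc
  obtain ⟨K, hK⟩ := exists_nat_ge (max 1 (3 * |C₁|))
  have hK1 : (1 : ℝ) ≤ K := (le_max_left _ _).trans hK
  have hK2 : 3 * |C₁| ≤ (K : ℝ) := (le_max_right _ _).trans hK
  set M : ℝ := C * (K : ℝ) ^ C * (8 * C₂ * K) with hM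
  have hM0 : 0 ≤ M := by positivity
  obtain ⟨M', hM'⟩ := exists_nat_ge M
  refine ⟨C + 3 + M', ?_⟩
  intro H hH w hw hwH s₀ hs₀ a S g hS
  have hH0 : 0 < H := by linarith
  have hH1 : 1 ≤ H := by linarith
  have hsub : ∀ s ∈ closedBall w 1, s ∈ Ω := fun s hs =>
    hF.ball w hw (closedBall_subset_ball (by norm_num) hs)
  have hbd : ∀ b, ∀ s ∈ closedBall w 1, ‖z b s‖ ≤ K * H := by
    intro b s hs
    refine (hC₁ b s (hsub s hs)).trans ?_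
    have h1 : ‖s‖ ≤ H + 1 := by
      have h2 := norm_le_norm_add_norm_sub' s w
      rw [mem_closedBall, dist_eq_norm] at hs
      linarith
    have h3 : C₁ * (1 + ‖s‖) ≤ |C₁| * (1 + ‖s‖) :=
      mul_le_mul_of_nonneg_right (le_abs_self _) (by positivity)
    have h4 : |C₁| * (1 + ‖s‖) ≤ |C₁| * (3 * H) :=
      mul_le_mul_of_nonneg_left (by linarith) (abs_nonneg _)
    have h5 : 3 * |C₁| * H ≤ K * H := mul_le_mul_of_nonneg_right hK2 hH0.le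
    linarith
  have hKH : H ≤ K * H := by nlinarith
  set δ : ℝ := 8 * C₂ * K * H ^ 3 * (H ^ (C + 3 + M'))⁻¹ with hδ
  have hδ0 : 0 ≤ δ := by positivity
  refine htwo ℂ (S : Set ℂ) g (z 0 s₀) (z a s₀) (K * H) δ (by linarith) (him 0 s₀ (hsub s₀ hs₀))
    (him a s₀ (hsub s₀ hs₀)) (hbd 0 s₀ hs₀) (hbd a s₀ hs₀) hδ0
    (fun s hs i j => ((hS s hs).2.2.1 i j).trans hKH) ?_ ?_
  · intro s hs
    obtain ⟨hs1, hs2, hs3, hs4⟩ := hS s hs
    have hl := fun b => hlip b w hw s₀ hs₀ s hs1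
    have hε : ‖s₀ - s‖ ≤ (H ^ (C + 3 + M'))⁻¹ := by rwa [norm_sub_rev]
    have hl' : ∀ b, ‖z b s₀ - z b s‖ ≤ 2 * C₂ * H * (H ^ (C + 3 + M'))⁻¹ := by
      intro b
      refine (hl b).trans ?_
      have h1 : (C₂ : ℝ) * (1 + ‖w‖) ≤ 2 * C₂ * H := by
        have : (0 : ℝ) ≤ C₂ := Nat.cast_nonneg _
        nlinarith
      exact mul_le_mul h1 hε (norm_nonneg _) (by positivity)
    have hg : ∀ i j, ‖(g s i j : ℂ)‖ ≤ H := by
      intro i j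
      rw [Complex.norm_intCast]
      exact hs3 i j
    unfold Maps at hs4
    have e : z a s₀ * ((g s 1 0 : ℂ) * z 0 s₀ + (g s 1 1 : ℂ)) -
        ((g s 0 0 : ℂ) * z 0 s₀ + (g s 0 1 : ℂ)) =
        (z a s₀ - z a s) * ((g s 1 0 : ℂ) * z 0 s₀ + (g s 1 1 : ℂ)) +
        z a s * (g s 1 0 : ℂ) * (z 0 s₀ - z 0 s) - (g s 0 0 : ℂ) * (z 0 s₀ - z 0 s) := by
      linear_combination hs4
    rw [e]
    set ε : ℝ := 2 * C₂ * H * (H ^ (C + 3 + M'))⁻¹ with hεd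
    have hε0 : 0 ≤ ε := by positivity
    have b1 : ‖(g s 1 0 : ℂ) * z 0 s₀ + (g s 1 1 : ℂ)‖ ≤ H * (K * H) + H := by
      refine (norm_add_le _ _).trans (add_le_add ?_ (hg 1 1))
      rw [norm_mul]
      exact mul_le_mul (hg 1 0) (hbd 0 s₀ hs₀) (norm_nonneg _) hH0.le
    have b2 : ‖z a s * (g s 1 0 : ℂ)‖ ≤ K * H * H := by
      rw [norm_mul]
      exact mul_le_mul (hbd a s hs1) (hg 1 0) (norm_nonneg _) (by positivity)
    have t1 : ‖(z a s₀ - z a s) * ((g s 1 0 : ℂ) * z 0 s₀ + (g s 1 1 : ℂ))‖ ≤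
        ε * (H * (K * H) + H) := by
      rw [norm_mul]
      exact mul_le_mul (hl' a) b1 (norm_nonneg _) hε0
    have t2 : ‖z a s * (g s 1 0 : ℂ) * (z 0 s₀ - z 0 s)‖ ≤ K * H * H * ε := by
      rw [norm_mul]
      exact mul_le_mul b2 (hl' 0) (norm_nonneg _) (by positivity)
    have t3 : ‖(g s 0 0 : ℂ) * (z 0 s₀ - z 0 s)‖ ≤ H * ε := by
      rw [norm_mul]
      exact mul_le_mul (hg 0 0) (hl' 0) (norm_nonneg _) hH0.le
    have t4 := norm_sub_le ((z a s₀ - z a s) * ((g s 1 0 : ℂ) * z 0 s₀ + (g s 1 1 : ℂ)) +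
      z a s * (g s 1 0 : ℂ) * (z 0 s₀ - z 0 s)) ((g s 0 0 : ℂ) * (z 0 s₀ - z 0 s))
    have t5 := norm_add_le ((z a s₀ - z a s) * ((g s 1 0 : ℂ) * z 0 s₀ + (g s 1 1 : ℂ)))
      (z a s * (g s 1 0 : ℂ) * (z 0 s₀ - z 0 s))
    have t6 : ε * (H * (K * H) + H) + K * H * H * ε + H * ε ≤ ε * (4 * K * H ^ 2) := by
      have h1 : H ≤ K * H ^ 2 := by nlinarith
      have h2 : H * (K * H) + H + K * H * H + H ≤ 4 * K * H ^ 2 := by nlinarith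
      calc ε * (H * (K * H) + H) + K * H * H * ε + H * ε
          = ε * (H * (K * H) + H + K * H * H + H) := by ring
        _ ≤ ε * (4 * K * H ^ 2) := mul_le_mul_of_nonneg_left h2 hε0
    have t7 : ε * (4 * K * H ^ 2) = δ := by rw [hεd, hδ]; ring
    linarith
  · have h1 : (C : ℝ) * (K * H) ^ C * δ = M * (H ^ (C + 3) * (H ^ (C + 3 + M'))⁻¹) := by
      rw [hδ, hM, mul_pow, pow_add H C 3]
      ring
    rw [h1, pow_add H (C + 3) M', mul_inv, ← mul_assoc (H ^ (C + 3)),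
      mul_inv_cancel₀ (by positivity), one_mul, ← div_eq_mul_inv, div_lt_one (by positivity)]
    have h2 : (M' : ℝ) < 2 ^ M' := by exact_mod_cast Nat.lt_two_pow_self
    have h3 : (2 : ℝ) ^ M' ≤ H ^ M' := pow_le_pow_left₀ (by norm_num) hH _
    linarith

theorem tiny_one (hF : Fam Ω Cn z ρ) : ∃ p : ℕ, ∀ w ∈ Cn, ∀ a, a ≠ 0 → ∀ S : Finset ℂ,
    ∀ g : ℂ → Matrix (Fin 2) (Fin 2) ℤ,
    (∀ s ∈ S, s ∈ closedBall w 1 ∧ (g s).det ≠ 0 ∧ Maps (g s) (z 0 s) (z a s)) →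
    (∃ A : Matrix (Fin 2) (Fin 2) ℤ, A.det ≠ 0 ∧ ∀ s ∈ S, ∃ x y : ℤ, x ≠ 0 ∧ x • g s = y • A) →
    S.card ≤ p := by
  obtain ⟨p, hp⟩ := hF.zeros_card 2
  refine ⟨p, ?_⟩
  intro w hw a ha S g hS ⟨A, hA, hx⟩
  have hA0 : A ≠ 0 := by
    rintro rfl
    apply hA
    simp [Matrix.det_fin_two]
  refine hp w hw (mp a A) (mp_ne_zero ha hA0) (mp_deg a A) S fun s hs => ?_
  obtain ⟨h1, h2, h3⟩ := hS s hs
  refine ⟨h1, ?_⟩
  obtain ⟨x, y, hx0, hxy⟩ := hx s hs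
  have hy : y ≠ 0 := by
    rintro rfl
    rw [zero_smul] at hxy
    rcases smul_eq_zero.1 hxy with h4 | h4
    · exact hx0 h4
    · apply h2
      rw [h4]
      simp [Matrix.det_fin_two]
  have e1 := mp_lin a x 0 (g s) (g s)
  have e2 := mp_lin a y 0 A A
  rw [zero_smul, add_zero] at e1 e2
  rw [hxy, e2] at e1
  have e3 := congrArg (eval (fun a => z a s)) e1
  simp only [map_add, map_mul, eval_C, Int.cast_zero, zero_mul, add_zero] at e3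
  have e4 : eval (fun a => z a s) (mp a (g s)) = 0 := mp_eval_eq_zero.2 h3
  rw [e4, mul_zero] at e3
  rcases mul_eq_zero.1 e3 with h5 | h5
  · exact absurd (by exact_mod_cast h5) hy
  · exact h5

theorem tiny_ratio (hF : Fam Ω Cn z ρ) : ∃ p C : ℕ, 0 < C ∧ ∀ H : ℝ, 2 ≤ H → ∀ w ∈ Cn, ‖w‖ ≤ H →
    ∀ s₀ ∈ closedBall w 1, ∀ a, a ≠ 0 → ∀ A₁ A₂ : Matrix (Fin 2) (Fin 2) ℤ, A₁ ≠ 0 → A₂ ≠ 0 →
    ∃ N D : Polynomial ℂ, N.natDegree ≤ p ∧ D.natDegree ≤ p ∧ ∀ s ∈ closedBall w 1,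
      eval (fun a => z a s) (mp a A₁) ≠ 0 → eval (fun a => z a s) (mp a A₂) ≠ 0 →
      D.eval s ≠ 0 ∧ ∀ x y : ℤ, y ≠ 0 → |(x : ℝ)| ≤ 2 * H ^ 2 →
        (x : ℂ) * eval (fun a => z a s) (mp a A₁) + y * eval (fun a => z a s) (mp a A₂) = 0 →
        ‖-(x : ℂ) / y - N.eval s / D.eval s‖ ≤ C * H ^ C * ‖s - s₀‖ := by
  obtain ⟨p, C', C, hC', hC, hfac⟩ := hF.facs 2
  obtain ⟨B, hB⟩ := exists_nat_ge (max 2 (2 * (C' * (2 + 2 * C'))))
  have hB2 : (2 : ℝ) ≤ B := (le_max_left _ _).trans hB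
  have hB3 : 2 * (C' * (2 + 2 * C')) ≤ (B : ℝ) := (le_max_right _ _).trans hB
  have hB2' : 2 ≤ B := by exact_mod_cast hB2
  refine ⟨p, B, by omega, ?_⟩
  intro H hH w hw hwH s₀ hs₀ a ha A₁ A₂ hA₁ hA₂
  obtain ⟨c₁, hc₁, -, U₁, Z₁, F₁⟩ := hfac w hw (mp a A₁) (mp_ne_zero ha hA₁) (mp_deg a A₁)
  obtain ⟨c₂, hc₂, -, U₂, Z₂, F₂⟩ := hfac w hw (mp a A₂) (mp_ne_zero ha hA₂) (mp_deg a A₂)
  have hC0 : 0 < C' := by linarith
  have hU : ∀ {U : ℂ → ℂ} {f : ℂ → ℂ} {c : ℝ} {Z : List ℂ}, Fac C' p w f c U Z →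
      ∀ s ∈ closedBall w 1, U s ≠ 0 := by
    intro U f c Z F s hs h0
    have := F.lower s hs
    rw [h0, norm_zero, mul_zero] at this
    linarith
  set κ : ℂ := (c₂ : ℂ) * U₂ s₀ / ((c₁ : ℂ) * U₁ s₀) with hκ
  have hdeg : ∀ Z : List ℂ, ((Z.map fun ζ => Polynomial.X - Polynomial.C ζ).prod).natDegree ≤
      Z.length := by
    intro Z
    induction Z with
    | nil => simp
    | cons x Z ih =>
      simp only [List.map_cons, List.prod_cons, List.length_cons]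
      refine Polynomial.natDegree_mul_le.trans ?_
      rw [Polynomial.natDegree_X_sub_C]
      omega
  have hev : ∀ (Z : List ℂ) (s : ℂ), ((Z.map fun ζ => Polynomial.X - Polynomial.C ζ).prod).eval s =
      (Z.map fun ζ => s - ζ).prod := by
    intro Z s
    induction Z with
    | nil => simp
    | cons x Z ih =>
      simp only [List.map_cons, List.prod_cons, Polynomial.eval_mul, Polynomial.eval_sub,
        Polynomial.eval_X, Polynomial.eval_C, ih]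
  refine ⟨Polynomial.C κ * (Z₂.map fun ζ => Polynomial.X - Polynomial.C ζ).prod,
    (Z₁.map fun ζ => Polynomial.X - Polynomial.C ζ).prod, ?_, (hdeg Z₁).trans F₁.len, ?_⟩
  · exact (Polynomial.natDegree_C_mul_le _ _).trans ((hdeg Z₂).trans F₂.len)
  intro s hs hf₁ hf₂
  have hs2 : s ∈ ball w 2 := closedBall_subset_ball (by norm_num) hs
  have q₁ : eval (fun a => z a s) (mp a A₁) = c₁ * U₁ s * (Z₁.map (fun ζ => s - ζ)).prod := F₁.eq s hs2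
  have q₂ : eval (fun a => z a s) (mp a A₂) = c₂ * U₂ s * (Z₂.map (fun ζ => s - ζ)).prod := F₂.eq s hs2
  rw [Polynomial.eval_mul, Polynomial.eval_C, hev, hev]
  generalize (Z₁.map (fun ζ => s - ζ)).prod = D at q₁
  generalize (Z₂.map (fun ζ => s - ζ)).prod = N at q₂
  have hD : D ≠ 0 := by
    rintro rfl
    rw [mul_zero] at q₁
    exact hf₁ q₁
  refine ⟨hD, ?_⟩
  intro x y hy hx hxy
  have hc₁' : (c₁ : ℂ) ≠ 0 := by exact_mod_cast hc₁.ne'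
  have hc₂' : (c₂ : ℂ) ≠ 0 := by exact_mod_cast hc₂.ne'
  have hy' : (y : ℂ) ≠ 0 := by exact_mod_cast hy
  have u1 := hU F₁ s hs
  have u2 := hU F₂ s hs
  have u1' := hU F₁ s₀ hs₀
  have u2' := hU F₂ s₀ hs₀
  set α : ℂ := U₂ s₀ / U₂ s with hα
  set β : ℂ := U₁ s / U₁ s₀ with hβ
  have hα1 : ‖α - 1‖ ≤ C' * ‖s - s₀‖ := by
    have := F₂.lip s₀ hs₀ s hs
    rwa [norm_sub_rev s₀ s] at this
  have hβ1 : ‖β - 1‖ ≤ C' * ‖s - s₀‖ := F₁.lip s hs s₀ hs₀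
  have hr : -(x : ℂ) / y = (c₂ * U₂ s * N) / (c₁ * U₁ s * D) := by
    rw [q₁, q₂] at hxy
    rw [div_eq_div_iff hy' (mul_ne_zero (mul_ne_zero hc₁' u1) hD)]
    linear_combination -hxy
  have hN : κ * N / D = (-(x : ℂ) / y) * (α * β) := by
    rw [hr, hκ, hα, hβ]
    field_simp
  have e : -(x : ℂ) / y - κ * N / D = -(-(x : ℂ) / y) * ((α - 1) * β + (β - 1)) := by
    rw [hN]
    ring
  rw [e, norm_mul, norm_neg]
  have hε2 : ‖s - s₀‖ ≤ 2 := by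
    rw [mem_closedBall] at hs hs₀
    have := dist_triangle_right s s₀ w
    rw [dist_eq_norm] at this
    linarith
  have n1 : ‖-(x : ℂ) / y‖ ≤ 2 * H ^ 2 := by
    rw [norm_div, norm_neg, Complex.norm_intCast, Complex.norm_intCast]
    have hy1 : (1 : ℝ) ≤ |(y : ℝ)| := by exact_mod_cast Int.one_le_abs hy
    exact (div_le_self (abs_nonneg _) hy1).trans hx
  have n2 : ‖β‖ ≤ 1 + 2 * C' := by
    have h1 : ‖β‖ ≤ ‖β - 1‖ + 1 := by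
      have := norm_add_le (β - 1) 1
      rwa [sub_add_cancel, norm_one] at this
    nlinarith
  have n3 : ‖(α - 1) * β + (β - 1)‖ ≤ C' * (2 + 2 * C') * ‖s - s₀‖ := by
    refine (norm_add_le _ _).trans ?_
    rw [norm_mul]
    have h1 : ‖α - 1‖ * ‖β‖ ≤ C' * ‖s - s₀‖ * (1 + 2 * C') :=
      mul_le_mul hα1 n2 (norm_nonneg _) (by positivity)
    linarith
  have n4 : ‖-(x : ℂ) / y‖ * ‖(α - 1) * β + (β - 1)‖ ≤
      2 * H ^ 2 * (C' * (2 + 2 * C') * ‖s - s₀‖) :=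
    mul_le_mul n1 n3 (norm_nonneg _) (by positivity)
  refine n4.trans ?_
  have n5 : H ^ 2 ≤ H ^ B := pow_le_pow_right₀ (by linarith) hB2'
  calc 2 * H ^ 2 * (C' * (2 + 2 * C') * ‖s - s₀‖)
      = (2 * (C' * (2 + 2 * C'))) * H ^ 2 * ‖s - s₀‖ := by ring
    _ ≤ (B : ℝ) * H ^ B * ‖s - s₀‖ := by
        refine mul_le_mul_of_nonneg_right ?_ (norm_nonneg _)
        exact mul_le_mul hB3 n5 (by positivity) (Nat.cast_nonneg _)

end Pool.Agent.LGO.PW
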