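import Mathlib
import Pool.Agent.LGO.PW.Count
import Pool.Agent.LGO.PW.Conj
import Pool.Agent.LGO.H.Fin

/-!
# LGO/PW: large Galois orbits and an atlas imply finiteness

`final`.  Let `x ∈ V` be a non CM isogenous triple, `K = ℚ(x (i 0), x (i 1), x (i 2))`, `D = [K : ℚ]` (finite by
`alg_of_isog`; `i a ≠ i b` for `a ≠ b` by `hmod`-type arguments: it is a hypothesis here, `i` injective), by
`hL`: `mdeg ≤ (C D) ^ C`, `|s (x (i a))| ≤ exp ((C D) ^ C)`.  `H := (C D) ^ C + 2`.  `conj_many`: a finite set `S` of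
conjugate triples in `W = {y | ∃ x ∈ V, y = fun a => x (i a)}`, `D ≤ m |S|`; every `y ∈ S` satisfies `CntPt W H y`
(`mdeg_spec`, `IsogDeg.map`).  `count` with `δ = 1 / (2 C)`: `D ≤ m C' H ^ δ ≤ C'' D ^ (1/2)`, so `D ≤ D₀`, so
`mdeg (x (i 0)) (x (i 1)) ≤ B`, and `finite_isogDeg_le`.
-/

namespace Pool.Agent.LGO.PW

open MvPolynomial UpperHalfPlane Pool.Agent.Hhelper14.ZP Pool.Agent.Hhelper14.ZPL

private theorem Final_bound {C m D c : ℕ} {C' : ℝ} (hC' : 0 < C') (hD : 1 ≤ D) (hDm : D ≤ m * c)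
    (hc : (c : ℝ) ≤ C' * (((C : ℝ) * D) ^ C + 2) ^ (1 / (2 * ((C : ℝ) + 1)))) :
    (D : ℝ) ≤ ((m : ℝ) * C' * (3 : ℝ) ^ (1 / (2 * ((C : ℝ) + 1))) * ((C : ℝ) + 2) ^ (1 / 2 : ℝ)) ^ 2 := by
  set δ : ℝ := 1 / (2 * ((C : ℝ) + 1)) with hδ
  have hC0 : (0 : ℝ) ≤ C := Nat.cast_nonneg _
  have hδ0 : 0 < δ := by positivity
  have hD1 : (1 : ℝ) ≤ D := by exact_mod_cast hD
  have hD0 : (0 : ℝ) < D := by linarith
  set E : ℝ := ((C : ℝ) + 2) * D with hE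
  have hE1 : 1 ≤ E := by rw [hE]; nlinarith
  have hE0 : 0 < E := by linarith
  have hCD : (C : ℝ) * D ≤ E := by rw [hE]; nlinarith
  have h1 : ((C : ℝ) * D) ^ C ≤ E ^ (C + 1) :=
    (pow_le_pow_left₀ (by positivity) hCD C).trans (pow_le_pow_right₀ hE1 (Nat.le_succ C))
  have h2 : 1 ≤ E ^ (C + 1) := one_le_pow₀ hE1
  have h3 : ((C : ℝ) * D) ^ C + 2 ≤ 3 * E ^ (C + 1) := by linarith
  have h4 : (((C : ℝ) * D) ^ C + 2) ^ δ ≤ (3 * E ^ (C + 1)) ^ δ :=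
    Real.rpow_le_rpow (by positivity) h3 hδ0.le
  have h5 : (3 * E ^ (C + 1)) ^ δ = (3 : ℝ) ^ δ * E ^ (1 / 2 : ℝ) := by
    rw [Real.mul_rpow (by norm_num) (by positivity), ← Real.rpow_natCast E, ← Real.rpow_mul hE0.le]
    congr 2
    rw [hδ]
    push_cast
    field_simp
  have h6 : E ^ (1 / 2 : ℝ) = ((C : ℝ) + 2) ^ (1 / 2 : ℝ) * (D : ℝ) ^ (1 / 2 : ℝ) := by
    rw [hE, Real.mul_rpow (by positivity) hD0.le]
  set q : ℝ := (D : ℝ) ^ (1 / 2 : ℝ) with hq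
  have hq0 : 0 < q := Real.rpow_pos_of_pos hD0 _
  have hqq : q * q = D := by
    rw [hq, ← Real.rpow_add hD0]
    norm_num
  have h7 : (D : ℝ) ≤ m * c := by exact_mod_cast hDm
  have hm0 : (0 : ℝ) ≤ m := Nat.cast_nonneg _
  have h8 : (D : ℝ) ≤ ((m : ℝ) * C' * (3 : ℝ) ^ δ * ((C : ℝ) + 2) ^ (1 / 2 : ℝ)) * q := by
    calc (D : ℝ) ≤ m * c := h7
      _ ≤ m * (C' * (((C : ℝ) * D) ^ C + 2) ^ δ) := mul_le_mul_of_nonneg_left hc hm0
      _ ≤ m * (C' * ((3 : ℝ) ^ δ * (((C : ℝ) + 2) ^ (1 / 2 : ℝ) * q))) := by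
          rw [h5, h6] at h4
          exact mul_le_mul_of_nonneg_left (mul_le_mul_of_nonneg_left h4 hC'.le) hm0
      _ = _ := by ring
  set M : ℝ := (m : ℝ) * C' * (3 : ℝ) ^ δ * ((C : ℝ) + 2) ^ (1 / 2 : ℝ) with hM
  have h9 : q ≤ M := by
    rw [← hqq] at h8
    exact le_of_mul_le_mul_right h8 hq0
  rw [← hqq, sq]
  exact mul_le_mul h9 h9 hq0.le (hq0.le.trans h9)

/-- The stronger form: the points of `V` which satisfy `Concl` with a given constant are finite in number. -/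
theorem final_concl {n : ℕ} {V : Set (Fin n → ℂ)} (hV : Pool.Agent.Hhelper14.ZPL.IsIrredClosed V)
    (hVk : KClosed V) (hdim : Pool.Agent.Hhelper14.ZPL.dim V = 1) (i : Fin 3 → Fin n)
    (hi : Function.Injective i)
    (hmod : ∀ a b, a ≠ b → ∀ g : GL (Fin 2) ℚ, 0 < g.det.val →
      ∃ x ∈ V, ¬ ∃ τ : ℍ, x (i a) = jInv τ ∧ x (i b) = jInv (gact g τ))
    (hA : HasAtlas {y | ∃ x ∈ V, y = fun a => x (i a)}) (C : ℕ) :
    {x ∈ V | (∀ a, NCM (x (i a))) ∧ (∀ a b, ∃ N, 0 < N ∧ IsogDeg N (x (i a)) (x (i b))) ∧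
      Concl i C x}.Finite := by
  obtain ⟨m, hm, hconj⟩ := conj_many hVk i
  have hδ : 0 < 1 / (2 * ((C : ℝ) + 1)) := by positivity
  obtain ⟨C', hC', hcount⟩ := count hA (1 / (2 * ((C : ℝ) + 1))) hδ
  have h01 : i 0 ≠ i 1 := hi.ne (by decide)
  set M : ℝ := ((m : ℝ) * C' * (3 : ℝ) ^ (1 / (2 * ((C : ℝ) + 1))) * ((C : ℝ) + 2) ^ (1 / 2 : ℝ)) ^ 2
    with hM
  refine Set.Finite.subset (finite_isogDeg_le hV hdim h01 (hmod 0 1 (by decide)) ⌈((C : ℝ) * M) ^ C⌉₊) ?_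
  rintro x ⟨hxV, -, hiso, hL⟩
  have halg : ∀ a, IsAlgebraic ℚ (x (i a)) := fun a =>
    alg_of_isog hV hVk hdim h01 (hmod 0 1 (by decide)) hxV (hiso 0 1) (i a)
  set K : IntermediateField ℚ ℂ := IntermediateField.adjoin ℚ (Set.range fun a => x (i a)) with hK
  have hfd : FiniteDimensional ℚ K := by
    rw [hK]
    refine IntermediateField.finiteDimensional_adjoin ?_
    rintro y ⟨a, rfl⟩
    exact (halg a).isIntegral
  have hxK : ∀ a, x (i a) ∈ K := fun a => IntermediateField.subset_adjoin ℚ _ ⟨a, rfl⟩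
  obtain ⟨h1, h2⟩ := hL K hxK
  have hD : 1 ≤ Module.finrank ℚ K := Module.finrank_pos
  set D : ℕ := Module.finrank ℚ K with hDdef
  obtain ⟨S, hS1, hS2⟩ := hconj x hxV halg
  set H : ℝ := ((C : ℝ) * D) ^ C + 2 with hH
  have hpow : (0 : ℝ) ≤ ((C : ℝ) * D) ^ C := by positivity
  have hS : (S.card : ℝ) ≤ C' * H ^ (1 / (2 * ((C : ℝ) + 1))) := by
    refine hcount H (by linarith) S fun y hy => ?_
    obtain ⟨s, hs, rfl⟩ := hS2 y hy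
    refine ⟨⟨_, hs, rfl⟩, fun a => ?_, fun a b => ?_⟩
    · refine (h2 a s).trans (Real.exp_le_exp.2 ?_)
      rw [hH]
      linarith
    · obtain ⟨h3, h4⟩ := mdeg_spec (hiso a b)
      refine ⟨mdeg (x (i a)) (x (i b)), h3, ?_, ?_⟩
      · have := h1 a b
        rw [hH]
        linarith
      · exact IsogDeg.map (s : ℂ →+* ℂ) h3 h4
  have hDM : (D : ℝ) ≤ M := Final_bound hC' hD hS1 hS
  obtain ⟨h3, h4⟩ := mdeg_spec (hiso 0 1)
  refine ⟨hxV, mdeg (x (i 0)) (x (i 1)), h3, ?_, h4⟩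
  have h5 : (mdeg (x (i 0)) (x (i 1)) : ℝ) ≤ ((C : ℝ) * M) ^ C := by
    refine (h1 0 1).trans ?_
    apply pow_le_pow_left₀ (by positivity)
    exact mul_le_mul_of_nonneg_left hDM (Nat.cast_nonneg _)
  have h6 := h5.trans (Nat.le_ceil (((C : ℝ) * M) ^ C))
  exact_mod_cast h6

theorem final {n : ℕ} {V : Set (Fin n → ℂ)} (hV : Pool.Agent.Hhelper14.ZPL.IsIrredClosed V)
    (hVk : KClosed V) (hdim : Pool.Agent.Hhelper14.ZPL.dim V = 1) (i : Fin 3 → Fin n)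
    (hi : Function.Injective i)
    (hmod : ∀ a b, a ≠ b → ∀ g : GL (Fin 2) ℚ, 0 < g.det.val →
      ∃ x ∈ V, ¬ ∃ τ : ℍ, x (i a) = jInv τ ∧ x (i b) = jInv (gact g τ))
    (hA : HasAtlas {y | ∃ x ∈ V, y = fun a => x (i a)})
    (hL : ∃ C : ℕ, ∀ x ∈ V, (∀ a, NCM (x (i a))) →
      (∀ a b, ∃ N, 0 < N ∧ IsogDeg N (x (i a)) (x (i b))) → Concl i C x) :
    {x ∈ V | (∀ a, NCM (x (i a))) ∧ ∀ a b, ∃ N, 0 < N ∧ IsogDeg N (x (i a)) (x (i b))}.Finite := by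
  obtain ⟨C, hL⟩ := hL
  refine (final_concl hV hVk hdim i hi hmod hA C).subset ?_
  rintro x ⟨hxV, hncm, hiso⟩
  exact ⟨hxV, hncm, hiso, hL x hxV hncm hiso⟩

end Pool.Agent.LGO.PW
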